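import Mathlib

/-!
Midpoint Prekopa-Leindler inequality on `Fin k → ℝ`, and the consequence for convex sets that is
needed: the volume of a set is at most that of its (half) difference set.
-/

open MeasureTheory Set ENNReal Pointwise

namespace MeyerRatio

/-- One dimensional Brunn-Minkowski for compact sets, midpoint form. -/
theorem bm_one_compact {A B C : Set ℝ} (hA : IsCompact A) (hB : IsCompact B)
    (hAne : A.Nonempty) (hBne : B.Nonempty)
    (hC : ∀ a ∈ A, ∀ b ∈ B, (1 / 2 : ℝ) * (a + b) ∈ C) :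
    volume A + volume B ≤ 2 * volume C := by
  obtain ⟨a₀, ha₀, hmax⟩ := hA.exists_isMaxOn hAne continuous_id.continuousOn
  obtain ⟨b₀, hb₀, hmin⟩ := hB.exists_isMinOn hBne continuous_id.continuousOn
  have hmax' : ∀ a ∈ A, a ≤ a₀ := fun a ha => hmax ha
  have hmin' : ∀ b ∈ B, b₀ ≤ b := fun b hb => hmin hb
  set A' : Set ℝ := (fun x : ℝ => (1 / 2 : ℝ) * (x + b₀)) '' A with hA'
  set B' : Set ℝ := (fun x : ℝ => (1 / 2 : ℝ) * (x + a₀)) '' B with hB'
  have hA'c : IsCompact A' := hA.image (by fun_prop)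
  have hB'c : IsCompact B' := hB.image (by fun_prop)
  have hvol : ∀ (S : Set ℝ) (c : ℝ), volume ((fun x : ℝ => (1 / 2 : ℝ) * (x + c)) '' S)
      = ENNReal.ofReal (1 / 2) * volume S := by
    intro S c
    have h1 : (fun x : ℝ => (1 / 2 : ℝ) * (x + c)) '' S
        = (fun x => x + (1/2) * c) '' ((1 / 2 : ℝ) • S) := by
      ext y
      simp only [Set.mem_image, Set.mem_smul_set, smul_eq_mul]
      constructor
      · rintro ⟨x, hx, rfl⟩
        exact ⟨(1/2) * x, ⟨x, hx, rfl⟩, by ring⟩
      · rintro ⟨z, ⟨x, hx, rfl⟩, rfl⟩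
        exact ⟨x, hx, by ring⟩
    rw [h1]
    have h2 : (fun x : ℝ => x + (1/2) * c) '' ((1 / 2 : ℝ) • S)
        = (fun x : ℝ => x + -((1/2) * c)) ⁻¹' ((1 / 2 : ℝ) • S) := by
      rw [Set.image_add_right]
    rw [h2, measure_preimage_add_right, Measure.addHaar_smul]
    simp
  have hsub : A' ∪ B' ⊆ C := by
    rintro y (⟨x, hx, rfl⟩ | ⟨x, hx, rfl⟩)
    · exact hC x hx b₀ hb₀
    · have := hC a₀ ha₀ x hx
      simpa [add_comm] using this
  have hinter : volume (A' ∩ B') = 0 := by
    have : A' ∩ B' ⊆ {(1 / 2 : ℝ) * (a₀ + b₀)} := by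
      rintro y ⟨⟨x, hx, rfl⟩, ⟨z, hz, hzy⟩⟩
      have h1 := hmax' x hx
      have h2 := hmin' z hz
      simp only [Set.mem_singleton_iff] at hzy ⊢
      have : x = a₀ := by
        have h3 : z + a₀ = x + b₀ := by
          have : (1 / 2 : ℝ) * (z + a₀) = (1 / 2 : ℝ) * (x + b₀) := hzy
          linarith
        linarith
      rw [this]
    exact measure_mono_null this (by simp)
  have hun : volume A' + volume B' = volume (A' ∪ B') := by
    rw [← measure_union_add_inter A' hB'c.measurableSet, hinter, add_zero]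
  have : volume A' + volume B' ≤ volume C := by
    rw [hun]; exact measure_mono hsub
  rw [hvol, hvol, ← mul_add] at this
  calc volume A + volume B = 2 * (ENNReal.ofReal (1/2) * (volume A + volume B)) := by
        rw [← mul_assoc]
        have : (2 : ℝ≥0∞) * ENNReal.ofReal (1/2) = 1 := by
          have h2 : (2 : ℝ≥0∞) = ENNReal.ofReal 2 := by simp
          rw [h2, ← ENNReal.ofReal_mul (by norm_num)]
          norm_num
        rw [this, one_mul]
    _ ≤ 2 * volume C := by gcongr

/-- One dimensional Brunn-Minkowski for measurable sets, midpoint form. -/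
theorem bm_one {A B C : Set ℝ} (hA : MeasurableSet A) (hB : MeasurableSet B)
    (hAne : A.Nonempty) (hBne : B.Nonempty)
    (hC : ∀ a ∈ A, ∀ b ∈ B, (1 / 2 : ℝ) * (a + b) ∈ C) :
    volume A + volume B ≤ 2 * volume C := by
  obtain ⟨a, ha⟩ := hAne
  obtain ⟨b, hb⟩ := hBne
  rw [hA.measure_eq_iSup_isCompact, hB.measure_eq_iSup_isCompact]
  simp_rw [iSup_and']
  refine ENNReal.biSup_add_biSup_le' ⟨∅, by simp⟩ ⟨∅, by simp⟩ ?_
  rintro K₁ ⟨hK₁, hK₁c⟩ K₂ ⟨hK₂, hK₂c⟩
  have h1 : volume (insert a K₁) + volume (insert b K₂) ≤ 2 * volume C := by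
    refine bm_one_compact (hK₁c.insert a) (hK₂c.insert b) ⟨a, Set.mem_insert _ _⟩
      ⟨b, Set.mem_insert _ _⟩ ?_
    intro x hx y hy
    refine hC x ?_ y ?_
    · rcases hx with rfl | hx
      · exact ha
      · exact hK₁ hx
    · rcases hy with rfl | hy
      · exact hb
      · exact hK₂ hy
  calc volume K₁ + volume K₂
      ≤ volume (insert a K₁) + volume (insert b K₂) :=
        add_le_add (measure_mono (Set.subset_insert _ _)) (measure_mono (Set.subset_insert _ _))
    _ ≤ _ := h1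

/-- AM-GM step in `ℝ≥0∞`. -/
theorem amgm_step {F G H : ℝ≥0∞} {a b : ℝ} (ha : 0 < a) (hb : 0 < b)
    (h : F / ENNReal.ofReal a + G / ENNReal.ofReal b ≤ 2 * (H / ENNReal.ofReal (√(a * b)))) :
    F * G ≤ H ^ 2 := by
  rcases eq_or_ne H ∞ with rfl | hH
  · simp
  have hc : 0 < √(a * b) := Real.sqrt_pos.mpr (mul_pos ha hb)
  have hc' : ENNReal.ofReal (√(a * b)) ≠ 0 := by simpa using hc
  have hR : 2 * (H / ENNReal.ofReal (√(a * b))) ≠ ∞ :=
    ENNReal.mul_ne_top (by simp) (ENNReal.div_ne_top hH hc')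
  have hF' : F / ENNReal.ofReal a ≠ ∞ := ne_top_of_le_ne_top hR (le_self_add.trans h)
  have hG' : G / ENNReal.ofReal b ≠ ∞ := ne_top_of_le_ne_top hR (le_add_self.trans h)
  have hF : F ≠ ∞ := by
    rintro rfl
    apply hF'
    rw [ENNReal.top_div]; simp
  have hG : G ≠ ∞ := by
    rintro rfl
    apply hG'
    rw [ENNReal.top_div]; simp
  lift F to NNReal using hF
  lift G to NNReal using hG
  lift H to NNReal using hH
  have hr : (F : ℝ) / a + (G : ℝ) / b ≤ 2 * ((H : ℝ) / √(a * b)) := by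
    have := ENNReal.toReal_mono hR h
    rw [ENNReal.toReal_add hF' hG', ENNReal.toReal_div, ENNReal.toReal_div, ENNReal.toReal_mul,
      ENNReal.toReal_div] at this
    simpa [ENNReal.toReal_ofReal ha.le, ENNReal.toReal_ofReal hb.le,
      ENNReal.toReal_ofReal hc.le] using this
  have hsq : (√(a * b)) ^ 2 = a * b := Real.sq_sqrt (mul_pos ha hb).le
  have hkey : (F : ℝ) * G ≤ (H : ℝ) ^ 2 := by
    set c := √(a * b)
    have h1 : 0 ≤ (F : ℝ) / a + (G : ℝ) / b := by positivity
    have h2 : ((F : ℝ) / a + (G : ℝ) / b) ^ 2 ≤ (2 * ((H : ℝ) / c)) ^ 2 :=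
      pow_le_pow_left₀ h1 hr 2
    have h3 : 4 * ((F : ℝ) / a) * ((G : ℝ) / b) ≤ ((F : ℝ) / a + (G : ℝ) / b) ^ 2 := by
      nlinarith [sq_nonneg ((F : ℝ) / a - (G : ℝ) / b)]
    have h4 : (2 * ((H : ℝ) / c)) ^ 2 = 4 * ((H : ℝ) ^ 2 / (a * b)) := by
      rw [← hsq]; field_simp; ring
    have h5 : 4 * ((F : ℝ) / a) * ((G : ℝ) / b) = 4 * (((F : ℝ) * G) / (a * b)) := by
      field_simp
    rw [h5] at h3
    rw [h4] at h2
    have h6 : ((F : ℝ) * G) / (a * b) ≤ (H : ℝ) ^ 2 / (a * b) := by linarith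
    exact (div_le_div_iff_of_pos_right (mul_pos ha hb)).mp h6
  have : F * G ≤ H ^ 2 := by
    rw [← NNReal.coe_le_coe]; push_cast; exact hkey
  exact_mod_cast this

/-- Real valued bounded one dimensional Prekopa-Leindler. -/
theorem pl_one_real {f g h : ℝ → ℝ} (hf : Measurable f) (hg : Measurable g) (hh : Measurable h)
    (hf0 : ∀ x, 0 ≤ f x) (hg0 : ∀ x, 0 ≤ g x) (hh0 : ∀ x, 0 ≤ h x)
    (hfb : BddAbove (Set.range f)) (hgb : BddAbove (Set.range g))
    (hfgh : ∀ x y, f x * g y ≤ h ((1 / 2 : ℝ) * (x + y)) ^ 2) :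
    (∫⁻ x, ENNReal.ofReal (f x)) * (∫⁻ x, ENNReal.ofReal (g x))
      ≤ (∫⁻ x, ENNReal.ofReal (h x)) ^ 2 := by
  set a := ⨆ x, f x with ha_def
  set b := ⨆ x, g x with hb_def
  have hfa : ∀ x, f x ≤ a := fun x => le_ciSup hfb x
  have hgb' : ∀ x, g x ≤ b := fun x => le_ciSup hgb x
  rcases (le_trans (hf0 0) (hfa 0)).eq_or_lt with ha | ha
  · have : ∀ x, f x = 0 := fun x => le_antisymm (ha ▸ hfa x) (hf0 x)
    simp [this]
  rcases (le_trans (hg0 0) (hgb' 0)).eq_or_lt with hb | hb
  · have : ∀ x, g x = 0 := fun x => le_antisymm (hb ▸ hgb' x) (hg0 x)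
    simp [this]
  set c := √(a * b) with hc_def
  have hc : 0 < c := Real.sqrt_pos.mpr (mul_pos ha hb)
  have hsq : c ^ 2 = a * b := Real.sq_sqrt (mul_pos ha hb).le
  refine amgm_step ha hb ?_
  have hdiv : ∀ (φ : ℝ → ℝ) (k : ℝ), Measurable φ → (∀ x, 0 ≤ φ x) → 0 < k →
      (∫⁻ x, ENNReal.ofReal (φ x)) / ENNReal.ofReal k = ∫⁻ t in Ioi (0:ℝ), volume {x | t < φ x / k} := by
    intro φ k hφ hφ0 hk
    have hm : Measurable fun x => φ x / k := hφ.div_const k
    rw [← lintegral_eq_lintegral_meas_lt (μ := volume) (f := fun x => φ x / k)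
      (Filter.Eventually.of_forall fun x => div_nonneg (hφ0 x) hk.le) hm.aemeasurable]
    rw [ENNReal.div_eq_inv_mul, ← lintegral_const_mul _ (by fun_prop)]
    congr 1
    ext x
    rw [ENNReal.ofReal_div_of_pos hk, ENNReal.div_eq_inv_mul]
  rw [hdiv f a hf hf0 ha, hdiv g b hg hg0 hb, hdiv h c hh hh0 hc]
  have hmeasF : Measurable fun t : ℝ => volume {x | t < f x / a} := by
    apply Antitone.measurable
    intro s t hst
    exact measure_mono fun x hx => lt_of_le_of_lt hst hx
  have hmeasG : Measurable fun t : ℝ => volume {x | t < g x / b} := by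
    apply Antitone.measurable
    intro s t hst
    exact measure_mono fun x hx => lt_of_le_of_lt hst hx
  have hmeasH : Measurable fun t : ℝ => volume {x | t < h x / c} := by
    apply Antitone.measurable
    intro s t hst
    exact measure_mono fun x hx => lt_of_le_of_lt hst hx
  rw [← lintegral_add_left hmeasF, ← lintegral_const_mul _ hmeasH]
  refine lintegral_mono_ae ?_
  rw [ae_restrict_iff' measurableSet_Ioi]
  refine Filter.Eventually.of_forall fun t ht => ?_
  have ht0 : 0 < t := ht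
  rcases lt_or_ge t 1 with ht1 | ht1
  · refine bm_one (measurableSet_lt measurable_const (hf.div_const a))
      (measurableSet_lt measurable_const (hg.div_const b)) ?_ ?_ ?_
    · have : t * a < a := by nlinarith
      obtain ⟨x, hx⟩ := exists_lt_of_lt_ciSup (f := f) this
      exact ⟨x, by simpa [lt_div_iff₀ ha] using hx⟩
    · have : t * b < b := by nlinarith
      obtain ⟨x, hx⟩ := exists_lt_of_lt_ciSup (f := g) this
      exact ⟨x, by simpa [lt_div_iff₀ hb] using hx⟩
    · intro x hx y hy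
      simp only [Set.mem_ofPred_eq] at hx hy ⊢
      rw [lt_div_iff₀ ha] at hx
      rw [lt_div_iff₀ hb] at hy
      rw [lt_div_iff₀ hc]
      have h1 := hfgh x y
      have h2 : (t * c) ^ 2 < h ((1 / 2 : ℝ) * (x + y)) ^ 2 := by
        calc (t * c) ^ 2 = (t * a) * (t * b) := by rw [mul_pow, hsq]; ring
          _ < f x * g y := by
              apply mul_lt_mul hx hy.le (by positivity) (hf0 x)
          _ ≤ _ := h1
      exact lt_of_pow_lt_pow_left₀ 2 (hh0 _) h2
  · have e1 : {x | t < f x / a} = ∅ := by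
      ext x
      simp only [Set.mem_ofPred_eq, Set.mem_empty_iff_false, iff_false, not_lt]
      exact le_trans ((div_le_one ha).mpr (hfa x)) ht1
    have e2 : {x | t < g x / b} = ∅ := by
      ext x
      simp only [Set.mem_ofPred_eq, Set.mem_empty_iff_false, iff_false, not_lt]
      exact le_trans ((div_le_one hb).mpr (hgb' x)) ht1
    rw [e1, e2]
    simp

/-- One dimensional Prekopa-Leindler for `ℝ≥0∞`-valued functions (midpoint form). -/
theorem pl_one {f g h : ℝ → ℝ≥0∞} (hf : Measurable f) (hg : Measurable g) (hh : Measurable h)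
    (hfgh : ∀ x y, f x * g y ≤ h ((1 / 2 : ℝ) * (x + y)) ^ 2) :
    (∫⁻ x, f x) * (∫⁻ x, g x) ≤ (∫⁻ x, h x) ^ 2 := by
  have key : ∀ n : ℕ, (∫⁻ x, min (f x) n) * (∫⁻ x, min (g x) n) ≤ (∫⁻ x, h x) ^ 2 := by
    intro n
    have hfin : ∀ (φ : ℝ → ℝ≥0∞) (x : ℝ), min (φ x) n ≠ ∞ := fun φ x =>
      ne_top_of_le_ne_top (ENNReal.natCast_ne_top n) (min_le_right _ _)
    have hb : ∀ (φ : ℝ → ℝ≥0∞), BddAbove (Set.range fun x => (min (φ x) (n : ℝ≥0∞)).toReal) := by
      intro φ
      refine ⟨n, ?_⟩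
      rintro _ ⟨x, rfl⟩
      have := ENNReal.toReal_mono (ENNReal.natCast_ne_top n) (min_le_right (φ x) (n : ℝ≥0∞))
      simpa using this
    have h1 := pl_one_real (f := fun x => (min (f x) (n : ℝ≥0∞)).toReal)
      (g := fun x => (min (g x) (n : ℝ≥0∞)).toReal) (h := fun x => (min (h x) (n : ℝ≥0∞)).toReal)
      (hf.min measurable_const).ennreal_toReal (hg.min measurable_const).ennreal_toReal
      (hh.min measurable_const).ennreal_toReal
      (fun x => ENNReal.toReal_nonneg) (fun x => ENNReal.toReal_nonneg)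
      (fun x => ENNReal.toReal_nonneg) (hb f) (hb g) (by
        intro x y
        rw [← ENNReal.toReal_mul, ← ENNReal.toReal_pow]
        refine ENNReal.toReal_mono (ENNReal.pow_ne_top (hfin h _)) ?_
        rcases le_total (h ((1 / 2 : ℝ) * (x + y))) n with hle | hle
        · rw [min_eq_left hle]
          exact le_trans (mul_le_mul' (min_le_left _ _) (min_le_left _ _)) (hfgh x y)
        · rw [min_eq_right hle, sq]
          exact mul_le_mul' (min_le_right _ _) (min_le_right _ _))
    simp only [ENNReal.ofReal_toReal (hfin _ _)] at h1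
    refine h1.trans ?_
    gcongr with x
    exact min_le_left _ _
  have hsup : ∀ φ : ℝ → ℝ≥0∞, Measurable φ → ∫⁻ x, φ x = ⨆ n : ℕ, ∫⁻ x, min (φ x) n := by
    intro φ hφ
    rw [← lintegral_iSup (fun n => hφ.min measurable_const)]
    · congr 1
      ext x
      refine le_antisymm ?_ (iSup_le fun n => min_le_left _ _)
      rcases eq_or_ne (φ x) ∞ with hx | hx
      · rw [hx]
        simp [ENNReal.iSup_natCast]
      · obtain ⟨n, hn⟩ := ENNReal.exists_nat_gt hx
        exact le_iSup_of_le n (by rw [min_eq_left hn.le])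
    · intro m n hmn x
      exact min_le_min le_rfl (by exact_mod_cast hmn)
  rw [hsup f hf, hsup g hg, ENNReal.iSup_mul]
  refine iSup_le fun m => ?_
  rw [ENNReal.mul_iSup]
  refine iSup_le fun n => ?_
  refine le_trans ?_ (key (max m n))
  gcongr
  · exact_mod_cast le_max_left m n
  · exact_mod_cast le_max_right m n

theorem piFinSuccAbove_symm_zero {k : ℕ} (s : ℝ) (y : Fin k → ℝ) :
    (MeasurableEquiv.piFinSuccAbove (fun _ : Fin (k + 1) => ℝ) 0).symm (s, y) = Fin.cons s y := by
  have : MeasurableEquiv.piFinSuccAbove (fun _ : Fin (k + 1) => ℝ) 0 (Fin.cons s y) = (s, y) := by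
    ext i
    · simp [MeasurableEquiv.piFinSuccAbove, Fin.insertNthEquiv]
    · simp [MeasurableEquiv.piFinSuccAbove, Fin.insertNthEquiv]
  rw [← this, MeasurableEquiv.symm_apply_apply]

/-- Slicing of the integral on `Fin (k+1) → ℝ` along the first coordinate. -/
theorem lintegral_fin_succ {k : ℕ} {f : (Fin (k + 1) → ℝ) → ℝ≥0∞} (hf : Measurable f) :
    ∫⁻ x, f x = ∫⁻ s : ℝ, ∫⁻ y : Fin k → ℝ, f (Fin.cons s y) := by
  have hmp := volume_preserving_piFinSuccAbove (fun _ : Fin (k + 1) => ℝ) 0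
  have h1 := (hmp.symm).lintegral_comp_emb (MeasurableEquiv.measurableEmbedding _) f
  rw [← h1, Measure.volume_eq_prod, lintegral_prod _ (by
    exact (hf.comp (MeasurableEquiv.measurable _)).aemeasurable)]
  simp_rw [piFinSuccAbove_symm_zero]

theorem measurable_fin_cons {k : ℕ} (s : ℝ) :
    Measurable fun y : Fin k → ℝ => (Fin.cons s y : Fin (k + 1) → ℝ) := by
  refine measurable_pi_lambda _ fun i => ?_
  refine Fin.cases ?_ (fun j => ?_) i
  · simp
  · simpa using measurable_pi_apply j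

theorem measurable_fin_cons_prod {k : ℕ} :
    Measurable fun p : ℝ × (Fin k → ℝ) => (Fin.cons p.1 p.2 : Fin (k + 1) → ℝ) := by
  refine measurable_pi_lambda _ fun i => ?_
  refine Fin.cases ?_ (fun j => ?_) i
  · simpa using measurable_fst
  · simpa using (show Measurable fun p : ℝ × (Fin k → ℝ) => p.2 j by fun_prop)

/-- Prekopa-Leindler (midpoint form) in dimension `k`. -/
theorem pl_fin (k : ℕ) : ∀ {f g h : (Fin k → ℝ) → ℝ≥0∞}, Measurable f → Measurable g →
    Measurable h → (∀ x y, f x * g y ≤ h ((1 / 2 : ℝ) • (x + y)) ^ 2) →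
    (∫⁻ x, f x) * (∫⁻ x, g x) ≤ (∫⁻ x, h x) ^ 2 := by
  induction k with
  | zero =>
    intro f g h hf hg hh hfgh
    have hone : ∀ φ : (Fin 0 → ℝ) → ℝ≥0∞, ∫⁻ x, φ x = φ default := by
      intro φ
      rw [lintegral_unique, volume_pi, Measure.pi_univ]
      simp only [Finset.univ_eq_empty, Finset.prod_empty, mul_one]
      exact congrArg φ (Subsingleton.elim _ _)
    rw [hone, hone, hone]
    have := hfgh default default
    rwa [Subsingleton.elim ((1 / 2 : ℝ) • ((default : Fin 0 → ℝ) + default)) default] at this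
  | succ k ih =>
    intro f g h hf hg hh hfgh
    rw [lintegral_fin_succ hf, lintegral_fin_succ hg, lintegral_fin_succ hh]
    have hm : ∀ φ : (Fin (k + 1) → ℝ) → ℝ≥0∞, Measurable φ →
        Measurable fun s : ℝ => ∫⁻ y : Fin k → ℝ, φ (Fin.cons s y) := by
      intro φ hφ
      exact Measurable.lintegral_prod_right' (hφ.comp measurable_fin_cons_prod)
    refine pl_one (hm f hf) (hm g hg) (hm h hh) ?_
    intro s r
    refine ih (hf.comp (measurable_fin_cons s)) (hg.comp (measurable_fin_cons r))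
      (hh.comp (measurable_fin_cons _)) ?_
    intro x y
    have h1 := hfgh (Fin.cons s x) (Fin.cons r y)
    have h2 : (1 / 2 : ℝ) • ((Fin.cons s x : Fin (k + 1) → ℝ) + Fin.cons r y)
        = Fin.cons ((1 / 2 : ℝ) * (s + r)) ((1 / 2 : ℝ) • (x + y)) := by
      ext i
      refine Fin.cases ?_ (fun j => ?_) i
      · simp [mul_add]
      · simp [mul_add]
    rwa [h2] at h1

/-- If all half differences of points of `C` lie in `D` then `vol C ≤ vol D`. -/
theorem bm_diff_fin {k : ℕ} {C D : Set (Fin k → ℝ)} (hC : MeasurableSet C) (hD : MeasurableSet D)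
    (hCD : ∀ x ∈ C, ∀ y ∈ C, (1 / 2 : ℝ) • (x - y) ∈ D) : volume C ≤ volume D := by
  have hCn : MeasurableSet (-C) := hC.neg
  have h1 := pl_fin k (f := C.indicator 1) (g := (-C).indicator 1) (h := D.indicator 1)
    (measurable_one.indicator hC) (measurable_one.indicator hCn) (measurable_one.indicator hD) (by
      intro x y
      by_cases hx : x ∈ C
      · by_cases hy : y ∈ -C
        · have : (1 / 2 : ℝ) • (x + y) ∈ D := by
            have := hCD x hx (-y) hy
            simpa using this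
          rw [Set.indicator_of_mem hx, Set.indicator_of_mem hy, Set.indicator_of_mem this]
          simp
        · simp [Set.indicator_of_notMem hy]
      · simp [hx])
  rw [lintegral_indicator_one hC, lintegral_indicator_one hCn, lintegral_indicator_one hD,
    Measure.measure_neg, ← sq] at h1
  exact (ENNReal.pow_le_pow_left_iff two_ne_zero).mp h1

end MeyerRatio
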