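import Mathlib
import Pool.Agent.Lib.MP_d5c16a_gt.PL

/-!
Orthonormal frames, slices of convex bodies by hyperplanes orthogonal to a unit vector.
-/

open MeasureTheory Set ENNReal Pointwise

namespace MeyerRatio

/-- Euclidean space of dimension `k`. -/
abbrev E (k : ℕ) := EuclideanSpace ℝ (Fin k)

theorem exists_isometry_of_finrank {V W : Type*} [NormedAddCommGroup V] [InnerProductSpace ℝ V]
    [NormedAddCommGroup W] [InnerProductSpace ℝ W] [FiniteDimensional ℝ V] [FiniteDimensional ℝ W]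
    (h : Module.finrank ℝ V = Module.finrank ℝ W) : Nonempty (V ≃ₗᵢ[ℝ] W) :=
  ⟨((stdOrthonormalBasis ℝ V).reindex (finCongr h)).repr.trans (stdOrthonormalBasis ℝ W).repr.symm⟩

/-- For a unit vector `u` there is a volume preserving linear parametrisation
`(t, y) ↦ t u + (isometric image of y in the orthogonal complement of u)`. -/
theorem exists_frame {k : ℕ} (u : E (k + 1)) (hu : ‖u‖ = 1) :
    ∃ Γ : (ℝ × E k) ≃ₗ[ℝ] E (k + 1), (∀ p, inner ℝ (Γ p) u = p.1) ∧
      (∀ p, ‖Γ p‖ ^ 2 = p.1 ^ 2 + ‖p.2‖ ^ 2) ∧ MeasurePreserving Γ volume volume := by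
  have hfin : Module.finrank ℝ (WithLp 2 (ℝ × E k)) = Module.finrank ℝ (E (k + 1)) := by
    rw [(WithLp.linearEquiv 2 ℝ (ℝ × E k)).finrank_eq]
    simp [add_comm]
  obtain ⟨Φ₀⟩ := exists_isometry_of_finrank hfin
  set e : WithLp 2 (ℝ × E k) := WithLp.toLp 2 ((1 : ℝ), (0 : E k)) with he
  have hnorm : ‖Φ₀ e‖ = ‖u‖ := by
    rw [hu, Φ₀.norm_map, he, WithLp.prod_norm_eq_of_L2]
    simp
  set R := Submodule.reflection (ℝ ∙ (Φ₀ e - u))ᗮ with hR
  have hRu : R (Φ₀ e) = u := Submodule.reflection_sub hnorm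
  set Φ : WithLp 2 (ℝ × E k) ≃ₗᵢ[ℝ] E (k + 1) := Φ₀.trans R with hΦ
  have hΦe : Φ e = u := hRu
  refine ⟨(WithLp.linearEquiv 2 ℝ (ℝ × E k)).symm.trans Φ.toLinearEquiv, ?_, ?_, ?_⟩
  · intro p
    have h1 : ((WithLp.linearEquiv 2 ℝ (ℝ × E k)).symm.trans Φ.toLinearEquiv) p
        = Φ (WithLp.toLp 2 p) := rfl
    rw [h1, ← hΦe, Φ.inner_map_map, WithLp.prod_inner_apply]
    simp [he]
  · intro p
    have h1 : ((WithLp.linearEquiv 2 ℝ (ℝ × E k)).symm.trans Φ.toLinearEquiv) p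
        = Φ (WithLp.toLp 2 p) := rfl
    rw [h1, Φ.norm_map, WithLp.prod_norm_sq_eq_of_L2]
    simp
  · exact Φ.measurePreserving.comp (WithLp.volume_preserving_toLp ℝ (E k))

/-- Isometric product decomposition. -/
theorem exists_prod_frame (a b : ℕ) :
    ∃ Θ : (E a × E b) ≃ₗ[ℝ] E (a + b),
      (∀ p, ‖Θ p‖ ^ 2 = ‖p.1‖ ^ 2 + ‖p.2‖ ^ 2) ∧
      (∀ p q, inner ℝ (Θ p) (Θ q) = inner ℝ p.1 q.1 + inner ℝ p.2 q.2) ∧
      MeasurePreserving Θ volume volume := by
  have hfin : Module.finrank ℝ (WithLp 2 (E a × E b)) = Module.finrank ℝ (E (a + b)) := by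
    rw [(WithLp.linearEquiv 2 ℝ (E a × E b)).finrank_eq]
    simp
  obtain ⟨Φ⟩ := exists_isometry_of_finrank hfin
  refine ⟨(WithLp.linearEquiv 2 ℝ (E a × E b)).symm.trans Φ.toLinearEquiv, ?_, ?_, ?_⟩
  · intro p
    have h1 : ((WithLp.linearEquiv 2 ℝ (E a × E b)).symm.trans Φ.toLinearEquiv) p
        = Φ (WithLp.toLp 2 p) := rfl
    rw [h1, Φ.norm_map, WithLp.prod_norm_sq_eq_of_L2]
    rfl
  · intro p q
    have h1 : ∀ p, ((WithLp.linearEquiv 2 ℝ (E a × E b)).symm.trans Φ.toLinearEquiv) p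
        = Φ (WithLp.toLp 2 p) := fun _ => rfl
    rw [h1, h1, Φ.inner_map_map, WithLp.prod_inner_apply]
  · exact Φ.measurePreserving.comp (WithLp.volume_preserving_toLp (E a) (E b))

/-- If all half differences of points of `C` lie in `D` then `vol C ≤ vol D`. -/
theorem bm_diff {k : ℕ} {C D : Set (E k)} (hC : MeasurableSet C) (hD : MeasurableSet D)
    (hCD : ∀ x ∈ C, ∀ y ∈ C, (1 / 2 : ℝ) • (x - y) ∈ D) : volume C ≤ volume D := by
  have hmp := PiLp.volume_preserving_toLp (Fin k)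
  rw [← hmp.measure_preimage hC.nullMeasurableSet, ← hmp.measure_preimage hD.nullMeasurableSet]
  refine bm_diff_fin (hmp.measurable hC) (hmp.measurable hD) ?_
  intro x hx y hy
  have := hCD _ hx _ hy
  simpa using this

/-- The slice of `S` at height `t` in the frame `Γ`. -/
def slice {k : ℕ} (Γ : (ℝ × E k) ≃ₗ[ℝ] E (k + 1)) (S : Set (E (k + 1))) (t : ℝ) : Set (E k) :=
  {y | Γ (t, y) ∈ S}

theorem measurable_equiv_fun {k : ℕ} (Γ : (ℝ × E k) ≃ₗ[ℝ] E (k + 1)) : Measurable Γ := by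
  have : Continuous Γ := LinearMap.continuous_of_finiteDimensional Γ.toLinearMap
  exact this.measurable

theorem continuous_equiv_fun {k : ℕ} (Γ : (ℝ × E k) ≃ₗ[ℝ] E (k + 1)) : Continuous Γ :=
  LinearMap.continuous_of_finiteDimensional Γ.toLinearMap

theorem measurableSet_slice {k : ℕ} (Γ : (ℝ × E k) ≃ₗ[ℝ] E (k + 1)) {S : Set (E (k + 1))}
    (hS : MeasurableSet S) (t : ℝ) : MeasurableSet (slice Γ S t) := by
  have : Measurable fun y : E k => Γ (t, y) :=
    (measurable_equiv_fun Γ).comp (measurable_const.prodMk measurable_id)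
  exact this hS

theorem volume_eq_lintegral_slice {k : ℕ} {Γ : (ℝ × E k) ≃ₗ[ℝ] E (k + 1)}
    (hΓ : MeasurePreserving Γ volume volume) {S : Set (E (k + 1))} (hS : MeasurableSet S) :
    volume S = ∫⁻ t, volume (slice Γ S t) := by
  rw [← hΓ.measure_preimage hS.nullMeasurableSet, Measure.volume_eq_prod,
    Measure.prod_apply (measurable_equiv_fun Γ hS)]
  rfl

theorem measurable_volume_slice {k : ℕ} (Γ : (ℝ × E k) ≃ₗ[ℝ] E (k + 1)) {S : Set (E (k + 1))}
    (hS : MeasurableSet S) : Measurable fun t => volume (slice Γ S t) :=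
  measurable_measure_prodMk_left (measurable_equiv_fun Γ hS)

/-- Central slices of a symmetric convex set are the largest ones. -/
theorem volume_slice_le {k : ℕ} (Γ : (ℝ × E k) ≃ₗ[ℝ] E (k + 1)) {K : Set (E (k + 1))}
    (hK : MeasurableSet K) (hconv : Convex ℝ K) (hsymm : ∀ x ∈ K, -x ∈ K) (t : ℝ) :
    volume (slice Γ K t) ≤ volume (slice Γ K 0) := by
  refine bm_diff (measurableSet_slice Γ hK t) (measurableSet_slice Γ hK 0) ?_
  intro x hx y hy
  have h1 : Γ (0, (1 / 2 : ℝ) • (x - y)) = (1 / 2 : ℝ) • Γ (t, x) + (1 / 2 : ℝ) • (-Γ (t, y)) := by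
    rw [← map_neg, ← map_smul, ← map_smul, ← map_add]
    congr 1
    ext
    · simp
    · simp; ring
  show Γ (0, (1 / 2 : ℝ) • (x - y)) ∈ K
  rw [h1]
  exact hconv hx (hsymm _ hy) (by norm_num) (by norm_num) (by norm_num)

/-- Slabs have volume at most width times the volume of the central section. -/
theorem volume_slab_le {k : ℕ} {Γ : (ℝ × E k) ≃ₗ[ℝ] E (k + 1)} {u : E (k + 1)}
    (hΓu : ∀ p, inner ℝ (Γ p) u = p.1)
    (hΓ : MeasurePreserving Γ volume volume) {K : Set (E (k + 1))}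
    (hK : MeasurableSet K) (hconv : Convex ℝ K) (hsymm : ∀ x ∈ K, -x ∈ K) (s τ : ℝ) :
    volume (K ∩ {x | |inner ℝ x u - s| ≤ τ}) ≤ ENNReal.ofReal (2 * τ) * volume (slice Γ K 0) := by
  have hm : MeasurableSet {x : E (k + 1) | |inner ℝ x u - s| ≤ τ} := by
    apply IsClosed.measurableSet
    exact isClosed_le (by fun_prop) continuous_const
  rw [volume_eq_lintegral_slice hΓ (hK.inter hm)]
  have hle : ∀ t : ℝ, volume (slice Γ (K ∩ {x | |inner ℝ x u - s| ≤ τ}) t)
      ≤ (Set.Icc (s - τ) (s + τ)).indicator (fun _ => volume (slice Γ K 0)) t := by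
    intro t
    by_cases ht : t ∈ Set.Icc (s - τ) (s + τ)
    · rw [Set.indicator_of_mem ht]
      refine le_trans (measure_mono ?_) (volume_slice_le Γ hK hconv hsymm t)
      intro y hy
      exact hy.1
    · rw [Set.indicator_of_notMem ht]
      have : slice Γ (K ∩ {x | |inner ℝ x u - s| ≤ τ}) t = ∅ := by
        ext y
        simp only [Set.mem_empty_iff_false, iff_false]
        rintro ⟨_, hy⟩
        apply ht
        have h2 : |inner ℝ (Γ (t, y)) u - s| ≤ τ := hy
        rw [hΓu] at h2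
        rw [abs_le] at h2
        exact ⟨by simp at h2; linarith [h2.1], by simp at h2; linarith [h2.2]⟩
      rw [this]; simp
  calc ∫⁻ t, volume (slice Γ (K ∩ {x | |inner ℝ x u - s| ≤ τ}) t)
      ≤ ∫⁻ t, (Set.Icc (s - τ) (s + τ)).indicator (fun _ => volume (slice Γ K 0)) t :=
        lintegral_mono hle
    _ = volume (slice Γ K 0) * volume (Set.Icc (s - τ) (s + τ)) := by
        rw [lintegral_indicator measurableSet_Icc, setLIntegral_const]
    _ = ENNReal.ofReal (2 * τ) * volume (slice Γ K 0) := by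
        rw [Real.volume_Icc, mul_comm]
        congr 2
        ring

/-- If the second moment in direction `u` is at most `σ²` then the central section is large. -/
theorem volume_le_of_second_moment {k : ℕ} {Γ : (ℝ × E k) ≃ₗ[ℝ] E (k + 1)} {u : E (k + 1)}
    (hΓu : ∀ p, inner ℝ (Γ p) u = p.1)
    (hΓ : MeasurePreserving Γ volume volume) {K : Set (E (k + 1))}
    (hK : MeasurableSet K) (hconv : Convex ℝ K) (hsymm : ∀ x ∈ K, -x ∈ K)
    (hfin : volume K ≠ ∞) {σ : ℝ} (hσ : 0 < σ)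
    (hmom : ∫⁻ x in K, ENNReal.ofReal ((inner ℝ x u) ^ 2) ≤ ENNReal.ofReal (σ ^ 2) * volume K) :
    volume K ≤ ENNReal.ofReal (6 * σ) * volume (slice Γ K 0) := by
  -- Chebyshev
  have hcheb : ENNReal.ofReal (4 * σ ^ 2) * volume (K ∩ {x | 2 * σ < |inner ℝ x u|})
      ≤ ENNReal.ofReal (σ ^ 2) * volume K := by
    have hmeas : Measurable fun x : E (k + 1) => ENNReal.ofReal ((inner ℝ x u) ^ 2) := by fun_prop
    have h1 := mul_meas_ge_le_lintegral (μ := volume.restrict K) hmeas (ENNReal.ofReal (4 * σ ^ 2))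
    refine le_trans (mul_le_mul' le_rfl ?_) (h1.trans hmom)
    have hms : MeasurableSet {x : E (k + 1) |
        ENNReal.ofReal (4 * σ ^ 2) ≤ ENNReal.ofReal ((inner ℝ x u) ^ 2)} :=
      measurableSet_le measurable_const hmeas
    rw [Measure.restrict_apply hms, Set.inter_comm K]
    refine measure_mono ?_
    rintro x ⟨hx1, hx2⟩
    refine ⟨?_, hx2⟩
    have hx1' : 2 * σ < |inner ℝ x u| := hx1
    show ENNReal.ofReal (4 * σ ^ 2) ≤ ENNReal.ofReal ((inner ℝ x u) ^ 2)
    apply ENNReal.ofReal_le_ofReal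
    rw [← sq_abs (inner ℝ x u)]
    nlinarith [abs_nonneg (inner ℝ x u)]
  have hslab := volume_slab_le hΓu hΓ hK hconv hsymm 0 (2 * σ)
  have hsplit : volume K ≤ volume (K ∩ {x | 2 * σ < |inner ℝ x u|})
      + volume (K ∩ {x | |inner ℝ x u - 0| ≤ 2 * σ}) := by
    refine le_trans (measure_mono ?_) (measure_union_le _ _)
    intro x hx
    rcases lt_or_ge (2 * σ) |inner ℝ x u| with h | h
    · exact Or.inl ⟨hx, h⟩
    · exact Or.inr ⟨hx, by simpa using h⟩
  set V := volume K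
  set X := volume (K ∩ {x | 2 * σ < |inner ℝ x u|})
  set Y := volume (K ∩ {x | |inner ℝ x u - 0| ≤ 2 * σ})
  have hXfin : X ≠ ∞ := ne_top_of_le_ne_top hfin (measure_mono Set.inter_subset_left)
  have hYfin : Y ≠ ∞ := ne_top_of_le_ne_top hfin (measure_mono Set.inter_subset_left)
  -- real arithmetic
  have h1 : 4 * X.toReal ≤ V.toReal := by
    have := ENNReal.toReal_mono (ENNReal.mul_ne_top ENNReal.ofReal_ne_top hfin) hcheb
    rw [ENNReal.toReal_mul, ENNReal.toReal_mul, ENNReal.toReal_ofReal (by positivity),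
      ENNReal.toReal_ofReal (by positivity)] at this
    have hs : 0 < σ ^ 2 := by positivity
    nlinarith
  have h2 : V.toReal ≤ X.toReal + Y.toReal := by
    have := ENNReal.toReal_mono (ENNReal.add_ne_top.mpr ⟨hXfin, hYfin⟩) hsplit
    rwa [ENNReal.toReal_add hXfin hYfin] at this
  have h3 : V.toReal ≤ 3 / 2 * Y.toReal := by
    have hx0 : 0 ≤ X.toReal := ENNReal.toReal_nonneg
    linarith
  have h4 : V ≤ ENNReal.ofReal (3 / 2) * Y := by
    rw [← ENNReal.ofReal_toReal hfin]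
    nth_rewrite 1 [← ENNReal.ofReal_toReal hYfin]
    rw [← ENNReal.ofReal_mul (by norm_num)]
    exact ENNReal.ofReal_le_ofReal h3
  calc V ≤ ENNReal.ofReal (3 / 2) * Y := h4
    _ ≤ ENNReal.ofReal (3 / 2) * (ENNReal.ofReal (2 * (2 * σ)) * volume (slice Γ K 0)) := by
        gcongr
    _ = ENNReal.ofReal (6 * σ) * volume (slice Γ K 0) := by
        rw [← mul_assoc, ← ENNReal.ofReal_mul (by norm_num)]
        congr 2
        ring

end MeyerRatio
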