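import Mathlib
import Pool.Agent.Lib.MP_d5c16a_gt.Frame

/-!
Elementary bounds for volumes of Euclidean balls.
-/

open MeasureTheory Set ENNReal Pointwise

namespace MeyerRatio

theorem volume_closedBall_le (k : ℕ) {n : ℝ} (hn : 0 ≤ n) {R : ℝ} (hR : 0 < R) :
    volume (Metric.closedBall (0 : E k) (R * √n))
      ≤ ENNReal.ofReal (Real.exp n * (√Real.pi * R) ^ k) := by
  set b : ℝ := 1 / R ^ 2 with hb_def
  have hb : 0 < b := by positivity
  have hint := GaussianFourier.integral_rexp_neg_mul_sq_norm (V := E k) hb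
  have hval : (Real.pi / b) ^ ((Module.finrank ℝ (E k) : ℝ) / 2) = (√Real.pi * R) ^ k := by
    have h1 : Real.pi / b = (√Real.pi * R) ^ 2 := by
      rw [mul_pow, Real.sq_sqrt Real.pi_pos.le, hb_def]
      field_simp
    have h2 : (0:ℝ) ≤ √Real.pi * R := by positivity
    rw [h1, ← Real.rpow_natCast, ← Real.rpow_mul h2, ← Real.rpow_natCast]
    congr 1
    simp
    ring
  rw [hval] at hint
  have hpos : 0 < (√Real.pi * R) ^ k := by positivity
  have hinteg : Integrable fun v : E k => Real.exp (-b * ‖v‖ ^ 2) := by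
    by_contra h
    rw [integral_undef h] at hint
    exact hpos.ne hint
  have hl : ∫⁻ v : E k, ENNReal.ofReal (Real.exp (-b * ‖v‖ ^ 2))
      = ENNReal.ofReal ((√Real.pi * R) ^ k) := by
    rw [← ofReal_integral_eq_lintegral_ofReal hinteg
      (Filter.Eventually.of_forall fun v => (Real.exp_pos _).le), hint]
  have hmeas : Measurable fun v : E k => ENNReal.ofReal (Real.exp (-b * ‖v‖ ^ 2)) := by fun_prop
  have hmark := mul_meas_ge_le_lintegral (μ := (volume : Measure (E k))) hmeas
    (ENNReal.ofReal (Real.exp (-n)))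
  rw [hl] at hmark
  have hsub : Metric.closedBall (0 : E k) (R * √n)
      ⊆ {v | ENNReal.ofReal (Real.exp (-n)) ≤ ENNReal.ofReal (Real.exp (-b * ‖v‖ ^ 2))} := by
    intro v hv
    rw [mem_closedBall_zero_iff] at hv
    apply ENNReal.ofReal_le_ofReal
    apply Real.exp_le_exp.mpr
    have h1 : ‖v‖ ^ 2 ≤ (R * √n) ^ 2 := pow_le_pow_left₀ (norm_nonneg _) hv 2
    rw [mul_pow, Real.sq_sqrt hn] at h1
    have h2 : b * ‖v‖ ^ 2 ≤ b * (R ^ 2 * n) := by gcongr
    have h3 : b * (R ^ 2 * n) = n := by rw [hb_def]; field_simp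
    linarith
  have h4 : ENNReal.ofReal (Real.exp (-n)) * volume (Metric.closedBall (0 : E k) (R * √n))
      ≤ ENNReal.ofReal ((√Real.pi * R) ^ k) :=
    le_trans (mul_le_mul' le_rfl (measure_mono hsub)) hmark
  calc volume (Metric.closedBall (0 : E k) (R * √n))
      = ENNReal.ofReal (Real.exp n) * (ENNReal.ofReal (Real.exp (-n))
          * volume (Metric.closedBall (0 : E k) (R * √n))) := by
        rw [← mul_assoc, ← ENNReal.ofReal_mul (Real.exp_pos _).le, ← Real.exp_add]
        simp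
    _ ≤ ENNReal.ofReal (Real.exp n) * ENNReal.ofReal ((√Real.pi * R) ^ k) := by gcongr
    _ = _ := by rw [← ENNReal.ofReal_mul (Real.exp_pos _).le]

theorem one_le_volume_closedBall {k : ℕ} {n : ℝ} (hkn : (k : ℝ) ≤ n) :
    1 ≤ volume (Metric.closedBall (0 : E k) (√n)) := by
  have hmp := PiLp.volume_preserving_toLp (Fin k)
  rw [← hmp.measure_preimage Metric.isClosed_closedBall.measurableSet.nullMeasurableSet]
  have hcube : volume (Set.Icc (0 : Fin k → ℝ) 1) = 1 := by
    rw [Real.volume_Icc_pi]; simp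
  rw [← hcube]
  refine measure_mono ?_
  intro x hx
  rw [Set.mem_preimage, mem_closedBall_zero_iff, EuclideanSpace.norm_eq]
  apply Real.sqrt_le_sqrt
  calc ∑ i, ‖(WithLp.toLp 2 x : E k) i‖ ^ 2 ≤ ∑ _i : Fin k, (1 : ℝ) := by
        refine Finset.sum_le_sum fun i _ => ?_
        have h1 := hx.1 i
        have h2 := hx.2 i
        simp only [Pi.zero_apply, Pi.one_apply] at h1 h2
        simp only [Real.norm_eq_abs, sq_abs]
        nlinarith
    _ = k := by simp
    _ ≤ n := hkn

end MeyerRatio
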