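import Mathlib
import Pool.Agent.Lib.MP_d5c16a_gt.Ball

/-!
The polytopes `{x : |L x j| ≤ √n e^{-s_j}}` attached to a linear map `L : ℝ^k → ℝ^N`.
-/

open MeasureTheory Set ENNReal Pointwise

namespace MeyerRatio

/-- The polytope attached to `L` and the exponents `s`. -/
def body {k N : ℕ} (n : ℝ) (L : E k →ₗ[ℝ] (Fin N → ℝ)) (s : Fin N → ℝ) : Set (E k) :=
  {x | ∀ j, |L x j| ≤ √n * Real.exp (-s j)}

theorem continuous_lin {k N : ℕ} (L : E k →ₗ[ℝ] (Fin N → ℝ)) (j : Fin N) :
    Continuous fun x => L x j :=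
  (continuous_apply j).comp (LinearMap.continuous_of_finiteDimensional L)

theorem isClosed_body {k N : ℕ} (n : ℝ) (L : E k →ₗ[ℝ] (Fin N → ℝ)) (s : Fin N → ℝ) :
    IsClosed (body n L s) := by
  have : body n L s = ⋂ j, {x | |L x j| ≤ √n * Real.exp (-s j)} := by
    ext x; simp [body]
  rw [this]
  exact isClosed_iInter fun j => isClosed_le (continuous_lin L j).abs continuous_const

theorem convex_body {k N : ℕ} (n : ℝ) (L : E k →ₗ[ℝ] (Fin N → ℝ)) (s : Fin N → ℝ) :
    Convex ℝ (body n L s) := by
  intro x hx y hy a b ha hb hab j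
  have h1 := hx j
  have h2 := hy j
  rw [map_add, map_smul, map_smul, Pi.add_apply, Pi.smul_apply, Pi.smul_apply, smul_eq_mul,
    smul_eq_mul]
  set c := √n * Real.exp (-s j)
  calc |a * L x j + b * L y j| ≤ |a * L x j| + |b * L y j| := abs_add_le _ _
    _ = a * |L x j| + b * |L y j| := by rw [abs_mul, abs_mul, abs_of_nonneg ha, abs_of_nonneg hb]
    _ ≤ a * c + b * c := by gcongr
    _ = c := by rw [← add_mul, hab, one_mul]

theorem symm_body {k N : ℕ} (n : ℝ) (L : E k →ₗ[ℝ] (Fin N → ℝ)) (s : Fin N → ℝ) :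
    ∀ x ∈ body n L s, -x ∈ body n L s := by
  intro x hx j
  have := hx j
  simpa using this

theorem measurableSet_body {k N : ℕ} (n : ℝ) (L : E k →ₗ[ℝ] (Fin N → ℝ)) (s : Fin N → ℝ) :
    MeasurableSet (body n L s) := (isClosed_body n L s).measurableSet

theorem volume_unit_cube {N : ℕ} (a : Fin N → ℝ) :
    volume {z : E N | ∀ j, |a j - z j| ≤ 1 / 2} = 1 := by
  have hmp := PiLp.volume_preserving_toLp (Fin N)
  have hcl : IsClosed {z : E N | ∀ j, |a j - z j| ≤ 1 / 2} := by
    have : {z : E N | ∀ j, |a j - z j| ≤ 1 / 2} = ⋂ j, {z : E N | |a j - z j| ≤ 1 / 2} := by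
      ext z; simp
    rw [this]
    exact isClosed_iInter fun j => isClosed_le (by fun_prop) continuous_const
  rw [← hmp.measure_preimage hcl.measurableSet.nullMeasurableSet]
  have : (WithLp.toLp 2 ⁻¹' {z : E N | ∀ j, |a j - z j| ≤ 1 / 2} : Set (Fin N → ℝ))
      = Set.Icc (fun j => a j - 1 / 2) (fun j => a j + 1 / 2) := by
    ext x
    simp only [Set.mem_preimage, Set.mem_ofPred_eq, Set.mem_Icc, Pi.le_def, abs_le]
    constructor
    · intro h
      exact ⟨fun j => by linarith [(h j).2], fun j => by linarith [(h j).1]⟩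
    · rintro ⟨h1, h2⟩ j
      exact ⟨by linarith [h2 j], by linarith [h1 j]⟩
  rw [this, Real.volume_Icc_pi]
  have h3 : ∀ j, a j + 1 / 2 - (a j - 1 / 2) = 1 := fun j => by ring
  simp only [h3, ENNReal.ofReal_one, Finset.prod_const_one]

/-- Pigeonhole lower bound for the volume of the polytope. -/
theorem one_le_volume_body_mul {k N : ℕ} {n : ℝ} (hn : 0 < n) (hkn : (k : ℝ) ≤ n) {C₀ R : ℝ}
    (hC₀ : 0 ≤ C₀) (hR : √C₀ + 1 / 2 ≤ R)
    (L : E k →ₗ[ℝ] (Fin N → ℝ)) (hL : ∀ x, ∑ j, (L x j) ^ 2 ≤ C₀ * N * ‖x‖ ^ 2) :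
    1 ≤ volume (body n L 0) * volume (Metric.closedBall (0 : E N) (R * √N)) := by
  set D := Metric.closedBall (0 : E k) (√n) with hD
  set Q : Set (E k × E N) := {p | p.1 ∈ D ∧ ∀ j, |L p.1 j / √n - p.2 j| ≤ 1 / 2} with hQ
  have hsn : 0 < √n := Real.sqrt_pos.mpr hn
  have hQc : IsClosed Q := by
    have : Q = (Prod.fst ⁻¹' D) ∩ ⋂ j, {p : E k × E N | |L p.1 j / √n - p.2 j| ≤ 1 / 2} := by
      ext p; simp [hQ]
    rw [this]
    refine (Metric.isClosed_closedBall.preimage continuous_fst).inter (isClosed_iInter fun j => ?_)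
    refine isClosed_le ?_ continuous_const
    have h1 : Continuous fun p : E k × E N => L p.1 j := (continuous_lin L j).comp continuous_fst
    have h2 : Continuous fun p : E k × E N => p.2 j :=
      (show Continuous fun z : E N => z j by fun_prop).comp continuous_snd
    exact ((h1.div_const _).sub h2).abs
  have hQm := hQc.measurableSet
  have h1 : (volume.prod volume : Measure (E k × E N)) Q = volume D := by
    rw [Measure.prod_apply hQm]
    have : ∀ x : E k, volume (Prod.mk x ⁻¹' Q) = D.indicator (fun _ => (1 : ℝ≥0∞)) x := by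
      intro x
      by_cases hx : x ∈ D
      · rw [Set.indicator_of_mem hx]
        have : Prod.mk x ⁻¹' Q = {z : E N | ∀ j, |(fun j => L x j / √n) j - z j| ≤ 1 / 2} := by
          ext z
          simp only [hQ, Set.mem_preimage, Set.mem_ofPred_eq]
          exact ⟨fun h => h.2, fun h => ⟨hx, h⟩⟩
        rw [this, volume_unit_cube]
      · rw [Set.indicator_of_notMem hx]
        have : Prod.mk x ⁻¹' Q = ∅ := by
          ext z
          simp only [hQ, Set.mem_preimage, Set.mem_ofPred_eq, Set.mem_empty_iff_false, iff_false]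
          exact fun h => hx h.1
        rw [this]; simp
    simp_rw [this]
    rw [lintegral_indicator Metric.isClosed_closedBall.measurableSet, setLIntegral_one]
  have h2 : (volume.prod volume : Measure (E k × E N)) Q
      ≤ volume (body n L 0) * volume (Metric.closedBall (0 : E N) (R * √N)) := by
    rw [Measure.prod_apply_symm hQm]
    have : ∀ z : E N, volume ((fun x => (x, z)) ⁻¹' Q)
        ≤ (Metric.closedBall (0 : E N) (R * √N)).indicator (fun _ => volume (body n L 0)) z := by
      intro z
      rcases Set.eq_empty_or_nonempty ((fun x => (x, z)) ⁻¹' Q) with he | ⟨x₀, hx₀⟩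
      · rw [he]; simp
      · have hx₀D : x₀ ∈ D := hx₀.1
        have hx₀z : ∀ j, |L x₀ j / √n - z j| ≤ 1 / 2 := hx₀.2
        have hz : z ∈ Metric.closedBall (0 : E N) (R * √N) := by
          rw [mem_closedBall_zero_iff]
          set w : E N := WithLp.toLp 2 (fun j => L x₀ j / √n) with hw
          have hwn : ‖w‖ ≤ √C₀ * √N := by
            rw [EuclideanSpace.norm_eq, ← Real.sqrt_mul hC₀]
            apply Real.sqrt_le_sqrt
            have e1 : ∑ i, ‖w i‖ ^ 2 = (∑ j, (L x₀ j) ^ 2) / n := by
              rw [Finset.sum_div]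
              refine Finset.sum_congr rfl fun j _ => ?_
              simp only [hw, Real.norm_eq_abs, sq_abs, div_pow, Real.sq_sqrt hn.le]
            rw [e1, div_le_iff₀ hn]
            refine (hL x₀).trans ?_
            have e2 : ‖x₀‖ ≤ √n := by simpa [hD] using hx₀D
            have e3 : ‖x₀‖ ^ 2 ≤ n := by
              calc ‖x₀‖ ^ 2 ≤ (√n) ^ 2 := pow_le_pow_left₀ (norm_nonneg _) e2 2
                _ = n := Real.sq_sqrt hn.le
            gcongr
          have hzw : ‖z - w‖ ≤ 1 / 2 * √N := by
            rw [EuclideanSpace.norm_eq]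
            have e4 : (1 / 2 : ℝ) * √N = √((1 / 4) * N) := by
              rw [Real.sqrt_mul (by norm_num)]
              congr 1
              rw [show (1 / 4 : ℝ) = (1 / 2) ^ 2 by norm_num, Real.sqrt_sq (by norm_num)]
            rw [e4]
            apply Real.sqrt_le_sqrt
            calc ∑ i, ‖(z - w) i‖ ^ 2 ≤ ∑ _i : Fin N, (1 / 4 : ℝ) := by
                  refine Finset.sum_le_sum fun i _ => ?_
                  have := hx₀z i
                  simp only [hw, PiLp.sub_apply, Real.norm_eq_abs, sq_abs]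
                  rw [abs_le] at this
                  nlinarith
              _ = (1 / 4) * N := by simp [mul_comm]
          calc ‖z‖ = ‖w + (z - w)‖ := by congr 1; abel
            _ ≤ ‖w‖ + ‖z - w‖ := norm_add_le _ _
            _ ≤ √C₀ * √N + 1 / 2 * √N := add_le_add hwn hzw
            _ = (√C₀ + 1 / 2) * √N := by ring
            _ ≤ R * √N := by gcongr
        rw [Set.indicator_of_mem hz]
        have hsub : (fun x => (x, z)) ⁻¹' Q ⊆ (fun x => x - x₀) ⁻¹' body n L 0 := by
          intro x hx j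
          have e1 : |L x j / √n - z j| ≤ 1 / 2 := hx.2 j
          have e2 := hx₀z j
          have e3 : |L x j / √n - L x₀ j / √n| ≤ 1 := by
            rw [abs_le] at e1 e2 ⊢
            constructor <;> linarith [e1.1, e1.2, e2.1, e2.2]
          rw [← sub_div, abs_div, abs_of_pos hsn, div_le_iff₀ hsn, one_mul] at e3
          simpa using e3
        calc volume ((fun x => (x, z)) ⁻¹' Q)
            ≤ volume ((fun x => x - x₀) ⁻¹' body n L 0) := measure_mono hsub
          _ = volume (body n L 0) := by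
              simp_rw [sub_eq_add_neg]
              exact measure_preimage_add_right _ _ _
    refine (lintegral_mono this).trans ?_
    rw [lintegral_indicator Metric.isClosed_closedBall.measurableSet]
    simp
  calc (1 : ℝ≥0∞) ≤ volume D := one_le_volume_closedBall hkn
    _ = _ := h1.symm
    _ ≤ _ := h2

end MeyerRatio
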