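import Mathlib
import Pool.Agent.Lib.MP_d5c16a_gt.Frame

/-!
The projection-to-section ratio of a symmetric convex body, and its expression in frames.
-/

open MeasureTheory Set ENNReal

namespace MeyerRatio

/-- Origin-symmetric convex bodies. -/
structure IsSymmBody {n : ℕ} (K : Set (E n)) : Prop where
  isCompact : IsCompact K
  convex : Convex ℝ K
  nonempty_interior : (interior K).Nonempty
  symm : ∀ x ∈ K, -x ∈ K

/-- The linear projection onto the hyperplane orthogonal to `u` along the direction `v`. -/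
noncomputable def proj {n : ℕ} (u v x : E n) : E n := x - (inner ℝ x u / inner ℝ v u) • v

/-- The `(n - 1)`-dimensional Lebesgue measure of the part of `A` in the hyperplane orthogonal to
`u`. -/
noncomputable def hypVol {n : ℕ} (u : E n) (A : Set (E n)) : ℝ≥0∞ :=
  (stdOrthonormalBasis ℝ ((ℝ ∙ u)ᗮ : Submodule ℝ (E n))).toBasis.addHaar
    ((fun z : ((ℝ ∙ u)ᗮ : Submodule ℝ (E n)) => (z : E n)) ⁻¹' A)

theorem hypVol_eq {n : ℕ} (u : E n) (A : Set (E n)) :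
    hypVol u A = (volume : Measure ((ℝ ∙ u)ᗮ : Submodule ℝ (E n)))
      ((fun z : ((ℝ ∙ u)ᗮ : Submodule ℝ (E n)) => (z : E n)) ⁻¹' A) := rfl

theorem finrank_orthogonal {k : ℕ} {u : E (k + 1)} (hu : u ≠ 0) :
    Module.finrank ℝ ((ℝ ∙ u)ᗮ : Submodule ℝ (E (k + 1))) = k := by
  have : Fact (Module.finrank ℝ (E (k + 1)) = k + 1) := ⟨finrank_euclideanSpace_fin⟩
  exact Submodule.finrank_orthogonal_span_singleton hu

theorem mem_orthogonal_iff {n : ℕ} {u x : E n} :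
    x ∈ ((ℝ ∙ u)ᗮ : Submodule ℝ (E n)) ↔ inner ℝ x u = 0 := by
  rw [Submodule.mem_orthogonal_singleton_iff_inner_left]

/-- The restriction of a frame to the hyperplane, as an isometry. -/
theorem exists_isometry_of_frame {k : ℕ} {u : E (k + 1)} (hu : u ≠ 0)
    {Γ : (ℝ × E k) ≃ₗ[ℝ] E (k + 1)} (hΓu : ∀ p, inner ℝ (Γ p) u = p.1)
    (hΓn : ∀ p, ‖Γ p‖ ^ 2 = p.1 ^ 2 + ‖p.2‖ ^ 2) :
    ∃ ψ : E k ≃ₗᵢ[ℝ] ((ℝ ∙ u)ᗮ : Submodule ℝ (E (k + 1))), ∀ y, (ψ y : E (k + 1)) = Γ (0, y) := by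
  let f : E k →ₗ[ℝ] ((ℝ ∙ u)ᗮ : Submodule ℝ (E (k + 1))) :=
    LinearMap.codRestrict _ (Γ.toLinearMap ∘ₗ LinearMap.inr ℝ ℝ (E k)) (fun y => by
      rw [mem_orthogonal_iff]
      exact hΓu (0, y))
  have hf : ∀ y, (f y : E (k + 1)) = Γ (0, y) := fun y => rfl
  let g : E k →ₗᵢ[ℝ] ((ℝ ∙ u)ᗮ : Submodule ℝ (E (k + 1))) :=
    ⟨f, fun y => by
      have h1 : ‖f y‖ = ‖Γ (0, y)‖ := by rw [← hf]; rfl
      rw [h1]
      have h2 := hΓn (0, y)
      simp only [ne_eq, OfNat.ofNat_ne_zero, not_false_eq_true, zero_pow, zero_add] at h2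
      exact (sq_eq_sq₀ (norm_nonneg _) (norm_nonneg _)).mp h2⟩
  refine ⟨g.toLinearIsometryEquiv ?_, fun y => ?_⟩
  · rw [finrank_orthogonal hu, finrank_euclideanSpace_fin]
  · rw [LinearIsometry.coe_toLinearIsometryEquiv]
    exact hf y

theorem hypVol_eq_slice {k : ℕ} {u : E (k + 1)} (hu : u ≠ 0)
    {Γ : (ℝ × E k) ≃ₗ[ℝ] E (k + 1)} (hΓu : ∀ p, inner ℝ (Γ p) u = p.1)
    (hΓn : ∀ p, ‖Γ p‖ ^ 2 = p.1 ^ 2 + ‖p.2‖ ^ 2) (A : Set (E (k + 1))) :
    hypVol u A = volume (slice Γ A 0) := by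
  obtain ⟨ψ, hψ⟩ := exists_isometry_of_frame hu hΓu hΓn
  rw [hypVol_eq, ← ψ.measurePreserving.measure_preimage_equiv (f := ψ.toMeasurableEquiv)]
  congr 1
  ext y
  show (ψ y : E (k + 1)) ∈ A ↔ Γ (0, y) ∈ A
  rw [hψ]

theorem mem_proj_image_iff {n : ℕ} {u v z : E n} (huv : inner ℝ u v ≠ 0) (hz : inner ℝ z u = 0)
    {K : Set (E n)} : z ∈ proj u v '' K ↔ ∃ t : ℝ, z + t • v ∈ K := by
  have hvu : inner ℝ v u ≠ 0 := by rwa [real_inner_comm]
  constructor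
  · rintro ⟨x, hx, rfl⟩
    refine ⟨inner ℝ x u / inner ℝ v u, ?_⟩
    unfold proj
    rw [sub_add_cancel]
    exact hx
  · rintro ⟨t, ht⟩
    refine ⟨_, ht, ?_⟩
    unfold proj
    rw [inner_add_left, hz, real_inner_smul_left, zero_add, mul_div_assoc, div_self hvu, mul_one,
      add_sub_cancel_right]

end MeyerRatio
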