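import Mathlib
import Pool.Agent.Lib.MP_d5c16a_gt.Body

/-!
The potential `F k` and near maximisers.
-/

open MeasureTheory Set ENNReal Pointwise

namespace MeyerRatio

/-- The two properties of a linear map `L : ℝ^k → ℝ^N` that are used: every vector has few small
coordinates, and the Euclidean operator norm is at most `√(C₀ N)`. -/
def IsGood (c₀ C₀ : ℝ) {k N : ℕ} (L : E k →ₗ[ℝ] (Fin N → ℝ)) : Prop :=
  (∀ x, 4 * (Finset.univ.filter fun j => |L x j| < c₀ * ‖x‖).card ≤ N) ∧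
    (∀ x, ∑ j, (L x j) ^ 2 ≤ C₀ * N * ‖x‖ ^ 2)

theorem IsGood.exists_large {c₀ C₀ : ℝ} {k N : ℕ} {L : E k →ₗ[ℝ] (Fin N → ℝ)}
    (hL : IsGood c₀ C₀ L) {T : Finset (Fin N)} (hT : N < 4 * T.card) (x : E k) :
    ∃ j ∈ T, c₀ * ‖x‖ ≤ |L x j| := by
  by_contra h
  push Not at h
  have hsub : T ⊆ Finset.univ.filter fun j => |L x j| < c₀ * ‖x‖ := by
    intro j hj
    exact Finset.mem_filter.mpr ⟨Finset.mem_univ _, h j hj⟩
  have := Finset.card_le_card hsub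
  have h2 := hL.1 x
  omega

theorem IsGood.body_subset {c₀ C₀ : ℝ} (hc₀ : 0 < c₀) {k N : ℕ} {L : E k →ₗ[ℝ] (Fin N → ℝ)}
    (hL : IsGood c₀ C₀ L) {T : Finset (Fin N)} (hT : N < 4 * T.card) {n τ : ℝ}
    {s : Fin N → ℝ} (hs : ∀ j ∈ T, τ ≤ s j) :
    body n L s ⊆ Metric.closedBall (0 : E k) ((Real.exp (-τ) / c₀) * √n) := by
  intro x hx
  obtain ⟨j, hj, hjx⟩ := hL.exists_large hT x
  rw [mem_closedBall_zero_iff]
  have h1 : c₀ * ‖x‖ ≤ √n * Real.exp (-τ) := by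
    refine hjx.trans ((hx j).trans ?_)
    have := hs j hj
    gcongr
  calc ‖x‖ = (c₀ * ‖x‖) / c₀ := by field_simp
    _ ≤ (√n * Real.exp (-τ)) / c₀ := by gcongr
    _ = _ := by ring

theorem IsGood.volume_body_le {c₀ C₀ : ℝ} (hc₀ : 0 < c₀) {k N : ℕ} {L : E k →ₗ[ℝ] (Fin N → ℝ)}
    (hL : IsGood c₀ C₀ L) {T : Finset (Fin N)} (hT : N < 4 * T.card) {n τ : ℝ} (hn : 0 ≤ n)
    {s : Fin N → ℝ} (hs : ∀ j ∈ T, τ ≤ s j) :
    volume (body n L s) ≤ ENNReal.ofReal (Real.exp n * (√Real.pi * (Real.exp (-τ) / c₀)) ^ k) :=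
  (measure_mono (hL.body_subset hc₀ hT hs)).trans
    (volume_closedBall_le k hn (by positivity))

/-- Restriction of `L` to a hyperplane, through a frame. -/
def restr {k N : ℕ} (Γ : (ℝ × E k) ≃ₗ[ℝ] E (k + 1)) (L : E (k + 1) →ₗ[ℝ] (Fin N → ℝ)) :
    E k →ₗ[ℝ] (Fin N → ℝ) :=
  L ∘ₗ Γ.toLinearMap ∘ₗ LinearMap.inr ℝ ℝ (E k)

theorem restr_apply {k N : ℕ} (Γ : (ℝ × E k) ≃ₗ[ℝ] E (k + 1)) (L : E (k + 1) →ₗ[ℝ] (Fin N → ℝ))
    (y : E k) : restr Γ L y = L (Γ (0, y)) := rfl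

theorem slice_body {k N : ℕ} (Γ : (ℝ × E k) ≃ₗ[ℝ] E (k + 1)) (n : ℝ)
    (L : E (k + 1) →ₗ[ℝ] (Fin N → ℝ)) (s : Fin N → ℝ) :
    slice Γ (body n L s) 0 = body n (restr Γ L) s := rfl

theorem IsGood.restr {c₀ C₀ : ℝ} {k N : ℕ} {L : E (k + 1) →ₗ[ℝ] (Fin N → ℝ)}
    (hL : IsGood c₀ C₀ L) {Γ : (ℝ × E k) ≃ₗ[ℝ] E (k + 1)}
    (hΓ : ∀ p, ‖Γ p‖ ^ 2 = p.1 ^ 2 + ‖p.2‖ ^ 2) : IsGood c₀ C₀ (restr Γ L) := by
  have hnorm : ∀ y : E k, ‖Γ (0, y)‖ = ‖y‖ := by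
    intro y
    have h := hΓ (0, y)
    simp only [ne_eq, OfNat.ofNat_ne_zero, not_false_eq_true, zero_pow, zero_add] at h
    exact (sq_eq_sq₀ (norm_nonneg _) (norm_nonneg _)).mp h
  refine ⟨fun y => ?_, fun y => ?_⟩
  · have := hL.1 (Γ (0, y))
    rw [hnorm] at this
    exact this
  · have := hL.2 (Γ (0, y))
    rw [hnorm] at this
    exact this

/-- The potential of a pair `(L, s)`. -/
noncomputable def phi {k : ℕ} (n : ℕ) (L : E k →ₗ[ℝ] (Fin (16 * n) → ℝ))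
    (s : Fin (16 * n) → ℝ) : ℝ≥0∞ :=
  volume (body n L s) * ENNReal.ofReal (Real.exp ((1 / 128) * ∑ j, s j))

/-- The supremum of the potentials in dimension `k`. -/
noncomputable def F (c₀ C₀ S : ℝ) (n k : ℕ) : ℝ≥0∞ :=
  ⨆ (L : E k →ₗ[ℝ] (Fin (16 * n) → ℝ)) (_ : IsGood c₀ C₀ L) (s : Fin (16 * n) → ℝ)
    (_ : ∀ j, 0 ≤ s j ∧ s j ≤ S), phi n L s

theorem phi_le_F {c₀ C₀ S : ℝ} {n k : ℕ} {L : E k →ₗ[ℝ] (Fin (16 * n) → ℝ)}
    (hL : IsGood c₀ C₀ L) {s : Fin (16 * n) → ℝ} (hs : ∀ j, 0 ≤ s j ∧ s j ≤ S) :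
    phi n L s ≤ F c₀ C₀ S n k :=
  le_iSup_of_le L (le_iSup_of_le hL (le_iSup_of_le s (le_iSup_of_le hs le_rfl)))

theorem sum_le_of_le {n : ℕ} {s : Fin (16 * n) → ℝ} {S : ℝ} (hs : ∀ j, 0 ≤ s j ∧ s j ≤ S) :
    (1 / 128 : ℝ) * ∑ j, s j ≤ n * S / 8 := by
  have : ∑ j, s j ≤ ∑ _j : Fin (16 * n), S := Finset.sum_le_sum fun j _ => (hs j).2
  simp only [Finset.sum_const, Finset.card_univ, Fintype.card_fin, nsmul_eq_mul] at this
  push_cast at this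
  linarith

theorem F_le {c₀ C₀ S : ℝ} (hc₀ : 0 < c₀) {n : ℕ} (hn : 0 < n) (k : ℕ) :
    F c₀ C₀ S n k ≤ ENNReal.ofReal (Real.exp n * (√Real.pi / c₀) ^ k * Real.exp (n * S / 8)) := by
  refine iSup_le fun L => iSup_le fun hL => iSup_le fun s => iSup_le fun hs => ?_
  have hT : 16 * n < 4 * (Finset.univ : Finset (Fin (16 * n))).card := by
    rw [Finset.card_univ, Fintype.card_fin]; omega
  have h1 := hL.volume_body_le hc₀ hT (n := n) (τ := 0) (by positivity) (s := s)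
    (fun j _ => (hs j).1)
  unfold phi
  rw [ENNReal.ofReal_mul (by positivity)]
  gcongr
  · simpa [div_eq_mul_inv] using h1
  · exact sum_le_of_le hs

theorem F_ne_top {c₀ C₀ S : ℝ} (hc₀ : 0 < c₀) {n : ℕ} (hn : 0 < n) (k : ℕ) :
    F c₀ C₀ S n k ≠ ∞ :=
  ne_top_of_le_ne_top ENNReal.ofReal_ne_top (F_le hc₀ hn k)

/-- The constant in the lower bound for the volume of `body n L 0`. -/
noncomputable def lowC (R : ℝ) (n : ℕ) : ℝ := Real.exp (16 * n : ℕ) * (√Real.pi * R) ^ (16 * n)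

theorem lowC_pos {R : ℝ} (hR : 0 < R) (n : ℕ) : 0 < lowC R n := by
  unfold lowC; positivity

theorem one_le_F_mul {c₀ C₀ S R : ℝ} (hS : 0 ≤ S) (hC₀ : 0 ≤ C₀) (hR : √C₀ + 1 / 2 ≤ R) {n k : ℕ}
    (hn : 0 < n) (hkn : k ≤ n) {L : E k →ₗ[ℝ] (Fin (16 * n) → ℝ)} (hL : IsGood c₀ C₀ L) :
    1 ≤ F c₀ C₀ S n k * ENNReal.ofReal (lowC R n) := by
  have hR0 : 0 < R := lt_of_lt_of_le (by positivity) hR
  have h1 := one_le_volume_body_mul (n := n) (by positivity) (by exact_mod_cast hkn) hC₀ hR L hL.2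
  have h2 := volume_closedBall_le (16 * n) (n := ((16 * n : ℕ) : ℝ)) (by positivity) hR0
  refine h1.trans ?_
  have h3 : volume (body n L 0) ≤ F c₀ C₀ S n k := by
    have := phi_le_F (S := S) (s := 0) hL (fun j => ⟨le_rfl, hS⟩)
    simpa [phi] using this
  exact mul_le_mul' h3 h2

theorem F_ne_zero {c₀ C₀ S R : ℝ} (hS : 0 ≤ S) (hC₀ : 0 ≤ C₀) (hR : √C₀ + 1 / 2 ≤ R) {n k : ℕ}
    (hn : 0 < n) (hkn : k ≤ n) {L : E k →ₗ[ℝ] (Fin (16 * n) → ℝ)} (hL : IsGood c₀ C₀ L) :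
    F c₀ C₀ S n k ≠ 0 := by
  intro h
  have := one_le_F_mul (S := S) hS hC₀ hR hn hkn hL
  rw [h, zero_mul] at this
  exact absurd this (by simp)

/-- Central hyperplane sections are controlled by the potential in the smaller dimension. -/
theorem slice_phi_le {c₀ C₀ S : ℝ} {n k : ℕ} {L : E (k + 1) →ₗ[ℝ] (Fin (16 * n) → ℝ)}
    (hL : IsGood c₀ C₀ L) {s : Fin (16 * n) → ℝ} (hs : ∀ j, 0 ≤ s j ∧ s j ≤ S)
    {Γ : (ℝ × E k) ≃ₗ[ℝ] E (k + 1)} (hΓ : ∀ p, ‖Γ p‖ ^ 2 = p.1 ^ 2 + ‖p.2‖ ^ 2) :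
    volume (slice Γ (body n L s) 0) * ENNReal.ofReal (Real.exp ((1 / 128) * ∑ j, s j))
      ≤ F c₀ C₀ S n k := by
  rw [slice_body]
  exact phi_le_F (hL.restr hΓ) hs

/-- The potential does not drop too much when passing to hyperplanes. -/
theorem F_succ_le {c₀ C₀ S : ℝ} (hc₀ : 0 < c₀) {n k : ℕ} (hn : 0 < n)
    (hk : n ≤ 4 * (k + 1)) :
    F c₀ C₀ S n (k + 1) ≤ ENNReal.ofReal (12 / c₀) * F c₀ C₀ S n k := by
  refine iSup_le fun L => iSup_le fun hL => iSup_le fun s => iSup_le fun hs => ?_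
  set K := body n L s with hK
  have hT : 16 * n < 4 * (Finset.univ : Finset (Fin (16 * n))).card := by
    rw [Finset.card_univ, Fintype.card_fin]; omega
  have hfin : volume K ≠ ∞ := by
    have h1 := hL.volume_body_le hc₀ hT (n := n) (τ := 0) (by positivity) (s := s)
      (fun j _ => (hs j).1)
    exact ne_top_of_le_ne_top ENNReal.ofReal_ne_top h1
  have hball : K ⊆ Metric.closedBall (0 : E (k + 1)) ((1 / c₀) * √n) := by
    have := hL.body_subset hc₀ hT (n := n) (τ := 0) (s := s) (fun j _ => (hs j).1)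
    simpa using this
  -- some coordinate direction has small second moment
  have hsum : ∑ i : Fin (k + 1), ∫⁻ x in K, ENNReal.ofReal ((x i) ^ 2)
      ≤ ENNReal.ofReal ((1 / c₀) ^ 2 * n) * volume K := by
    rw [← lintegral_finsetSum' _ (fun i _ => by fun_prop)]
    have : ∀ x ∈ K, ∑ i : Fin (k + 1), ENNReal.ofReal ((x i) ^ 2)
        ≤ ENNReal.ofReal ((1 / c₀) ^ 2 * n) := by
      intro x hx
      rw [← ENNReal.ofReal_sum_of_nonneg (fun i _ => sq_nonneg _)]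
      apply ENNReal.ofReal_le_ofReal
      have h1 := hball hx
      rw [mem_closedBall_zero_iff] at h1
      have h2 : ‖x‖ ^ 2 ≤ ((1 / c₀) * √n) ^ 2 := pow_le_pow_left₀ (norm_nonneg _) h1 2
      rw [mul_pow, Real.sq_sqrt (by positivity), EuclideanSpace.norm_sq_eq] at h2
      simpa using h2
    calc ∫⁻ x in K, ∑ i : Fin (k + 1), ENNReal.ofReal ((x i) ^ 2)
        ≤ ∫⁻ _x in K, ENNReal.ofReal ((1 / c₀) ^ 2 * n) :=
          setLIntegral_mono' (measurableSet_body _ _ _) this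
      _ = _ := by rw [setLIntegral_const]
  obtain ⟨i, hi⟩ : ∃ i : Fin (k + 1), ∫⁻ x in K, ENNReal.ofReal ((x i) ^ 2)
      ≤ ENNReal.ofReal ((2 / c₀) ^ 2) * volume K := by
    by_contra h
    push Not at h
    have h1 : ∑ i : Fin (k + 1), ENNReal.ofReal ((2 / c₀) ^ 2) * volume K
        < ∑ i : Fin (k + 1), ∫⁻ x in K, ENNReal.ofReal ((x i) ^ 2) := by
      apply ENNReal.sum_lt_sum_of_nonempty Finset.univ_nonempty
      intro i _
      exact h i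
    have h2 := lt_of_lt_of_le h1 hsum
    simp only [Finset.sum_const, Finset.card_univ, Fintype.card_fin, nsmul_eq_mul] at h2
    have h3 : ENNReal.ofReal ((1 / c₀) ^ 2 * n) * volume K
        ≤ ((k + 1 : ℕ) : ℝ≥0∞) * (ENNReal.ofReal ((2 / c₀) ^ 2) * volume K) := by
      rw [← mul_assoc, ← ENNReal.ofReal_natCast, ← ENNReal.ofReal_mul (by positivity)]
      refine mul_le_mul' (ENNReal.ofReal_le_ofReal ?_) le_rfl
      have h4 : (n : ℝ) ≤ 4 * ((k : ℝ) + 1) := by exact_mod_cast hk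
      have h5 : ((2:ℝ) / c₀) ^ 2 = 4 * (1 / c₀) ^ 2 := by ring
      rw [h5]
      push_cast
      have h6 : 0 ≤ (1 / c₀) ^ 2 := by positivity
      nlinarith
    exact absurd h2 (not_lt.mpr h3)
  set u : E (k + 1) := EuclideanSpace.single i 1 with hu
  have hu1 : ‖u‖ = 1 := by simp [hu]
  obtain ⟨Γ, hΓu, hΓn, hΓm⟩ := exists_frame u hu1
  have hmom : ∫⁻ x in K, ENNReal.ofReal ((inner ℝ x u) ^ 2)
      ≤ ENNReal.ofReal ((2 / c₀) ^ 2) * volume K := by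
    have : ∀ x : E (k + 1), inner ℝ x u = x i := by
      intro x
      rw [hu, EuclideanSpace.inner_single_right]
      simp
    simp_rw [this]
    exact hi
  have hmain := volume_le_of_second_moment hΓu hΓm (measurableSet_body _ _ _) (convex_body _ _ _)
    (symm_body _ _ _) hfin (by positivity : (0:ℝ) < 2 / c₀) hmom
  unfold phi
  calc volume K * ENNReal.ofReal (Real.exp ((1 / 128) * ∑ j, s j))
      ≤ (ENNReal.ofReal (6 * (2 / c₀)) * volume (slice Γ K 0))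
          * ENNReal.ofReal (Real.exp ((1 / 128) * ∑ j, s j)) := by gcongr
    _ = ENNReal.ofReal (12 / c₀) * (volume (slice Γ K 0)
          * ENNReal.ofReal (Real.exp ((1 / 128) * ∑ j, s j))) := by
        rw [mul_assoc]
        congr 2
        ring
    _ ≤ ENNReal.ofReal (12 / c₀) * F c₀ C₀ S n k := by
        gcongr
        exact slice_phi_le hL hs hΓn

end MeyerRatio
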