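import Mathlib
import Pool.Agent.Lib.MP_d5c16a_gt.Potential

/-!
Near maximisers of the potential have small overlap with their translates.
-/

open MeasureTheory Set ENNReal Pointwise

namespace MeyerRatio

/-- The length of the interval of admissible exponents. -/
noncomputable def Sval (c₀ R : ℝ) : ℝ :=
  8 * (3 + Real.log (√Real.pi / c₀) + 16 * (1 + Real.log (√Real.pi * R)))

theorem one_le_sqrt_pi : 1 ≤ √Real.pi := by
  rw [Real.one_le_sqrt]
  linarith [Real.pi_gt_three]

theorem Sval_ge {c₀ R : ℝ} (hc₀ : 0 < c₀) (hc₁ : c₀ ≤ 1) (hR : 1 ≤ R) : 24 ≤ Sval c₀ R := by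
  unfold Sval
  have h1 : 0 ≤ Real.log (√Real.pi / c₀) := by
    apply Real.log_nonneg
    rw [one_le_div hc₀]
    exact hc₁.trans one_le_sqrt_pi
  have h2 : 0 ≤ Real.log (√Real.pi * R) := by
    apply Real.log_nonneg
    nlinarith [one_le_sqrt_pi]
  linarith

theorem Sval_condition {c₀ R : ℝ} (hc₀ : 0 < c₀) (hc₁ : c₀ ≤ 1) (hR : 1 ≤ R) {n k : ℕ}
    (hn : 0 < n) (hk : n ≤ 4 * k) (hkn : k ≤ n) :
    Real.exp 1 * (Real.exp n * (√Real.pi * (Real.exp (-(Sval c₀ R - 1)) / c₀)) ^ k
      * Real.exp (n * Sval c₀ R / 8)) * lowC R n < 1 := by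
  set S := Sval c₀ R with hS
  set a := Real.log (√Real.pi / c₀) with ha
  set b := Real.log (√Real.pi * R) with hb
  have hsp : 0 < √Real.pi := by linarith [one_le_sqrt_pi]
  have hea : √Real.pi / c₀ = Real.exp a := (Real.exp_log (by positivity)).symm
  have heb : √Real.pi * R = Real.exp b := (Real.exp_log (by positivity)).symm
  have ha0 : 0 ≤ a := by
    apply Real.log_nonneg
    rw [one_le_div hc₀]
    exact hc₁.trans one_le_sqrt_pi
  have h1 : √Real.pi * (Real.exp (-(S - 1)) / c₀) = Real.exp (a - (S - 1)) := by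
    rw [show a - (S - 1) = a + (-(S - 1)) by ring, Real.exp_add, ← hea]; ring
  unfold lowC
  rw [heb, h1, ← Real.exp_nat_mul, ← Real.exp_nat_mul, ← Real.exp_add, ← Real.exp_add,
    ← Real.exp_add, ← Real.exp_add, ← Real.exp_add, Real.exp_lt_one_iff]
  have hSv : S = 8 * (3 + a + 16 * (1 + b)) := hS
  have hn' : (1 : ℝ) ≤ n := by exact_mod_cast hn
  have hk' : (n : ℝ) ≤ 4 * k := by exact_mod_cast hk
  have hkn' : (k : ℝ) ≤ n := by exact_mod_cast hkn
  have h24 : 24 ≤ S := Sval_ge hc₀ hc₁ hR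
  push_cast
  have e1 : (k : ℝ) * a ≤ n * a := by gcongr
  have e2 : (n : ℝ) * (S - 1) ≤ 4 * k * (S - 1) := by
    apply mul_le_mul_of_nonneg_right hk'; linarith
  have e3 : (k : ℝ) * (a - (S - 1)) ≤ n * a - n * (S - 1) / 4 := by nlinarith
  have e4 : (n : ℝ) * S = n * (8 * (3 + a + 16 * (1 + b))) := by rw [hSv]
  nlinarith

theorem card_large_le {c₀ C₀ R : ℝ} (hc₀ : 0 < c₀) (hc₁ : c₀ ≤ 1) (hC₀ : 0 ≤ C₀)
    (hR : √C₀ + 1 / 2 ≤ R) (hR1 : 1 ≤ R) {n k : ℕ} (hn : 0 < n) (hk : n ≤ 4 * k) (hkn : k ≤ n)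
    {L : E k →ₗ[ℝ] (Fin (16 * n) → ℝ)} (hL : IsGood c₀ C₀ L) {s : Fin (16 * n) → ℝ}
    (hs : ∀ j, 0 ≤ s j ∧ s j ≤ Sval c₀ R)
    (hnear : F c₀ C₀ (Sval c₀ R) n k ≤ ENNReal.ofReal (Real.exp 1) * phi n L s) :
    4 * (Finset.univ.filter fun j => Sval c₀ R - 1 < s j).card ≤ 16 * n := by
  by_contra hJ
  push Not at hJ
  set S := Sval c₀ R with hS
  have hS0 : 0 ≤ S := by linarith [Sval_ge hc₀ hc₁ hR1]
  have h1 := hL.volume_body_le hc₀ hJ (n := n) (τ := S - 1) (by positivity) (s := s)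
    (fun j hj => (Finset.mem_filter.mp hj).2.le)
  have h2 := one_le_F_mul (S := S) hS0 hC₀ hR hn hkn hL
  have h3 : phi n L s ≤ ENNReal.ofReal (Real.exp n *
      (√Real.pi * (Real.exp (-(S - 1)) / c₀)) ^ k * Real.exp (n * S / 8)) := by
    unfold phi
    rw [ENNReal.ofReal_mul (by positivity)]
    gcongr
    exact sum_le_of_le hs
  have h4 : (1 : ℝ≥0∞) ≤ ENNReal.ofReal (Real.exp 1 * (Real.exp n *
      (√Real.pi * (Real.exp (-(S - 1)) / c₀)) ^ k * Real.exp (n * S / 8)) * lowC R n) := by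
    rw [ENNReal.ofReal_mul (by positivity), ENNReal.ofReal_mul (by positivity)]
    refine h2.trans ?_
    gcongr
    exact hnear.trans (by gcongr)
  have h5 := Sval_condition hc₀ hc₁ hR1 hn hk hkn
  rw [← ENNReal.ofReal_one, ENNReal.ofReal_le_ofReal_iff (by
    have := lowC_pos (R := R) (by linarith) n
    positivity)] at h4
  exact absurd h5 (not_lt.mpr h4)

/-- Near maximisers have small overlap with their translates by vectors of norm at least
`64 / (c₀ √n)`. -/
theorem overlap_le {c₀ C₀ R : ℝ} (hc₀ : 0 < c₀) (hc₁ : c₀ ≤ 1) (hC₀ : 0 ≤ C₀)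
    (hR : √C₀ + 1 / 2 ≤ R) (hR1 : 1 ≤ R) {n k : ℕ} (hn : 32 ≤ n) (hk : n ≤ 4 * k) (hkn : k ≤ n)
    {L : E k →ₗ[ℝ] (Fin (16 * n) → ℝ)} (hL : IsGood c₀ C₀ L) {s : Fin (16 * n) → ℝ}
    (hs : ∀ j, 0 ≤ s j ∧ s j ≤ Sval c₀ R)
    (hnear : F c₀ C₀ (Sval c₀ R) n k ≤ ENNReal.ofReal (Real.exp 1) * phi n L s)
    {w : E k} (hw : 64 / (c₀ * √n) ≤ ‖w‖) :
    volume (body n L s ∩ (fun x => x - w) ⁻¹' body n L s)
      ≤ ENNReal.ofReal (Real.exp (-1)) * volume (body n L s) := by
  set S := Sval c₀ R with hS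
  have hn0 : 0 < n := by omega
  have hnR : (0 : ℝ) < n := by exact_mod_cast hn0
  have hn32 : (32 : ℝ) ≤ n := by exact_mod_cast hn
  have hsn : 0 < √(n : ℝ) := Real.sqrt_pos.mpr hnR
  have hsq : √(n : ℝ) * √(n : ℝ) = n := Real.mul_self_sqrt hnR.le
  set β : ℝ := 32 / n with hβ
  have hβ0 : 0 < β := by positivity
  have hβ1 : β ≤ 1 := by rw [hβ, div_le_one hnR]; exact hn32
  have hJ := card_large_le hc₀ hc₁ hC₀ hR hR1 hn0 hk hkn hL hs hnear
  set J := Finset.univ.filter fun j => S - 1 < s j with hJdef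
  have hG := hL.1 w
  set G := Finset.univ.filter fun j => |L w j| < c₀ * ‖w‖ with hGdef
  set U := Finset.univ \ (G ∪ J) with hU
  have hUcard : 8 * n ≤ U.card := by
    have h1 : U.card = 16 * n - (G ∪ J).card := by
      rw [hU, Finset.card_sdiff_of_subset (Finset.subset_univ _), Finset.card_univ,
        Fintype.card_fin]
    have h2 := Finset.card_union_le G J
    omega
  set s' : Fin (16 * n) → ℝ := fun j => if j ∈ U then s j + β else s j with hs'
  have hs'range : ∀ j, 0 ≤ s' j ∧ s' j ≤ S := by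
    intro j
    by_cases hj : j ∈ U
    · have : ¬ (S - 1 < s j) := by
        intro h
        rw [hU, Finset.mem_sdiff, Finset.mem_union] at hj
        exact hj.2 (Or.inr (Finset.mem_filter.mpr ⟨Finset.mem_univ _, h⟩))
      simp only [hs', hj, if_true]
      exact ⟨by linarith [(hs j).1], by linarith⟩
    · simp only [hs', hj, if_false]
      exact hs j
  have hsum : ∑ j, s' j = ∑ j, s j + U.card * β := by
    have : ∀ j, s' j = s j + (if j ∈ U then β else 0) := by
      intro j
      by_cases hj : j ∈ U <;> simp [hs', hj]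
    simp_rw [this]
    rw [Finset.sum_add_distrib]
    congr 1
    rw [Finset.sum_ite_mem, Finset.univ_inter, Finset.sum_const, nsmul_eq_mul]
  -- inclusion
  have hincl : body n L s ∩ (fun x => x - w) ⁻¹' body n L s
      ⊆ (fun x => x + (-((1 / 2 : ℝ) • w))) ⁻¹' body n L s' := by
    rintro x ⟨hx1, hx2⟩ j
    have a1 : |L x j| ≤ √n * Real.exp (-s j) := hx1 j
    have a2 : |L x j - L w j| ≤ √n * Real.exp (-s j) := by
      have := hx2 j
      rwa [map_sub, Pi.sub_apply] at this
    have a3 : L (x + (-((1 / 2 : ℝ) • w))) j = L x j - (1 / 2) * L w j := by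
      rw [map_add, map_neg, map_smul]; simp [sub_eq_add_neg]
    rw [a3]
    set H := √n * Real.exp (-s j) with hH
    have a4 : |L x j - (1 / 2) * L w j| ≤ H - (1 / 2) * |L w j| := by
      rw [abs_le] at a1 a2 ⊢
      rcases le_total 0 (L w j) with h | h
      · rw [abs_of_nonneg h]
        constructor <;> linarith [a1.1, a1.2, a2.1, a2.2]
      · rw [abs_of_nonpos h]
        constructor <;> linarith [a1.1, a1.2, a2.1, a2.2]
    by_cases hj : j ∈ U
    · simp only [hs', hj, if_true]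
      have b1 : ¬ (|L w j| < c₀ * ‖w‖) := by
        intro h
        rw [hU, Finset.mem_sdiff, Finset.mem_union] at hj
        exact hj.2 (Or.inl (Finset.mem_filter.mpr ⟨Finset.mem_univ _, h⟩))
      push Not at b1
      have b2 : 64 / √n ≤ |L w j| := by
        refine le_trans ?_ b1
        calc 64 / √n = c₀ * (64 / (c₀ * √n)) := by field_simp
          _ ≤ c₀ * ‖w‖ := by gcongr
      set h := Real.exp (-s j) with hh
      have hh0 : 0 < h := Real.exp_pos _
      have hh1 : h ≤ 1 := by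
        rw [hh, Real.exp_le_one_iff]; linarith [(hs j).1]
      have b3 : 32 / √n = √n * β := by
        rw [hβ]; field_simp; rw [Real.sq_sqrt hnR.le]
      calc |L x j - (1 / 2) * L w j| ≤ √n * h - (1 / 2) * |L w j| := a4
        _ ≤ √n * h - 32 / √n := by
            have : (1 / 2) * (64 / √n) = 32 / √n := by ring
            nlinarith
        _ = √n * (h - β) := by rw [b3]; ring
        _ ≤ √n * (h * (1 - β)) := by
            gcongr
            nlinarith
        _ ≤ √n * (h * Real.exp (-β)) := by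
            gcongr
            linarith [Real.add_one_le_exp (-β)]
        _ = √n * Real.exp (-(s j + β)) := by
            rw [hh, ← Real.exp_add]; congr 2; ring
    · simp only [hs', hj, if_false]
      exact a4.trans (by linarith [abs_nonneg (L w j)])
  have hvol : volume (body n L s ∩ (fun x => x - w) ⁻¹' body n L s)
      ≤ volume (body n L s') := by
    refine (measure_mono hincl).trans ?_
    rw [measure_preimage_add_right]
  -- potential comparison
  have hpot : phi n L s' ≤ ENNReal.ofReal (Real.exp 1) * phi n L s :=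
    (phi_le_F hL hs'range).trans hnear
  unfold phi at hpot
  set V := volume (body n L s)
  set V' := volume (body n L s')
  set a := (1 / 128 : ℝ) * ∑ j, s j with ha
  have ha' : a + 2 ≤ (1 / 128 : ℝ) * ∑ j, s' j := by
    rw [hsum, ha, mul_add]
    have : (2 : ℝ) ≤ (1 / 128) * (U.card * β) := by
      have h1 : (8 * n : ℝ) ≤ U.card := by exact_mod_cast hUcard
      calc (2 : ℝ) = (1 / 128) * ((8 * n) * β) := by rw [hβ]; field_simp; norm_num
        _ ≤ _ := by gcongr
    linarith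
  have hkey : V' ≤ ENNReal.ofReal (Real.exp (-1)) * V := by
    calc V' = (V' * ENNReal.ofReal (Real.exp (a + 2))) * ENNReal.ofReal (Real.exp (-(a + 2))) := by
          rw [mul_assoc, ← ENNReal.ofReal_mul (Real.exp_pos _).le, ← Real.exp_add]
          simp
      _ ≤ (V' * ENNReal.ofReal (Real.exp ((1 / 128 : ℝ) * ∑ j, s' j)))
            * ENNReal.ofReal (Real.exp (-(a + 2))) := by gcongr
      _ ≤ (ENNReal.ofReal (Real.exp 1) * (V * ENNReal.ofReal (Real.exp a)))
            * ENNReal.ofReal (Real.exp (-(a + 2))) := by gcongr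
      _ = (ENNReal.ofReal (Real.exp 1) * ENNReal.ofReal (Real.exp a)
            * ENNReal.ofReal (Real.exp (-(a + 2)))) * V := by ring
      _ = ENNReal.ofReal (Real.exp (-1)) * V := by
          rw [← ENNReal.ofReal_mul (Real.exp_pos _).le, ← Real.exp_add,
            ← ENNReal.ofReal_mul (Real.exp_pos _).le, ← Real.exp_add]
          congr 3
          ring
  exact hvol.trans hkey

end MeyerRatio
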