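import Mathlib
import Pool.Agent.Lib.MP_d5c16a_gt.NearMax

/-!
Good bodies: small overlap with translates, bounded marginal densities. Existence in a pair of
complementary dimensions by a pigeonhole argument, and products.
-/

open MeasureTheory Set ENNReal Pointwise

namespace MeyerRatio

/-- A symmetric convex body `K` of `ℝ^k` that overlaps little with its translates by vectors of norm
at least `r₀` and whose one dimensional marginals have density at most `A`. -/
structure GoodBody (k : ℕ) (r₀ ρ A : ℝ) (K : Set (E k)) : Prop where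
  isCompact : IsCompact K
  convex : Convex ℝ K
  symm : ∀ x ∈ K, -x ∈ K
  zero_mem : (0 : E k) ∈ interior K
  overlap : ∀ w : E k, r₀ ≤ ‖w‖ →
    volume (K ∩ (fun x => x - w) ⁻¹' K) ≤ ENNReal.ofReal ρ * volume K
  slab : ∀ u : E k, ‖u‖ = 1 → ∀ s τ : ℝ,
    volume (K ∩ {x | |inner ℝ x u - s| ≤ τ}) ≤ ENNReal.ofReal (2 * τ * A) * volume K

theorem zero_mem_interior_body {k N : ℕ} {n : ℝ} (hn : 0 < n) (L : E k →ₗ[ℝ] (Fin N → ℝ))
    (s : Fin N → ℝ) : (0 : E k) ∈ interior (body n L s) := by
  rw [mem_interior]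
  refine ⟨⋂ j, {x | |L x j| < √n * Real.exp (-s j)}, ?_, ?_, ?_⟩
  · intro x hx j
    have := Set.mem_iInter.mp hx j
    exact le_of_lt this
  · exact isOpen_iInter_of_finite fun j => isOpen_lt (continuous_lin L j).abs continuous_const
  · refine Set.mem_iInter.mpr fun j => ?_
    show |L 0 j| < √n * Real.exp (-s j)
    rw [map_zero]
    simp only [Pi.zero_apply, abs_zero]
    have := Real.sqrt_pos.mpr hn
    positivity

theorem exists_goodBody_of {c₀ C₀ R : ℝ} (hc₀ : 0 < c₀) (hc₁ : c₀ ≤ 1) (hC₀ : 0 ≤ C₀)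
    (hR : √C₀ + 1 / 2 ≤ R) (hR1 : 1 ≤ R) {n k : ℕ} (hn : 32 ≤ n) (hk : n ≤ 4 * (k + 1))
    (hkn : k + 1 ≤ n) {L₀ : E (k + 1) →ₗ[ℝ] (Fin (16 * n) → ℝ)} (hL₀ : IsGood c₀ C₀ L₀)
    {A : ℝ} (hA : 0 ≤ A)
    (hF : F c₀ C₀ (Sval c₀ R) n k ≤ ENNReal.ofReal A * F c₀ C₀ (Sval c₀ R) n (k + 1)) :
    ∃ K, GoodBody (k + 1) (64 / (c₀ * √n)) (Real.exp (-1)) (A * Real.exp 1) K := by
  set S := Sval c₀ R with hS
  have hS0 : 0 ≤ S := by linarith [Sval_ge hc₀ hc₁ hR1]
  have hn0 : 0 < n := by omega
  have hF0 := F_ne_zero (S := S) hS0 hC₀ hR hn0 hkn hL₀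
  have hFt := F_ne_top (C₀ := C₀) (S := S) hc₀ hn0 (k + 1)
  have hlt : ENNReal.ofReal (Real.exp (-1)) * F c₀ C₀ S n (k + 1) < F c₀ C₀ S n (k + 1) := by
    nth_rewrite 2 [← one_mul (F c₀ C₀ S n (k + 1))]
    rw [ENNReal.mul_lt_mul_iff_left hF0 hFt]
    rw [← ENNReal.ofReal_one]
    rw [ENNReal.ofReal_lt_ofReal_iff (by norm_num)]
    rw [Real.exp_lt_one_iff]; norm_num
  nth_rewrite 2 [F] at hlt
  simp only [lt_iSup_iff] at hlt
  obtain ⟨L, hL, s, hs, hLs⟩ := hlt
  have hnear : F c₀ C₀ S n (k + 1) ≤ ENNReal.ofReal (Real.exp 1) * phi n L s := by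
    calc F c₀ C₀ S n (k + 1) = ENNReal.ofReal (Real.exp 1) *
          (ENNReal.ofReal (Real.exp (-1)) * F c₀ C₀ S n (k + 1)) := by
          rw [← mul_assoc, ← ENNReal.ofReal_mul (Real.exp_pos _).le, ← Real.exp_add]
          simp
      _ ≤ _ := by gcongr
  have hnR : (0 : ℝ) < n := by exact_mod_cast hn0
  refine ⟨body n L s, ?_, convex_body _ _ _, symm_body _ _ _, zero_mem_interior_body hnR _ _, ?_, ?_⟩
  · have hT : 16 * n < 4 * (Finset.univ : Finset (Fin (16 * n))).card := by
      rw [Finset.card_univ, Fintype.card_fin]; omega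
    have hball := hL.body_subset hc₀ hT (n := n) (τ := 0) (s := s) (fun j _ => (hs j).1)
    exact (isCompact_closedBall _ _).of_isClosed_subset (isClosed_body _ _ _) hball
  · intro w hw
    exact overlap_le hc₀ hc₁ hC₀ hR hR1 hn hk hkn hL hs hnear hw
  · intro u hu t τ
    obtain ⟨Γ, hΓu, hΓn, hΓm⟩ := exists_frame u hu
    have h1 := volume_slab_le hΓu hΓm (measurableSet_body n L s) (convex_body _ _ _)
      (symm_body _ _ _) t τ
    have h2 := slice_phi_le hL hs hΓn
    set c := ENNReal.ofReal (Real.exp ((1 / 128) * ∑ j, s j)) with hc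
    have hc0 : c ≠ 0 := by
      rw [hc]; simp [Real.exp_pos]
    have hct : c ≠ ∞ := ENNReal.ofReal_ne_top
    have h3 : volume (slice Γ (body n L s) 0) * c
        ≤ (ENNReal.ofReal (A * Real.exp 1) * volume (body n L s)) * c := by
      calc volume (slice Γ (body n L s) 0) * c ≤ F c₀ C₀ S n k := h2
        _ ≤ ENNReal.ofReal A * F c₀ C₀ S n (k + 1) := hF
        _ ≤ ENNReal.ofReal A * (ENNReal.ofReal (Real.exp 1) * phi n L s) := by gcongr
        _ = _ := by
            unfold phi
            rw [ENNReal.ofReal_mul hA, ← hc]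
            ring
    have h4 : volume (slice Γ (body n L s) 0)
        ≤ ENNReal.ofReal (A * Real.exp 1) * volume (body n L s) :=
      (ENNReal.mul_le_mul_iff_left hc0 hct).mp h3
    rcases le_or_gt 0 τ with hτ | hτ
    · calc _ ≤ ENNReal.ofReal (2 * τ) * volume (slice Γ (body n L s) 0) := h1
        _ ≤ ENNReal.ofReal (2 * τ) *
            (ENNReal.ofReal (A * Real.exp 1) * volume (body n L s)) := by gcongr
        _ = _ := by
            rw [← mul_assoc, ← ENNReal.ofReal_mul (by positivity)]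
    · have : body n L s ∩ {x | |inner ℝ x u - t| ≤ τ} = ∅ := by
        ext x
        simp only [Set.mem_inter_iff, Set.mem_ofPred_eq, Set.mem_empty_iff_false, iff_false,
          not_and, not_le]
        intro _
        exact lt_of_lt_of_le hτ (abs_nonneg _)
      rw [this]; simp

theorem exists_good_of_le {c₀ C₀ : ℝ} {N : ℕ} {n : ℕ}
    (h : ∃ L : E n →ₗ[ℝ] (Fin N → ℝ), IsGood c₀ C₀ L) {k : ℕ} (hk : k ≤ n) :
    ∃ L : E k →ₗ[ℝ] (Fin N → ℝ), IsGood c₀ C₀ L := by
  induction hk using Nat.decreasingInduction with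
  | self => exact h
  | of_succ k hk ih =>
    obtain ⟨L, hL⟩ := ih
    obtain ⟨Γ, -, hΓn, -⟩ := exists_frame (EuclideanSpace.single (0 : Fin (k + 1)) (1 : ℝ)) (by simp)
    exact ⟨restr Γ L, hL.restr hΓn⟩

/-- Combinatorial pigeonhole: if a real sequence increases by at most `c` per step and drops by at
most `D` in total, then there is a pair of symmetric steps at which it drops by at most `a`. -/
theorem pigeon {lam : ℕ → ℝ} {b p : ℕ} {c a D : ℝ}
    (h1 : ∀ i < p, lam (b + i + 1) ≤ lam (b + i) + c) (h2 : lam b - lam (b + p) ≤ D)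
    (ha : 0 < a + c) (h3 : 2 * (D + p * c) < p * (a + c)) :
    ∃ i < p, lam (b + i) ≤ lam (b + i + 1) + a ∧
      lam (b + (p - 1 - i)) ≤ lam (b + (p - 1 - i) + 1) + a := by
  by_contra hcon
  push Not at hcon
  set B := (Finset.range p).filter fun i => lam (b + i + 1) + a < lam (b + i) with hB
  have hsum : ∑ i ∈ Finset.range p, (lam (b + i) - lam (b + i + 1)) = lam b - lam (b + p) := by
    have := Finset.sum_range_sub' (fun i => lam (b + i)) p
    simpa [add_assoc] using this
  have hlow : ∑ i ∈ Finset.range p, (lam (b + i) - lam (b + i + 1) + c)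
      ≥ ∑ i ∈ B, (a + c) := by
    calc ∑ i ∈ B, (a + c) ≤ ∑ i ∈ B, (lam (b + i) - lam (b + i + 1) + c) := by
          refine Finset.sum_le_sum fun i hi => ?_
          have := (Finset.mem_filter.mp hi).2
          linarith
      _ ≤ ∑ i ∈ Finset.range p, (lam (b + i) - lam (b + i + 1) + c) := by
          refine Finset.sum_le_sum_of_subset_of_nonneg (Finset.filter_subset _ _) ?_
          intro i hi _
          have := h1 i (Finset.mem_range.mp hi)
          linarith
  rw [Finset.sum_add_distrib, hsum, Finset.sum_const, Finset.sum_const, Finset.card_range,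
    nsmul_eq_mul, nsmul_eq_mul] at hlow
  -- every index is in B or its mirror is
  have hcov : Finset.range p ⊆ B ∪ B.image (fun i => p - 1 - i) := by
    intro i hi
    rw [Finset.mem_range] at hi
    rw [Finset.mem_union]
    by_cases hiB : lam (b + i + 1) + a < lam (b + i)
    · left
      exact Finset.mem_filter.mpr ⟨Finset.mem_range.mpr hi, hiB⟩
    · right
      push Not at hiB
      have h4 := hcon i hi hiB
      rw [Finset.mem_image]
      refine ⟨p - 1 - i, Finset.mem_filter.mpr ⟨Finset.mem_range.mpr (by omega), h4⟩, by omega⟩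
  have hcard : p ≤ 2 * B.card := by
    have h5 := Finset.card_le_card hcov
    rw [Finset.card_range] at h5
    have h6 := Finset.card_union_le B (B.image (fun i => p - 1 - i))
    have h7 : (B.image (fun i => p - 1 - i)).card ≤ B.card := Finset.card_image_le
    omega
  have hcardR : (p : ℝ) ≤ 2 * B.card := by exact_mod_cast hcard
  nlinarith

end MeyerRatio
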