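import Mathlib
import Pool.Agent.Lib.MP_d5c16a_gt.Good

/-!
Good bodies in two complementary dimensions.
-/

open MeasureTheory Set ENNReal Pointwise

namespace MeyerRatio

theorem exists_pair {c₀ C₀ R : ℝ} (hc₀ : 0 < c₀) (hc₁ : c₀ ≤ 1) (hC₀ : 0 ≤ C₀)
    (hR : √C₀ + 1 / 2 ≤ R) (hR1 : 1 ≤ R)
    (hrand : ∀ n : ℕ, 0 < n → ∃ L : E n →ₗ[ℝ] (Fin (16 * n) → ℝ), IsGood c₀ C₀ L) :
    ∃ A : ℝ, 0 < A ∧ ∀ m : ℕ, 32 ≤ m → ∃ k₁ k₂ : ℕ, k₁ + k₂ = m ∧
      (∃ K, GoodBody k₁ (64 / (c₀ * √m)) (Real.exp (-1)) A K) ∧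
      (∃ K, GoodBody k₂ (64 / (c₀ * √m)) (Real.exp (-1)) A K) := by
  set S := Sval c₀ R with hS
  have hS24 : 24 ≤ S := Sval_ge hc₀ hc₁ hR1
  have hS0 : 0 ≤ S := by linarith
  set α := Real.log (√Real.pi / c₀) with hα
  set γ := Real.log (√Real.pi * R) with hγ
  set c := Real.log (12 / c₀) with hc
  have hα0 : 0 ≤ α := by
    apply Real.log_nonneg
    rw [one_le_div hc₀]
    exact hc₁.trans one_le_sqrt_pi
  have hγ0 : 0 ≤ γ := by
    apply Real.log_nonneg
    nlinarith [one_le_sqrt_pi]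
  have hc0 : 0 ≤ c := by
    apply Real.log_nonneg
    rw [one_le_div hc₀]
    linarith
  set D₀ := 1 + α + S / 8 + 16 * (1 + γ) with hD₀
  have hD₀0 : 0 < D₀ := by positivity
  set a := 8 * D₀ + c + 1 with ha
  have ha0 : 0 < a := by positivity
  refine ⟨Real.exp a * Real.exp 1, by positivity, ?_⟩
  intro m hm
  have hm0 : 0 < m := by omega
  have hmR : (0 : ℝ) < m := by exact_mod_cast hm0
  have hex : ∀ k ≤ m, ∃ L : E k →ₗ[ℝ] (Fin (16 * m) → ℝ), IsGood c₀ C₀ L :=
    fun k hk => exists_good_of_le (hrand m hm0) hk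
  have hF0 : ∀ k ≤ m, F c₀ C₀ S m k ≠ 0 := by
    intro k hk
    obtain ⟨L, hL⟩ := hex k hk
    exact F_ne_zero hS0 hC₀ hR hm0 hk hL
  have hFt : ∀ k, F c₀ C₀ S m k ≠ ∞ := fun k => F_ne_top hc₀ hm0 k
  have hFpos : ∀ k ≤ m, 0 < (F c₀ C₀ S m k).toReal := fun k hk =>
    ENNReal.toReal_pos (hF0 k hk) (hFt k)
  set lam : ℕ → ℝ := fun k => Real.log (F c₀ C₀ S m k).toReal with hlam
  set b := m / 4 with hb
  set p := m - 2 * b - 1 with hp
  have hp4 : m ≤ 4 * p := by omega
  have h1 : ∀ i < p, lam (b + i + 1) ≤ lam (b + i) + c := by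
    intro i hi
    have hle := F_succ_le (C₀ := C₀) (S := S) hc₀ (n := m) (k := b + i) hm0 (by omega)
    have h2 := ENNReal.toReal_mono (ENNReal.mul_ne_top ENNReal.ofReal_ne_top (hFt _)) hle
    rw [ENNReal.toReal_mul, ENNReal.toReal_ofReal (by positivity)] at h2
    have h3 := Real.log_le_log (hFpos (b + i + 1) (by omega)) h2
    rw [Real.log_mul (by positivity) (hFpos (b + i) (by omega)).ne'] at h3
    simp only [hlam]
    linarith
  have h2 : lam b - lam (b + p) ≤ m * D₀ := by
    have hup : lam b ≤ m * (1 + α + S / 8) := by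
      have h4 := ENNReal.toReal_mono ENNReal.ofReal_ne_top (F_le (C₀ := C₀) (S := S) hc₀ hm0 b)
      rw [ENNReal.toReal_ofReal (by positivity)] at h4
      have h5 := Real.log_le_log (hFpos b (by omega)) h4
      have hpi : 0 < √Real.pi / c₀ := by
        have := one_le_sqrt_pi
        positivity
      rw [Real.log_mul (by positivity) (by positivity), Real.log_mul (by positivity) (by positivity),
        Real.log_exp, Real.log_exp, Real.log_pow] at h5
      have h6 : (b : ℝ) * α ≤ m * α := by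
        have : (b : ℝ) ≤ m := by exact_mod_cast (by omega : b ≤ m)
        gcongr
      simp only [hlam]
      have : Real.log (√Real.pi / c₀) = α := rfl
      rw [this] at h5
      linarith
    have hlo : -(m * (16 * (1 + γ))) ≤ lam (b + p) := by
      obtain ⟨L, hL⟩ := hex (b + p) (by omega)
      have h4 := one_le_F_mul (S := S) hS0 hC₀ hR hm0 (by omega) hL
      have hlc : 0 < lowC R m := lowC_pos (by linarith) m
      have h5 := ENNReal.toReal_mono (ENNReal.mul_ne_top (hFt _) ENNReal.ofReal_ne_top) h4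
      rw [ENNReal.toReal_mul, ENNReal.toReal_ofReal hlc.le, ENNReal.toReal_one] at h5
      have h6 := Real.log_le_log one_pos h5
      rw [Real.log_one, Real.log_mul (hFpos (b + p) (by omega)).ne' hlc.ne'] at h6
      have h7 : Real.log (lowC R m) = m * (16 * (1 + γ)) := by
        unfold lowC
        have hpi : 0 < √Real.pi * R := by
          have := one_le_sqrt_pi
          positivity
        rw [Real.log_mul (by positivity) (by positivity), Real.log_exp, Real.log_pow]
        push_cast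
        rw [hγ]
        ring
      rw [h7] at h6
      simp only [hlam]
      linarith
    rw [hD₀]
    nlinarith
  have h3 : 2 * ((m : ℝ) * D₀ + p * c) < p * (a + c) := by
    have hp4' : (m : ℝ) ≤ 4 * p := by exact_mod_cast hp4
    have hp0 : (0 : ℝ) < p := by
      have : 0 < p := by omega
      exact_mod_cast this
    rw [ha]
    have : (m : ℝ) * D₀ ≤ 4 * p * D₀ := by gcongr
    nlinarith
  obtain ⟨i, hi, hg1, hg2⟩ := pigeon h1 h2 (by positivity) h3
  have hconv : ∀ k, k + 1 ≤ m → lam k ≤ lam (k + 1) + a →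
      F c₀ C₀ S m k ≤ ENNReal.ofReal (Real.exp a) * F c₀ C₀ S m (k + 1) := by
    intro k hk h
    have e1 : (F c₀ C₀ S m k).toReal ≤ Real.exp a * (F c₀ C₀ S m (k + 1)).toReal := by
      have hk0 := hFpos k (by omega)
      have hk1 := hFpos (k + 1) hk
      rw [← Real.log_le_log_iff hk0 (by positivity), Real.log_mul (by positivity) hk1.ne',
        Real.log_exp]
      simp only [hlam] at h
      linarith
    rw [← ENNReal.ofReal_toReal (hFt k), ← ENNReal.ofReal_toReal (hFt (k + 1)),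
      ← ENNReal.ofReal_mul (Real.exp_pos _).le]
    exact ENNReal.ofReal_le_ofReal e1
  refine ⟨b + i + 1, b + (p - 1 - i) + 1, by omega, ?_, ?_⟩
  · obtain ⟨L, hL⟩ := hex (b + i + 1) (by omega)
    exact exists_goodBody_of hc₀ hc₁ hC₀ hR hR1 hm (by omega) (by omega) hL
      (Real.exp_pos _).le (hconv (b + i) (by omega) hg1)
  · obtain ⟨L, hL⟩ := hex (b + (p - 1 - i) + 1) (by omega)
    exact exists_goodBody_of hc₀ hc₁ hC₀ hR hR1 hm (by omega) (by omega) hL
      (Real.exp_pos _).le (hconv (b + (p - 1 - i)) (by omega) hg2)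

end MeyerRatio
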