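import Mathlib
import Pool.Agent.Lib.MP_d5c16a_gt.Pair

/-!
Products of good bodies.
-/

open MeasureTheory Set ENNReal Pointwise

namespace MeyerRatio

theorem GoodBody.slab' {k : ℕ} {r ρ A : ℝ} {K : Set (E k)} (h : GoodBody k r ρ A K) (hA : 0 ≤ A)
    {u : E k} (hu : 1 / 2 ≤ ‖u‖) (s : ℝ) {τ : ℝ} (hτ : 0 ≤ τ) :
    volume (K ∩ {x | |inner ℝ x u - s| ≤ τ}) ≤ ENNReal.ofReal (2 * τ * (2 * A)) * volume K := by
  have hu0 : 0 < ‖u‖ := by linarith
  have h1 := h.slab (‖u‖⁻¹ • u) (by rw [norm_smul, norm_inv, norm_norm]; field_simp) (s / ‖u‖)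
    (τ / ‖u‖)
  have h2 : {x : E k | |inner ℝ x u - s| ≤ τ}
      = {x | |inner ℝ x (‖u‖⁻¹ • u) - s / ‖u‖| ≤ τ / ‖u‖} := by
    ext x
    simp only [Set.mem_ofPred_eq]
    rw [inner_smul_right]
    have : ‖u‖⁻¹ * inner ℝ x u - s / ‖u‖ = (inner ℝ x u - s) / ‖u‖ := by ring
    rw [this, abs_div, abs_of_pos hu0, div_le_div_iff_of_pos_right hu0]
  rw [h2]
  refine h1.trans ?_
  gcongr ?_ * _
  apply ENNReal.ofReal_le_ofReal
  have h3 : τ / ‖u‖ ≤ 2 * τ := by
    rw [div_le_iff₀ hu0]
    nlinarith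
  nlinarith

theorem GoodBody.volume_ne_top {k : ℕ} {r ρ A : ℝ} {K : Set (E k)} (h : GoodBody k r ρ A K) :
    volume K ≠ ∞ := h.isCompact.measure_lt_top.ne

theorem GoodBody.volume_ne_zero {k : ℕ} {r ρ A : ℝ} {K : Set (E k)} (h : GoodBody k r ρ A K) :
    volume K ≠ 0 := by
  have h1 : 0 < volume (interior K) := isOpen_interior.measure_pos _ ⟨0, h.zero_mem⟩
  exact (lt_of_lt_of_le h1 (measure_mono interior_subset)).ne'

theorem GoodBody.prod {a b : ℕ} {r ρ A : ℝ} (hA : 0 ≤ A) {K₁ : Set (E a)}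
    {K₂ : Set (E b)} (h₁ : GoodBody a r ρ A K₁) (h₂ : GoodBody b r ρ A K₂) :
    ∃ K, GoodBody (a + b) (2 * r) ρ (2 * A) K := by
  obtain ⟨Θ, hΘn, hΘi, hΘm⟩ := exists_prod_frame a b
  have hcont : Continuous Θ.symm :=
    LinearMap.continuous_of_finiteDimensional Θ.symm.toLinearMap
  have hcont' : Continuous Θ := LinearMap.continuous_of_finiteDimensional Θ.toLinearMap
  set K : Set (E (a + b)) := Θ.symm ⁻¹' (K₁ ×ˢ K₂) with hK
  have hKclosed : IsClosed K :=
    (h₁.isCompact.isClosed.prod h₂.isCompact.isClosed).preimage hcont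
  have hpre : Θ ⁻¹' K = K₁ ×ˢ K₂ := by
    ext p; simp [hK]
  have hvol : volume K = volume K₁ * volume K₂ := by
    rw [← hΘm.measure_preimage hKclosed.measurableSet.nullMeasurableSet, hpre,
      Measure.volume_eq_prod, Measure.prod_prod]
  refine ⟨K, ?_, ?_, ?_, ?_, ?_, ?_⟩
  · have : K = Θ '' (K₁ ×ˢ K₂) := by
      rw [hK]
      ext x
      constructor
      · intro hx
        exact ⟨Θ.symm x, hx, by simp⟩
      · rintro ⟨p, hp, rfl⟩
        simpa using hp
    rw [this]
    exact (h₁.isCompact.prod h₂.isCompact).image hcont'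
  · exact (h₁.convex.prod h₂.convex).linear_preimage Θ.symm.toLinearMap
  · intro x hx
    have hx' : (Θ.symm x).1 ∈ K₁ ∧ (Θ.symm x).2 ∈ K₂ := hx
    show Θ.symm (-x) ∈ K₁ ×ˢ K₂
    rw [map_neg]
    exact ⟨h₁.symm _ hx'.1, h₂.symm _ hx'.2⟩
  · rw [mem_interior]
    refine ⟨Θ.symm ⁻¹' (interior K₁ ×ˢ interior K₂), ?_, ?_, ?_⟩
    · exact Set.preimage_mono (Set.prod_mono interior_subset interior_subset)
    · exact (isOpen_interior.prod isOpen_interior).preimage hcont
    · show Θ.symm 0 ∈ interior K₁ ×ˢ interior K₂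
      rw [map_zero]
      exact ⟨h₁.zero_mem, h₂.zero_mem⟩
  · intro w hw
    have hset : Θ ⁻¹' (K ∩ (fun x => x - w) ⁻¹' K)
        = (K₁ ∩ (fun x => x - (Θ.symm w).1) ⁻¹' K₁) ×ˢ (K₂ ∩ (fun x => x - (Θ.symm w).2) ⁻¹' K₂) := by
      ext p
      simp only [hK, Set.mem_preimage, Set.mem_inter_iff, Set.mem_prod, map_sub,
        LinearEquiv.symm_apply_apply, Prod.fst_sub, Prod.snd_sub]
      tauto
    have hmeas : MeasurableSet (K ∩ (fun x => x - w) ⁻¹' K) :=
      (hKclosed.inter (hKclosed.preimage (by fun_prop))).measurableSet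
    rw [← hΘm.measure_preimage hmeas.nullMeasurableSet, hset, Measure.volume_eq_prod,
      Measure.prod_prod, hvol]
    have hnorm := hΘn (Θ.symm w)
    rw [LinearEquiv.apply_symm_apply] at hnorm
    by_cases hc : r ≤ ‖(Θ.symm w).1‖
    · calc _ ≤ (ENNReal.ofReal ρ * volume K₁) * volume K₂ :=
            mul_le_mul' (h₁.overlap _ hc) (measure_mono Set.inter_subset_left)
        _ = _ := by ring
    · have hc2 : r ≤ ‖(Θ.symm w).2‖ := by
        push Not at hc
        by_contra hcon
        push Not at hcon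
        have e1 := norm_nonneg (Θ.symm w).1
        have e2 := norm_nonneg (Θ.symm w).2
        have e3 : ‖w‖ ^ 2 < 4 * r ^ 2 := by
          rw [hnorm]; nlinarith
        have e4 : (2 * r) ^ 2 ≤ ‖w‖ ^ 2 := pow_le_pow_left₀ (by linarith) hw 2
        nlinarith
      calc _ ≤ volume K₁ * (ENNReal.ofReal ρ * volume K₂) :=
            mul_le_mul' (measure_mono Set.inter_subset_left) (h₂.overlap _ hc2)
        _ = _ := by ring
  · intro u hu s τ
    rcases lt_or_ge τ 0 with hτ | hτ
    · have : K ∩ {x | |inner ℝ x u - s| ≤ τ} = ∅ := by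
        ext x
        simp only [Set.mem_inter_iff, Set.mem_ofPred_eq, Set.mem_empty_iff_false, iff_false,
          not_and, not_le]
        intro _
        exact lt_of_lt_of_le hτ (abs_nonneg _)
      rw [this]; simp
    obtain ⟨v, rfl⟩ := Θ.surjective u
    have hnorm := hΘn v
    rw [hu] at hnorm
    have hslabcl : IsClosed {x : E (a + b) | |inner ℝ x (Θ v) - s| ≤ τ} :=
      isClosed_le (by fun_prop) continuous_const
    have hmeas : MeasurableSet (K ∩ {x | |inner ℝ x (Θ v) - s| ≤ τ}) :=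
      (hKclosed.inter hslabcl).measurableSet
    have hmeas' : MeasurableSet (Θ ⁻¹' (K ∩ {x | |inner ℝ x (Θ v) - s| ≤ τ})) :=
      hcont'.measurable hmeas
    rw [← hΘm.measure_preimage hmeas.nullMeasurableSet, hvol, Measure.volume_eq_prod]
    by_cases hc : 1 / 2 ≤ ‖v.1‖
    · rw [Measure.prod_apply_symm hmeas']
      have hle : ∀ y : E b, volume ((fun x => (x, y)) ⁻¹' (Θ ⁻¹' (K ∩ {x | |inner ℝ x (Θ v) - s| ≤ τ})))
          ≤ K₂.indicator (fun _ => ENNReal.ofReal (2 * τ * (2 * A)) * volume K₁) y := by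
        intro y
        by_cases hy : y ∈ K₂
        · rw [Set.indicator_of_mem hy]
          refine le_trans (measure_mono ?_) (h₁.slab' hA hc (s - inner ℝ y v.2) hτ)
          intro x hx
          have hx1 : (Θ.symm (Θ (x, y))).1 ∈ K₁ := hx.1.1
          have hx2 : |inner ℝ (Θ (x, y)) (Θ v) - s| ≤ τ := hx.2
          rw [LinearEquiv.symm_apply_apply] at hx1
          rw [hΘi] at hx2
          refine ⟨hx1, ?_⟩
          show |inner ℝ x v.1 - (s - inner ℝ y v.2)| ≤ τ
          rwa [show inner ℝ x v.1 - (s - inner ℝ y v.2) = inner ℝ x v.1 + inner ℝ y v.2 - s by ring]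
        · rw [Set.indicator_of_notMem hy]
          have : (fun x => (x, y)) ⁻¹' (Θ ⁻¹' (K ∩ {x | |inner ℝ x (Θ v) - s| ≤ τ})) = ∅ := by
            ext x
            simp only [Set.mem_empty_iff_false, iff_false]
            intro hx
            have hx1 : (Θ.symm (Θ (x, y))).2 ∈ K₂ := hx.1.2
            rw [LinearEquiv.symm_apply_apply] at hx1
            exact hy hx1
          rw [this]; simp
      refine (lintegral_mono hle).trans ?_
      rw [lintegral_indicator h₂.isCompact.isClosed.measurableSet, setLIntegral_const, mul_assoc]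
    · have hc2 : 1 / 2 ≤ ‖v.2‖ := by
        push Not at hc
        by_contra hcon
        push Not at hcon
        have e1 := norm_nonneg v.1
        have e2 := norm_nonneg v.2
        nlinarith
      rw [Measure.prod_apply hmeas']
      have hle : ∀ x : E a, volume (Prod.mk x ⁻¹' (Θ ⁻¹' (K ∩ {x | |inner ℝ x (Θ v) - s| ≤ τ})))
          ≤ K₁.indicator (fun _ => ENNReal.ofReal (2 * τ * (2 * A)) * volume K₂) x := by
        intro x
        by_cases hx : x ∈ K₁
        · rw [Set.indicator_of_mem hx]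
          refine le_trans (measure_mono ?_) (h₂.slab' hA hc2 (s - inner ℝ x v.1) hτ)
          intro y hy
          have hy1 : (Θ.symm (Θ (x, y))).2 ∈ K₂ := hy.1.2
          have hy2 : |inner ℝ (Θ (x, y)) (Θ v) - s| ≤ τ := hy.2
          rw [LinearEquiv.symm_apply_apply] at hy1
          rw [hΘi] at hy2
          refine ⟨hy1, ?_⟩
          show |inner ℝ y v.2 - (s - inner ℝ x v.1)| ≤ τ
          rwa [show inner ℝ y v.2 - (s - inner ℝ x v.1) = inner ℝ x v.1 + inner ℝ y v.2 - s by ring]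
        · rw [Set.indicator_of_notMem hx]
          have : Prod.mk x ⁻¹' (Θ ⁻¹' (K ∩ {x | |inner ℝ x (Θ v) - s| ≤ τ})) = ∅ := by
            ext y
            simp only [Set.mem_empty_iff_false, iff_false]
            intro hy
            have hy1 : (Θ.symm (Θ (x, y))).1 ∈ K₁ := hy.1.1
            rw [LinearEquiv.symm_apply_apply] at hy1
            exact hx hy1
          rw [this]; simp
      refine (lintegral_mono hle).trans ?_
      rw [lintegral_indicator h₁.isCompact.isClosed.measurableSet, setLIntegral_const]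
      apply le_of_eq
      ring

end MeyerRatio
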