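import Mathlib
import Pool.Agent.Lib.MP_d5c16a_gt.Potential

/-!
Existence of good linear maps, by Gaussian random matrices.
-/

open MeasureTheory Set ENNReal ProbabilityTheory

namespace MeyerRatio

theorem map_inner_stdGaussian {n : ℕ} (y : E n) :
    (stdGaussian (E n)).map (fun g => inner ℝ g y) = gaussianReal 0 (‖y‖ ^ 2).toNNReal := by
  have h := IsGaussian.map_eq_gaussianReal (μ := stdGaussian (E n)) (innerSL ℝ y)
  rw [integral_strongDual_stdGaussian, variance_dual_stdGaussian, innerSL_apply_norm] at h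
  rw [← h]
  congr 1
  ext g
  rw [innerSL_apply_apply, real_inner_comm]

theorem small_ball {n : ℕ} {y : E n} (hy : 0 < ‖y‖) {t : ℝ} (ht : 0 ≤ t) :
    stdGaussian (E n) {g | |inner ℝ g y| < t} ≤ ENNReal.ofReal (t / ‖y‖) := by
  have hmeas : Measurable fun g : E n => inner ℝ g y := by fun_prop
  have h1 : stdGaussian (E n) {g | |inner ℝ g y| < t}
      = gaussianReal 0 (‖y‖ ^ 2).toNNReal (Set.Ioo (-t) t) := by
    rw [← map_inner_stdGaussian, Measure.map_apply hmeas measurableSet_Ioo]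
    congr 1
    ext g
    simp only [Set.mem_ofPred_eq, Set.mem_preimage, Set.mem_Ioo, abs_lt]
  have hv : (‖y‖ ^ 2).toNNReal ≠ 0 := by
    have : 0 < ‖y‖ ^ 2 := by positivity
    exact (Real.toNNReal_pos.mpr this).ne'
  have hvc : (((‖y‖ ^ 2).toNNReal : NNReal) : ℝ) = ‖y‖ ^ 2 := Real.coe_toNNReal _ (by positivity)
  rw [h1, gaussianReal_apply 0 hv]
  have hpdf : ∀ x, gaussianPDF 0 (‖y‖ ^ 2).toNNReal x ≤ ENNReal.ofReal (1 / (2 * ‖y‖)) := by
    intro x
    rw [gaussianPDF_def]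
    apply ENNReal.ofReal_le_ofReal
    rw [gaussianPDFReal_def]
    simp only [hvc]
    have h2 : Real.exp (-(x - 0) ^ 2 / (2 * ‖y‖ ^ 2)) ≤ 1 := by
      rw [Real.exp_le_one_iff]
      apply div_nonpos_of_nonpos_of_nonneg
      · nlinarith [sq_nonneg (x - 0)]
      · positivity
    have h3 : (√(2 * Real.pi * ‖y‖ ^ 2))⁻¹ ≤ 1 / (2 * ‖y‖) := by
      rw [← one_div]
      apply one_div_le_one_div_of_le (by positivity)
      apply Real.le_sqrt_of_sq_le
      have := Real.pi_gt_three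
      nlinarith [sq_nonneg ‖y‖]
    calc (√(2 * Real.pi * ‖y‖ ^ 2))⁻¹ * Real.exp (-(x - 0) ^ 2 / (2 * ‖y‖ ^ 2))
        ≤ (√(2 * Real.pi * ‖y‖ ^ 2))⁻¹ * 1 := by gcongr
      _ ≤ 1 / (2 * ‖y‖) := by rw [mul_one]; exact h3
  calc ∫⁻ x in Set.Ioo (-t) t, gaussianPDF 0 (‖y‖ ^ 2).toNNReal x
      ≤ ∫⁻ _x in Set.Ioo (-t) t, ENNReal.ofReal (1 / (2 * ‖y‖)) :=
        lintegral_mono fun x => hpdf x
    _ = ENNReal.ofReal (1 / (2 * ‖y‖)) * ENNReal.ofReal (2 * t) := by
        rw [setLIntegral_const, Real.volume_Ioo]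
        congr 2
        ring
    _ = ENNReal.ofReal (t / ‖y‖) := by
        rw [← ENNReal.ofReal_mul (by positivity)]
        congr 1
        field_simp

theorem exp_moment {n : ℕ} {y : E n} (hy : 0 < ‖y‖) :
    ∫⁻ g, ENNReal.ofReal (Real.exp ((inner ℝ g y) ^ 2 / (4 * ‖y‖ ^ 2))) ∂(stdGaussian (E n)) ≤ 2 := by
  have hmeas : Measurable fun g : E n => inner ℝ g y := by fun_prop
  set v : ℝ := ‖y‖ ^ 2 with hv_def
  have hv0 : 0 < v := by positivity
  have hv : v.toNNReal ≠ 0 := (Real.toNNReal_pos.mpr hv0).ne'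
  have hvc : ((v.toNNReal : NNReal) : ℝ) = v := Real.coe_toNNReal _ hv0.le
  have hmeas2 : Measurable fun x : ℝ => ENNReal.ofReal (Real.exp (x ^ 2 / (4 * v))) := by fun_prop
  have h1 : ∫⁻ g, ENNReal.ofReal (Real.exp ((inner ℝ g y) ^ 2 / (4 * v))) ∂(stdGaussian (E n))
      = ∫⁻ x, ENNReal.ofReal (Real.exp (x ^ 2 / (4 * v))) ∂(gaussianReal 0 v.toNNReal) := by
    rw [hv_def, ← map_inner_stdGaussian, lintegral_map (by rw [← hv_def]; exact hmeas2) hmeas]
  rw [h1, gaussianReal_of_var_ne_zero 0 hv,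
    lintegral_withDensity_eq_lintegral_mul _ (measurable_gaussianPDF _ _) hmeas2]
  have hb : 0 < 1 / (4 * v) := by positivity
  have hpt : ∀ x : ℝ, (gaussianPDF 0 v.toNNReal * fun x => ENNReal.ofReal (Real.exp (x ^ 2 / (4 * v)))) x
      = ENNReal.ofReal ((√(2 * Real.pi * v))⁻¹ * Real.exp (-(1 / (4 * v)) * x ^ 2)) := by
    intro x
    rw [Pi.mul_apply, gaussianPDF_def, ← ENNReal.ofReal_mul (gaussianPDFReal_nonneg _ _ _)]
    congr 1
    rw [gaussianPDFReal_def]
    simp only [hvc]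
    rw [mul_assoc, ← Real.exp_add]
    congr 2
    field_simp
    ring
  simp_rw [hpt]
  have hint := integral_gaussian (1 / (4 * v))
  have hinteg : Integrable fun x : ℝ => Real.exp (-(1 / (4 * v)) * x ^ 2) :=
    integrable_exp_neg_mul_sq hb
  rw [← ofReal_integral_eq_lintegral_ofReal (hinteg.const_mul _)
    (Filter.Eventually.of_forall fun x => by positivity), integral_const_mul, hint]
  have h2 : (√(2 * Real.pi * v))⁻¹ * √(Real.pi / (1 / (4 * v))) = √2 := by
    rw [← Real.sqrt_inv, ← Real.sqrt_mul (by positivity)]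
    congr 1
    have := Real.pi_pos
    field_simp
    ring
  rw [h2]
  have h3 : √2 ≤ 2 := by
    rw [Real.sqrt_le_left (by norm_num)]; norm_num
  calc ENNReal.ofReal √2 ≤ ENNReal.ofReal 2 := ENNReal.ofReal_le_ofReal h3
    _ = 2 := by simp

/-- The Gaussian measure on `N`-tuples of vectors. -/
noncomputable def gm (n N : ℕ) : Measure (Fin N → E n) := Measure.pi fun _ => stdGaussian (E n)

instance (n N : ℕ) : IsProbabilityMeasure (gm n N) := by
  unfold gm; infer_instance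

theorem lintegral_prod_gm {n N : ℕ} {φ : E n → ℝ≥0∞} (hφ : Measurable φ) :
    ∫⁻ G, ∏ j, φ (G j) ∂(gm n N) = (∫⁻ g, φ g ∂(stdGaussian (E n))) ^ N := by
  have hind : iIndepFun (fun (j : Fin N) (G : Fin N → E n) => φ (G j)) (gm n N) := by
    have := iIndepFun_pi (μ := fun _ : Fin N => stdGaussian (E n)) (X := fun _ => φ)
      (fun _ => hφ.aemeasurable)
    exact this
  rw [lintegral_prod_eq_prod_lintegral_of_indepFun Finset.univ
    (fun (j : Fin N) (G : Fin N → E n) => φ (G j)) hind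
    (fun j => hφ.comp (measurable_pi_apply j))]
  have : ∀ j : Fin N, ∫⁻ G, φ (G j) ∂(gm n N) = ∫⁻ g, φ g ∂(stdGaussian (E n)) := by
    intro j
    have hmp : MeasurePreserving (Function.eval j) (gm n N) (stdGaussian (E n)) :=
      measurePreserving_eval (fun _ : Fin N => stdGaussian (E n)) j
    exact hmp.lintegral_comp hφ
  simp_rw [this]
  simp

theorem markov_gm {n N : ℕ} {φ : E n → ℝ≥0∞} (hφ : Measurable φ) (a : ℝ≥0∞) :
    a * gm n N {G | a ≤ ∏ j, φ (G j)} ≤ (∫⁻ g, φ g ∂(stdGaussian (E n))) ^ N := by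
  rw [← lintegral_prod_gm hφ]
  exact mul_meas_ge_le_lintegral
    (Finset.measurable_prod _ fun j _ => hφ.comp (measurable_pi_apply j)) a

/-- Number of small coordinates, as a real number. -/
noncomputable def cnt {n N : ℕ} (t : ℝ) (G : Fin N → E n) (y : E n) : ℝ :=
  ∑ j, if |inner ℝ (G j) y| < t then (1 : ℝ) else 0

/-- Sum of squares of coordinates. -/
noncomputable def qsum {n N : ℕ} (G : Fin N → E n) (y : E n) : ℝ :=
  ∑ j, (inner ℝ (G j) y) ^ 2

theorem cnt_eq_card {n N : ℕ} (t : ℝ) (G : Fin N → E n) (y : E n) :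
    cnt t G y = (Finset.univ.filter fun j => |inner ℝ (G j) y| < t).card := by
  unfold cnt
  rw [Finset.sum_boole]

theorem prob_cnt {n : ℕ} {y : E n} (hy : 1 / 2 ≤ ‖y‖) :
    gm n (16 * n) {G | (2 * n : ℝ) ≤ cnt (2 * (1 / 2) ^ 30) G y} ≤ ENNReal.ofReal ((1 / 2) ^ (40 * n)) := by
  set t : ℝ := 2 * (1 / 2) ^ 30 with ht
  have hy0 : 0 < ‖y‖ := by linarith
  set lam : ℝ≥0∞ := ENNReal.ofReal (2 ^ 28) with hlam
  have hmset : MeasurableSet {g : E n | |inner ℝ g y| < t} :=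
    measurableSet_lt (by fun_prop) measurable_const
  set φ : E n → ℝ≥0∞ := fun g => if |inner ℝ g y| < t then lam else 1 with hφdef
  have hφ : Measurable φ := Measurable.ite hmset measurable_const measurable_const
  have hint : ∫⁻ g, φ g ∂(stdGaussian (E n)) ≤ 2 := by
    have h1 : ∀ g, φ g ≤ {g : E n | |inner ℝ g y| < t}.indicator (fun _ => lam) g + 1 := by
      intro g
      by_cases hg : |inner ℝ g y| < t
      · simp only [hφdef, hg, if_true]
        rw [Set.indicator_of_mem (show g ∈ {g : E n | |inner ℝ g y| < t} from hg)]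
        exact le_self_add
      · simp only [hφdef, hg, if_false]
        exact le_add_self
    calc ∫⁻ g, φ g ∂(stdGaussian (E n))
        ≤ ∫⁻ g, ({g : E n | |inner ℝ g y| < t}.indicator (fun _ => lam) g + 1) ∂(stdGaussian (E n)) :=
          lintegral_mono h1
      _ = lam * stdGaussian (E n) {g | |inner ℝ g y| < t} + 1 := by
          rw [lintegral_add_right _ measurable_const, lintegral_indicator hmset,
            setLIntegral_const]
          simp
      _ ≤ lam * ENNReal.ofReal (t / ‖y‖) + 1 := by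
          gcongr
          exact small_ball hy0 (by positivity)
      _ ≤ 1 + 1 := by
          gcongr
          rw [hlam, ← ENNReal.ofReal_mul (by positivity), ← ENNReal.ofReal_one]
          apply ENNReal.ofReal_le_ofReal
          rw [ht, mul_div_assoc', div_le_one hy0]
          refine le_trans ?_ hy
          norm_num
      _ = 2 := by norm_num
  have hmk := markov_gm (N := 16 * n) hφ (lam ^ (2 * n))
  have hsub : {G : Fin (16 * n) → E n | (2 * n : ℝ) ≤ cnt t G y} ⊆ {G | lam ^ (2 * n) ≤ ∏ j, φ (G j)} := by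
    intro G hG
    have hG' : (2 * n : ℝ) ≤ cnt t G y := hG
    rw [cnt_eq_card] at hG'
    have hG2 : 2 * n ≤ (Finset.univ.filter fun j => |inner ℝ (G j) y| < t).card := by
      exact_mod_cast hG'
    show lam ^ (2 * n) ≤ ∏ j, φ (G j)
    have hprod : ∏ j, φ (G j) = lam ^ (Finset.univ.filter fun j => |inner ℝ (G j) y| < t).card := by
      simp only [hφdef]
      rw [Finset.prod_ite]
      simp
    rw [hprod]
    apply pow_le_pow_right₀ _ hG2
    rw [hlam, ← ENNReal.ofReal_one]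
    exact ENNReal.ofReal_le_ofReal (by norm_num)
  have hlam0 : lam ^ (2 * n) ≠ 0 := pow_ne_zero _ (by rw [hlam]; simp)
  have hlamt : lam ^ (2 * n) ≠ ∞ := ENNReal.pow_ne_top ENNReal.ofReal_ne_top
  have h3 : lam ^ (2 * n) * gm n (16 * n) {G | (2 * n : ℝ) ≤ cnt t G y} ≤ 2 ^ (16 * n) := by
    calc _ ≤ lam ^ (2 * n) * gm n (16 * n) {G | lam ^ (2 * n) ≤ ∏ j, φ (G j)} := by
          gcongr
      _ ≤ _ := hmk
      _ ≤ 2 ^ (16 * n) := by gcongr
  have h4 : (2 : ℝ≥0∞) ^ (16 * n) = lam ^ (2 * n) * ENNReal.ofReal ((1 / 2) ^ (40 * n)) := by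
    rw [hlam, ← ENNReal.ofReal_pow (by positivity), ← ENNReal.ofReal_mul (by positivity)]
    have : (2 : ℝ≥0∞) = ENNReal.ofReal 2 := by simp
    rw [this, ← ENNReal.ofReal_pow (by positivity)]
    congr 1
    rw [← pow_mul, show 28 * (2 * n) = 16 * n + 40 * n by ring, pow_add, mul_assoc, ← mul_pow]
    norm_num
  rw [h4] at h3
  exact (ENNReal.mul_le_mul_iff_right hlam0 hlamt).mp h3

theorem prob_qsum {n : ℕ} {y : E n} (hy : 1 / 2 ≤ ‖y‖) (hy2 : ‖y‖ ≤ 3 / 2) :
    gm n (16 * n) {G | (32 * (16 * n) : ℝ) ≤ qsum G y} ≤ ENNReal.ofReal ((1 / 2) ^ (40 * n)) := by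
  have hy0 : 0 < ‖y‖ := by linarith
  set φ : E n → ℝ≥0∞ := fun g => ENNReal.ofReal (Real.exp ((inner ℝ g y) ^ 2 / (4 * ‖y‖ ^ 2)))
    with hφdef
  have hφ : Measurable φ := by fun_prop
  set a : ℝ≥0∞ := ENNReal.ofReal (2 ^ (56 * n)) with ha
  have hmk := markov_gm (N := 16 * n) hφ a
  have hsub : {G : Fin (16 * n) → E n | (32 * (16 * n) : ℝ) ≤ qsum G y} ⊆ {G | a ≤ ∏ j, φ (G j)} := by
    intro G hG
    have hG' : (32 * (16 * n) : ℝ) ≤ qsum G y := hG
    show a ≤ ∏ j, φ (G j)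
    simp only [hφdef]
    rw [← ENNReal.ofReal_prod_of_nonneg (fun j _ => (Real.exp_pos _).le), ← Real.exp_sum,
      ← Finset.sum_div, ha]
    apply ENNReal.ofReal_le_ofReal
    have h1 : (56 * n : ℝ) ≤ (∑ j, (inner ℝ (G j) y) ^ 2) / (4 * ‖y‖ ^ 2) := by
      rw [le_div_iff₀ (by positivity)]
      refine le_trans ?_ hG'
      have h2 : ‖y‖ ^ 2 ≤ (3 / 2) ^ 2 := pow_le_pow_left₀ hy0.le hy2 2
      have h3 : (0 : ℝ) ≤ n := by positivity
      nlinarith
    calc (2 : ℝ) ^ (56 * n) ≤ (Real.exp 1) ^ (56 * n) := by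
          gcongr
          linarith [Real.add_one_le_exp (1 : ℝ)]
      _ = Real.exp (56 * n) := by
          rw [← Real.exp_nat_mul]; push_cast; ring_nf
      _ ≤ _ := Real.exp_le_exp.mpr h1
  have ha0 : a ≠ 0 := by rw [ha]; simp
  have hat : a ≠ ∞ := ENNReal.ofReal_ne_top
  have h3 : a * gm n (16 * n) {G | (32 * (16 * n) : ℝ) ≤ qsum G y} ≤ 2 ^ (16 * n) := by
    calc _ ≤ a * gm n (16 * n) {G | a ≤ ∏ j, φ (G j)} := by gcongr
      _ ≤ _ := hmk
      _ ≤ 2 ^ (16 * n) := by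
          gcongr
          exact exp_moment hy0
  have h4 : (2 : ℝ≥0∞) ^ (16 * n) = a * ENNReal.ofReal ((1 / 2) ^ (40 * n)) := by
    rw [ha, ← ENNReal.ofReal_mul (by positivity)]
    have : (2 : ℝ≥0∞) = ENNReal.ofReal 2 := by simp
    rw [this, ← ENNReal.ofReal_pow (by positivity)]
    congr 1
    rw [show 56 * n = 16 * n + 40 * n by ring, pow_add, mul_assoc, ← mul_pow]
    norm_num
  rw [h4] at h3
  exact (ENNReal.mul_le_mul_iff_right ha0 hat).mp h3

end MeyerRatio
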