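import Mathlib
import Pool.Agent.Lib.MP_d5c16a_gt.Random

/-!
Existence of good linear maps: conclusion by a continuous net argument.
-/

open MeasureTheory Set ENNReal ProbabilityTheory

namespace MeyerRatio

/-- The linear map given by the rows `G j`. -/
noncomputable def lmap {n N : ℕ} (G : Fin N → E n) : E n →ₗ[ℝ] (Fin N → ℝ) :=
  LinearMap.pi fun j => (innerSL ℝ (G j)).toLinearMap

theorem lmap_apply {n N : ℕ} (G : Fin N → E n) (x : E n) (j : Fin N) :
    lmap G x j = inner ℝ (G j) x := rfl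

theorem qsum_smul {n N : ℕ} (G : Fin N → E n) (a : ℝ) (x : E n) :
    qsum G (a • x) = a ^ 2 * qsum G x := by
  unfold qsum
  rw [Finset.mul_sum]
  refine Finset.sum_congr rfl fun j _ => ?_
  rw [real_inner_smul_right]
  ring

theorem qsum_nonneg {n N : ℕ} (G : Fin N → E n) (x : E n) : 0 ≤ qsum G x :=
  Finset.sum_nonneg fun _ _ => sq_nonneg _

theorem qsum_add_le {n N : ℕ} (G : Fin N → E n) (x y : E n) :
    qsum G (x + y) ≤ 2 * qsum G x + 2 * qsum G y := by
  unfold qsum
  rw [Finset.mul_sum, Finset.mul_sum, ← Finset.sum_add_distrib]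
  refine Finset.sum_le_sum fun j _ => ?_
  rw [inner_add_right]
  nlinarith [sq_nonneg (inner ℝ (G j) x - inner ℝ (G j) y)]

theorem continuous_qsum {n N : ℕ} (G : Fin N → E n) : Continuous (qsum G) := by
  unfold qsum
  fun_prop

theorem norm_bounds {n : ℕ} {x y : E n} (hx : ‖x‖ = 1) (hy : y ∈ Metric.closedBall x ((1 / 2) ^ 35)) :
    1 / 2 ≤ ‖y‖ ∧ ‖y‖ ≤ 3 / 2 := by
  have h1 : ‖y - x‖ ≤ (1 / 2) ^ 35 := by
    rw [← dist_eq_norm]; exact hy
  have h2 : ((1 : ℝ) / 2) ^ 35 ≤ 1 / 2 := by norm_num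
  have h3 : ‖y‖ ≤ ‖y - x‖ + ‖x‖ := by
    calc ‖y‖ = ‖(y - x) + x‖ := by simp
      _ ≤ _ := norm_add_le _ _
  have h4 : ‖x‖ ≤ ‖y - x‖ + ‖y‖ := by
    calc ‖x‖ = ‖y - (y - x)‖ := by simp
      _ ≤ ‖y‖ + ‖y - x‖ := norm_sub_le _ _
      _ = _ := by ring
  constructor <;> linarith

theorem bad_ball {n : ℕ} (hn : 0 < n) (G : Fin (16 * n) → E n)
    (hG : ¬ IsGood ((1 / 2) ^ 30) 128 (lmap G)) :
    ∃ x : E n, ‖x‖ = 1 ∧ ∀ y ∈ Metric.closedBall x ((1 / 2) ^ 35),
      ((32 * (16 * n) : ℝ) ≤ qsum G y ∨ (2 * n : ℝ) ≤ cnt (2 * (1 / 2) ^ 30) G y) := by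
  have : Nontrivial (E n) := by
    have : Nonempty (Fin n) := ⟨⟨0, hn⟩⟩
    infer_instance
  have hnR : (0 : ℝ) < n := by exact_mod_cast hn
  have hcomp : IsCompact (Metric.sphere (0 : E n) 1) := isCompact_sphere _ _
  have hne : (Metric.sphere (0 : E n) 1).Nonempty := NormedSpace.sphere_nonempty.mpr zero_le_one
  obtain ⟨x₀, hx₀, hmax⟩ := hcomp.exists_isMaxOn hne (continuous_qsum G).continuousOn
  have hx₀1 : ‖x₀‖ = 1 := by simpa using hx₀
  set m := qsum G x₀ with hm
  have hub : ∀ z : E n, qsum G z ≤ m * ‖z‖ ^ 2 := by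
    intro z
    by_cases hz : z = 0
    · subst hz
      have : qsum G (0 : E n) = 0 := by
        unfold qsum; simp
      rw [this]
      simp
    · have hz0 : 0 < ‖z‖ := norm_pos_iff.mpr hz
      have h1 : qsum G (‖z‖⁻¹ • z) ≤ m := by
        apply hmax
        simp [norm_smul, hz0.ne']
      rw [qsum_smul] at h1
      have h2 : qsum G z = ‖z‖ ^ 2 * (‖z‖⁻¹ ^ 2 * qsum G z) := by
        field_simp
      rw [h2, mul_comm m]
      gcongr
  by_cases hbig : 128 * (16 * n : ℝ) < m
  · refine ⟨x₀, hx₀1, fun y hy => Or.inl ?_⟩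
    have h1 : ‖x₀ - y‖ ≤ (1 / 2) ^ 35 := by
      rw [← dist_eq_norm, dist_comm]; exact hy
    have h2 : m ≤ 2 * qsum G y + 2 * qsum G (x₀ - y) := by
      have := qsum_add_le G y (x₀ - y)
      rwa [add_sub_cancel] at this
    have h3 : qsum G (x₀ - y) ≤ m * (1 / 4) := by
      refine (hub _).trans ?_
      have hm0 : 0 ≤ m := qsum_nonneg _ _
      have h4 : ‖x₀ - y‖ ^ 2 ≤ ((1 / 2) ^ 35) ^ 2 := pow_le_pow_left₀ (norm_nonneg _) h1 2
      have h5 : (((1 : ℝ) / 2) ^ 35) ^ 2 ≤ 1 / 4 := by norm_num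
      gcongr
      exact h4.trans h5
    linarith
  · push Not at hbig
    have hub2 : ∀ z : E n, qsum G z ≤ 128 * (16 * n) * ‖z‖ ^ 2 := fun z =>
      (hub z).trans (by gcongr)
    have h2 : ∃ x : E n, 16 * n < 4 * (Finset.univ.filter fun j => |lmap G x j| < (1 / 2) ^ 30 * ‖x‖).card := by
      by_contra hcon
      push Not at hcon
      apply hG
      refine ⟨hcon, fun x => ?_⟩
      have := hub2 x
      have h6 : ∑ j, (lmap G x j) ^ 2 = qsum G x := rfl
      rw [h6]
      push_cast
      exact this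
    obtain ⟨x, hx⟩ := h2
    have hx0 : x ≠ 0 := by
      rintro rfl
      simp at hx
    have hxpos : 0 < ‖x‖ := norm_pos_iff.mpr hx0
    refine ⟨‖x‖⁻¹ • x, by simp [norm_smul, hxpos.ne'], fun y hy => Or.inr ?_⟩
    set w := ‖x‖⁻¹ • x with hw
    have hyw : ‖y - w‖ ≤ (1 / 2) ^ 35 := by
      rw [← dist_eq_norm]; exact hy
    set S := Finset.univ.filter fun j : Fin (16 * n) => |lmap G x j| < (1 / 2) ^ 30 * ‖x‖ with hS
    set T := Finset.univ.filter fun j : Fin (16 * n) => (1 / 2) ^ 30 ≤ |inner ℝ (G j) (y - w)| with hT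
    have hTcard : (T.card : ℝ) ≤ 2 * n := by
      have h3 : (T.card : ℝ) * ((1 / 2) ^ 30) ^ 2 ≤ qsum G (y - w) := by
        unfold qsum
        calc (T.card : ℝ) * ((1 / 2) ^ 30) ^ 2 = ∑ _j ∈ T, (((1 : ℝ) / 2) ^ 30) ^ 2 := by
              rw [Finset.sum_const, nsmul_eq_mul]
          _ ≤ ∑ j ∈ T, (inner ℝ (G j) (y - w)) ^ 2 := by
              refine Finset.sum_le_sum fun j hj => ?_
              have hj' := (Finset.mem_filter.mp hj).2
              rw [← sq_abs (inner ℝ (G j) (y - w))]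
              exact pow_le_pow_left₀ (by positivity) hj' 2
          _ ≤ ∑ j, (inner ℝ (G j) (y - w)) ^ 2 :=
              Finset.sum_le_sum_of_subset_of_nonneg (Finset.subset_univ _) fun _ _ _ => sq_nonneg _
      have h4 : qsum G (y - w) ≤ 128 * (16 * n) * ((1 / 2) ^ 35) ^ 2 := by
        refine (hub2 _).trans ?_
        gcongr
      have h5 := h3.trans h4
      have h6 : (128 : ℝ) * (16 * n) * ((1 / 2) ^ 35) ^ 2 = (2 * n) * ((1 / 2) ^ 30) ^ 2 := by
        norm_num
        ring
      rw [h6] at h5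
      exact le_of_mul_le_mul_right h5 (by positivity)
    have hTcard' : T.card ≤ 2 * n := by exact_mod_cast hTcard
    rw [cnt_eq_card]
    set U := Finset.univ.filter fun j : Fin (16 * n) => |inner ℝ (G j) y| < 2 * (1 / 2) ^ 30 with hU
    have hsub : S ⊆ U ∪ T := by
      intro j hj
      by_cases hjT : j ∈ T
      · exact Finset.mem_union_right _ hjT
      · apply Finset.mem_union_left
        have hj1 : |inner ℝ (G j) x| < (1 / 2) ^ 30 * ‖x‖ := (Finset.mem_filter.mp hj).2
        have hj2 : |inner ℝ (G j) (y - w)| < (1 / 2) ^ 30 := by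
          by_contra h
          push Not at h
          exact hjT (Finset.mem_filter.mpr ⟨Finset.mem_univ _, h⟩)
        have hj3 : |inner ℝ (G j) w| < (1 / 2) ^ 30 := by
          rw [hw, real_inner_smul_right, abs_mul, abs_of_pos (inv_pos.mpr hxpos)]
          rw [inv_mul_lt_iff₀ hxpos, mul_comm ‖x‖]
          exact hj1
        refine Finset.mem_filter.mpr ⟨Finset.mem_univ _, ?_⟩
        have : inner ℝ (G j) y = inner ℝ (G j) w + inner ℝ (G j) (y - w) := by
          rw [← inner_add_right, add_sub_cancel]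
        rw [this]
        calc |inner ℝ (G j) w + inner ℝ (G j) (y - w)|
            ≤ |inner ℝ (G j) w| + |inner ℝ (G j) (y - w)| := abs_add_le _ _
          _ < (1 / 2) ^ 30 + (1 / 2) ^ 30 := add_lt_add hj3 hj2
          _ = 2 * (1 / 2) ^ 30 := by ring
    have h7 := (Finset.card_le_card hsub).trans (Finset.card_union_le _ _)
    have h8 : 2 * n ≤ U.card := by omega
    exact_mod_cast h8

theorem measurable_qsum (n N : ℕ) :
    Measurable fun p : (Fin N → E n) × E n => qsum p.1 p.2 := by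
  unfold qsum
  fun_prop

theorem measurable_cnt (n N : ℕ) (t : ℝ) :
    Measurable fun p : (Fin N → E n) × E n => cnt t p.1 p.2 := by
  unfold cnt
  refine Finset.measurable_sum _ fun j _ => ?_
  refine Measurable.ite ?_ measurable_const measurable_const
  exact measurableSet_lt (by fun_prop) measurable_const

theorem exists_good {n : ℕ} (hn : 0 < n) :
    ∃ L : E n →ₗ[ℝ] (Fin (16 * n) → ℝ), IsGood ((1 / 2) ^ 30) 128 L := by
  by_contra hcon
  push Not at hcon
  set B : Set ((Fin (16 * n) → E n) × E n) :=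
    {p | (1 / 2 ≤ ‖p.2‖ ∧ ‖p.2‖ ≤ 3 / 2) ∧
      ((32 * (16 * n) : ℝ) ≤ qsum p.1 p.2 ∨ (2 * n : ℝ) ≤ cnt (2 * (1 / 2) ^ 30) p.1 p.2)} with hB
  have hBm : MeasurableSet B := by
    refine MeasurableSet.inter (MeasurableSet.inter ?_ ?_) (MeasurableSet.union ?_ ?_)
    · exact measurableSet_le measurable_const measurable_snd.norm
    · exact measurableSet_le measurable_snd.norm measurable_const
    · exact measurableSet_le measurable_const (measurable_qsum _ _)
    · exact measurableSet_le measurable_const (measurable_cnt _ _ _)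
  have h1 : ((gm n (16 * n)).prod (volume : Measure (E n))) B
      = ∫⁻ G, volume (Prod.mk G ⁻¹' B) ∂(gm n (16 * n)) := Measure.prod_apply hBm
  have h2 : ((gm n (16 * n)).prod (volume : Measure (E n))) B
      = ∫⁻ y, gm n (16 * n) ((fun G => (G, y)) ⁻¹' B) := Measure.prod_apply_symm hBm
  have h3 : volume (Metric.closedBall (0 : E n) ((1 / 2) ^ 35))
      ≤ ∫⁻ G, volume (Prod.mk G ⁻¹' B) ∂(gm n (16 * n)) := by
    calc volume (Metric.closedBall (0 : E n) ((1 / 2) ^ 35))
        = ∫⁻ _G, volume (Metric.closedBall (0 : E n) ((1 / 2) ^ 35)) ∂(gm n (16 * n)) := by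
          simp
      _ ≤ _ := by
          refine lintegral_mono fun G => ?_
          obtain ⟨x, hx1, hx⟩ := bad_ball hn G (hcon _)
          rw [← Measure.addHaar_closedBall_center volume x]
          refine measure_mono fun y hy => ?_
          exact ⟨norm_bounds hx1 hy, hx y hy⟩
  have h4 : ∫⁻ y, gm n (16 * n) ((fun G => (G, y)) ⁻¹' B)
      ≤ volume (Metric.closedBall (0 : E n) 2) * (2 * ENNReal.ofReal ((1 / 2) ^ (40 * n))) := by
    calc ∫⁻ y, gm n (16 * n) ((fun G => (G, y)) ⁻¹' B)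
        ≤ ∫⁻ y, (Metric.closedBall (0 : E n) 2).indicator
            (fun _ => 2 * ENNReal.ofReal ((1 / 2) ^ (40 * n))) y := by
          refine lintegral_mono fun y => ?_
          by_cases hy : 1 / 2 ≤ ‖y‖ ∧ ‖y‖ ≤ 3 / 2
          · rw [Set.indicator_of_mem (by rw [mem_closedBall_zero_iff]; linarith [hy.2])]
            have hsub : ((fun G => (G, y)) ⁻¹' B) ⊆
                {G : Fin (16 * n) → E n | (32 * (16 * n) : ℝ) ≤ qsum G y} ∪
                {G : Fin (16 * n) → E n | (2 * n : ℝ) ≤ cnt (2 * (1 / 2) ^ 30) G y} := by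
              intro G hG
              exact hG.2
            refine (measure_mono hsub).trans ((measure_union_le _ _).trans ?_)
            rw [two_mul (ENNReal.ofReal _)]
            exact add_le_add (prob_qsum hy.1 hy.2) (prob_cnt hy.1)
          · have : ((fun G => (G, y)) ⁻¹' B) = ∅ := by
              ext G
              simp only [Set.mem_preimage, Set.mem_empty_iff_false, iff_false]
              intro hG
              exact hy hG.1
            rw [this]
            simp
      _ = _ := by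
          rw [lintegral_indicator Metric.isClosed_closedBall.measurableSet, setLIntegral_const,
            mul_comm]
  have h5 : volume (Metric.closedBall (0 : E n) 2)
      = ENNReal.ofReal (2 ^ (36 * n)) * volume (Metric.closedBall (0 : E n) ((1 / 2) ^ 35)) := by
    have h6 : Module.finrank ℝ (E n) = n := finrank_euclideanSpace_fin
    rw [Measure.addHaar_closedBall' volume (0 : E n) (by norm_num : (0:ℝ) ≤ 2),
      Measure.addHaar_closedBall' volume (0 : E n) (by positivity : (0:ℝ) ≤ (1 / 2) ^ 35),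
      ← mul_assoc, ← ENNReal.ofReal_mul (by positivity), h6]
    congr 2
    rw [← pow_mul, pow_mul, pow_mul, ← mul_pow]
    norm_num
  set V := volume (Metric.closedBall (0 : E n) ((1 / 2) ^ 35)) with hV
  have hV0 : V ≠ 0 := (Metric.measure_closedBall_pos volume _ (by positivity)).ne'
  have hVt : V ≠ ∞ := measure_closedBall_lt_top.ne
  have h7 : V ≤ V * ENNReal.ofReal (1 / 2) := by
    calc V ≤ _ := h3
      _ = _ := by rw [← h1, h2]
      _ ≤ _ := h4
      _ = V * (ENNReal.ofReal (2 ^ (36 * n)) * (2 * ENNReal.ofReal ((1 / 2) ^ (40 * n)))) := by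
          rw [h5]; ring
      _ ≤ V * ENNReal.ofReal (1 / 2) := by
          gcongr
          have h8 : (2 : ℝ≥0∞) = ENNReal.ofReal 2 := by simp
          rw [h8, ← ENNReal.ofReal_mul (by positivity), ← ENNReal.ofReal_mul (by positivity)]
          apply ENNReal.ofReal_le_ofReal
          have h9 : (2 : ℝ) ^ (36 * n) * (2 * (1 / 2) ^ (40 * n)) = 2 * (1 / 16) ^ n := by
            rw [pow_mul, pow_mul]
            rw [mul_left_comm, ← mul_pow]
            norm_num
          rw [h9]
          have h10 : ((1 : ℝ) / 16) ^ n ≤ (1 / 16) ^ 1 :=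
            pow_le_pow_of_le_one (by norm_num) (by norm_num) hn
          linarith
  have h11 : V * ENNReal.ofReal (1 / 2) < V * 1 := by
    rw [ENNReal.mul_lt_mul_iff_right hV0 hVt]
    rw [← ENNReal.ofReal_one]
    exact (ENNReal.ofReal_lt_ofReal_iff (by norm_num)).mpr (by norm_num)
  rw [mul_one] at h11
  exact absurd h7 (not_le.mpr h11)

end MeyerRatio
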