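import Mathlib
import Pool.Agent.Lib.MP_d5c16a_gt.Product
import Pool.Agent.Lib.MP_d5c16a_gt.RandomGood

/-!
Existence of good bodies in every dimension at least 32.
-/

open MeasureTheory Set ENNReal

namespace MeyerRatio

theorem exists_goodBody : ∃ A : ℝ, 0 < A ∧ ∀ m : ℕ, 32 ≤ m →
    ∃ K, GoodBody m (2 ^ 37 / √m) (Real.exp (-1)) A K := by
  have hR : √(128 : ℝ) + 1 / 2 ≤ 12 := by
    have : √(128 : ℝ) ≤ 11.5 := by
      rw [Real.sqrt_le_left (by norm_num)]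
      norm_num
    linarith
  obtain ⟨A, hA, h⟩ := exists_pair (c₀ := (1 / 2) ^ 30) (C₀ := 128) (R := 12) (by positivity)
    (by norm_num) (by norm_num) hR (by norm_num) (fun n hn => exists_good hn)
  refine ⟨2 * A, by positivity, fun m hm => ?_⟩
  obtain ⟨k₁, k₂, hk, ⟨K₁, hK₁⟩, ⟨K₂, hK₂⟩⟩ := h m hm
  obtain ⟨K, hK⟩ := hK₁.prod hA.le hK₂
  subst hk
  refine ⟨K, ?_⟩
  have hr : 2 * (64 / ((1 / 2) ^ 30 * √((k₁ + k₂ : ℕ) : ℝ))) = 2 ^ 37 / √((k₁ + k₂ : ℕ) : ℝ) := by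
    have : 0 < √((k₁ + k₂ : ℕ) : ℝ) := Real.sqrt_pos.mpr (by
      have : 0 < k₁ + k₂ := by omega
      exact_mod_cast this)
    field_simp
    norm_num
  rw [← hr]
  exact hK

end MeyerRatio
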