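import Mathlib
import Pool.Agent.Lib.MP_d5c16a_gt.Frame

/-!
Maximal volume ellipsoids of symmetric convex bodies.
-/

open MeasureTheory Set ENNReal

namespace MeyerRatio

/-- Stretching along `w`. -/
noncomputable def stretch {n : ℕ} (a b : ℝ) (w : E n) : E n →ₗ[ℝ] E n :=
  a • LinearMap.transvection (innerSL ℝ w).toLinearMap ((b / a - 1) • w)

theorem stretch_apply {n : ℕ} {a : ℝ} (ha : a ≠ 0) (b : ℝ) (w z : E n) :
    stretch a b w z = a • z + ((b - a) * inner ℝ w z) • w := by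
  have h1 : stretch a b w z = a • (z + inner ℝ w z • ((b / a - 1) • w)) := rfl
  rw [h1, smul_add, smul_smul, smul_smul]
  congr 2
  field_simp

theorem det_stretch {n : ℕ} {a : ℝ} (ha : a ≠ 0) (b : ℝ) {w : E n} (hw : ‖w‖ = 1) :
    LinearMap.det (stretch a b w) = a ^ n * (b / a) := by
  unfold stretch
  rw [LinearMap.det_smul, LinearMap.transvection.det, finrank_euclideanSpace_fin]
  congr 1
  show 1 + inner ℝ w ((b / a - 1) • w) = b / a
  rw [real_inner_smul_right, real_inner_self_eq_norm_sq, hw]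
  ring

theorem norm_sq_stretch {n : ℕ} {a : ℝ} (ha : a ≠ 0) (b : ℝ) {w : E n} (hw : ‖w‖ = 1) (z : E n) :
    ‖stretch a b w z‖ ^ 2 = a ^ 2 * ‖z‖ ^ 2 + (b ^ 2 - a ^ 2) * (inner ℝ w z) ^ 2 := by
  rw [stretch_apply ha, norm_add_sq_real, norm_smul, norm_smul, hw, real_inner_smul_left,
    real_inner_smul_right, mul_pow, mul_one, Real.norm_eq_abs, Real.norm_eq_abs, sq_abs, sq_abs,
    real_inner_comm z w]
  ring

theorem inner_stretch {n : ℕ} {a : ℝ} (ha : a ≠ 0) (b : ℝ) (w y z : E n) :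
    inner ℝ y (stretch a b w z) = inner ℝ (stretch a b w y) z := by
  rw [stretch_apply ha, stretch_apply ha, inner_add_left, inner_add_right, real_inner_smul_left,
    real_inner_smul_right, real_inner_smul_left, real_inner_smul_right, real_inner_comm y w]
  ring

theorem one_lt_det_stretch {n : ℕ} (hn : 0 < n) {R ε : ℝ} (hR : (n : ℝ) < R ^ 2)
    (hε : ε = (R ^ 2 - n) / (n * R ^ 2)) {w : E n} (hw : ‖w‖ = 1) :
    1 < |LinearMap.det (stretch (√(1 - ε)) (√(1 + (R ^ 2 - 1) * ε)) w)| := by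
  have hn1 : (1 : ℝ) ≤ n := by exact_mod_cast hn
  have hR0 : 0 < R ^ 2 := by linarith
  have hn0 : (0 : ℝ) < n := by linarith
  have hε0 : 0 < ε := by
    rw [hε]
    apply div_pos (by linarith) (by positivity)
  have hεn : n * ε < 1 := by
    rw [hε, mul_div_assoc', div_lt_one (by positivity)]
    nlinarith
  have hε1 : ε < 1 := by nlinarith
  have ha : 0 < √(1 - ε) := Real.sqrt_pos.mpr (by linarith)
  have hb : 0 < √(1 + (R ^ 2 - 1) * ε) := Real.sqrt_pos.mpr (by nlinarith)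
  rw [det_stretch ha.ne' _ hw]
  rw [abs_of_pos (by positivity)]
  obtain ⟨m, rfl⟩ : ∃ m, n = m + 1 := ⟨n - 1, by omega⟩
  have h1 : √(1 - ε) ^ (m + 1) * (√(1 + (R ^ 2 - 1) * ε) / √(1 - ε))
      = √(1 - ε) ^ m * √(1 + (R ^ 2 - 1) * ε) := by
    rw [pow_succ]
    field_simp
  rw [h1]
  have h2 : 1 < (√(1 - ε) ^ m * √(1 + (R ^ 2 - 1) * ε)) ^ 2 := by
    rw [mul_pow, ← pow_mul, mul_comm m 2, pow_mul, Real.sq_sqrt (by linarith),
      Real.sq_sqrt (by nlinarith)]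
    have hbern : 1 + m * (-ε) ≤ (1 - ε) ^ m := by
      have := one_add_mul_le_pow (a := -ε) (by linarith) m
      rwa [← sub_eq_add_neg] at this
    have hm0 : (0 : ℝ) ≤ m := by positivity
    push_cast at hR hε hεn hn1
    have h3 : 0 < 1 + (R ^ 2 - 1) * ε := by nlinarith
    have h4 : (1 + m * (-ε)) * (1 + (R ^ 2 - 1) * ε) ≤ (1 - ε) ^ m * (1 + (R ^ 2 - 1) * ε) := by
      gcongr
    refine lt_of_lt_of_le ?_ h4
    have h5 : ε * ((m + 1) * R ^ 2) = R ^ 2 - (m + 1) := by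
      rw [hε]
      exact div_mul_cancel₀ _ (by positivity)
    have h6 : (1 + m * (-ε)) * (1 + (R ^ 2 - 1) * ε)
        = 1 + ε * ((R ^ 2 - (m + 1)) - ε * (m * (R ^ 2 - 1))) := by ring
    rw [h6, ← h5]
    have h7 : 0 < ε * ((m + 1) * R ^ 2) - ε * (m * (R ^ 2 - 1)) := by
      rw [← mul_sub]
      apply mul_pos hε0
      nlinarith
    nlinarith [mul_pos hε0 h7]
  have h8 : 0 ≤ √(1 - ε) ^ m * √(1 + (R ^ 2 - 1) * ε) := by positivity
  nlinarith

theorem stretch_mem {n : ℕ} {R ε : ℝ} (hR1 : 1 ≤ R ^ 2)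
    (hε0 : 0 ≤ ε) (hε1 : ε < 1) {w : E n} (hw : ‖w‖ = 1) {K : Set (E n)}
    (hK : IsClosed K) (hconv : Convex ℝ K) (hball : ∀ x, ‖x‖ ≤ 1 → x ∈ K)
    (hx : R • w ∈ K) (hx' : -(R • w) ∈ K) {z : E n} (hz : ‖z‖ ≤ 1) :
    stretch (√(1 - ε)) (√(1 + (R ^ 2 - 1) * ε)) w z ∈ K := by
  have ha : 0 < √(1 - ε) := Real.sqrt_pos.mpr (by linarith)
  set B := stretch (√(1 - ε)) (√(1 + (R ^ 2 - 1) * ε)) w with hB
  by_contra hcon
  obtain ⟨f, c, hfK, hfz⟩ := geometric_hahn_banach_closed_point hconv hK hcon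
  set ξ := (InnerProductSpace.toDual ℝ (E n)).symm f with hξ
  have hfξ : ∀ y, f y = inner ℝ ξ y := by
    intro y
    rw [hξ, InnerProductSpace.toDual_symm_apply]
  have hc : 0 < c := by
    have := hfK 0 (hball 0 (by simp))
    rwa [map_zero] at this
  have h1 : ‖ξ‖ < c := by
    by_cases h0 : ξ = 0
    · rw [h0, norm_zero]; exact hc
    · have hpos : 0 < ‖ξ‖ := norm_pos_iff.mpr h0
      have := hfK (‖ξ‖⁻¹ • ξ) (hball _ (by rw [norm_smul, norm_inv, norm_norm]; field_simp; rfl))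
      rw [hfξ, real_inner_smul_right, real_inner_self_eq_norm_sq] at this
      have h2 : ‖ξ‖⁻¹ * ‖ξ‖ ^ 2 = ‖ξ‖ := by field_simp
      rwa [h2] at this
  have h2 : (R * inner ℝ w ξ) ^ 2 < c ^ 2 := by
    have h3 := hfK _ hx
    have h4 := hfK _ hx'
    rw [map_neg] at h4
    rw [hfξ, real_inner_smul_right, real_inner_comm] at h3 h4
    rw [sq_lt_sq, abs_of_pos hc, abs_lt]
    constructor <;> linarith
  have h3 : ‖B ξ‖ ^ 2 < c ^ 2 := by
    rw [hB, norm_sq_stretch ha.ne' _ hw, Real.sq_sqrt (by linarith), Real.sq_sqrt (by nlinarith)]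
    have h4 : ‖ξ‖ ^ 2 < c ^ 2 := by
      have := norm_nonneg ξ
      nlinarith
    have h5 : (1 - ε) * ‖ξ‖ ^ 2 + (1 + (R ^ 2 - 1) * ε - (1 - ε)) * inner ℝ w ξ ^ 2
        = (1 - ε) * ‖ξ‖ ^ 2 + ε * (R * inner ℝ w ξ) ^ 2 := by ring
    rw [h5]
    have h6 : (1 - ε) * ‖ξ‖ ^ 2 < (1 - ε) * c ^ 2 := by
      have : 0 < 1 - ε := by linarith
      gcongr
    have h7 : ε * (R * inner ℝ w ξ) ^ 2 ≤ ε * c ^ 2 := by gcongr
    linarith
  have h4 : ‖B ξ‖ < c := by
    have := norm_nonneg (B ξ)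
    nlinarith
  have h5 : f (B z) ≤ ‖B ξ‖ := by
    rw [hfξ, hB, inner_stretch ha.ne']
    calc inner ℝ (B ξ) z ≤ ‖B ξ‖ * ‖z‖ := real_inner_le_norm _ _
      _ ≤ ‖B ξ‖ * 1 := by gcongr
      _ = ‖B ξ‖ := mul_one _
  linarith

theorem john {n : ℕ} (hn : 0 < n) {K : Set (E n)} (hK : IsCompact K) (hconv : Convex ℝ K)
    (hsymm : ∀ x ∈ K, -x ∈ K) (hint : (0 : E n) ∈ interior K) :
    ∃ A : E n ≃ₗ[ℝ] E n, (∀ x, ‖x‖ ≤ 1 → A x ∈ K) ∧ (∀ x, A x ∈ K → ‖x‖ ^ 2 ≤ n) := by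
  obtain ⟨r', hr', hball'⟩ := Metric.isOpen_iff.mp isOpen_interior 0 hint
  set r := r' / 2 with hr
  have hr0 : 0 < r := by positivity
  have hball : ∀ x : E n, ‖x‖ ≤ r → x ∈ K := by
    intro x hx
    apply interior_subset
    apply hball'
    rw [mem_ball_zero_iff]
    linarith
  obtain ⟨M, hM⟩ := hK.isBounded.exists_norm_le
  set S : Set (E n →L[ℝ] E n) := {A | ∀ x, ‖x‖ ≤ 1 → A x ∈ K} with hS
  have hSclosed : IsClosed S := by
    have : S = ⋂ x ∈ {x : E n | ‖x‖ ≤ 1}, {A : E n →L[ℝ] E n | A x ∈ K} := by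
      ext A
      simp [hS]
    rw [this]
    refine isClosed_biInter fun x _ => ?_
    exact hK.isClosed.preimage (ContinuousLinearMap.apply ℝ (E n) x).continuous
  have hSbdd : Bornology.IsBounded S := by
    rw [Metric.isBounded_iff_subset_closedBall 0]
    refine ⟨M, fun A hA => ?_⟩
    rw [mem_closedBall_zero_iff]
    have hM0 : 0 ≤ M := (norm_nonneg _).trans (hM 0 (hball 0 (by simp [hr0.le])))
    refine ContinuousLinearMap.opNorm_le_bound _ hM0 fun x => ?_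
    by_cases hx : x = 0
    · simp [hx]
    · have hpos : 0 < ‖x‖ := norm_pos_iff.mpr hx
      have h1 := hM _ (hA (‖x‖⁻¹ • x) (by rw [norm_smul, norm_inv, norm_norm]; field_simp; rfl))
      rw [map_smul, norm_smul, norm_inv, norm_norm, inv_mul_le_iff₀ hpos] at h1
      linarith
  have hScomp : IsCompact S := Metric.isCompact_of_isClosed_isBounded hSclosed hSbdd
  have hrS : r • ContinuousLinearMap.id ℝ (E n) ∈ S := by
    intro x hx
    apply hball
    show ‖r • x‖ ≤ r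
    rw [norm_smul, Real.norm_of_nonneg hr0.le]
    nlinarith
  have hcont : Continuous fun A : E n →L[ℝ] E n => |A.det| :=
    ContinuousLinearMap.continuous_det.abs
  obtain ⟨A, hAS, hAmax⟩ := hScomp.exists_isMaxOn ⟨_, hrS⟩ hcont.continuousOn
  have hdetpos : 0 < |A.det| := by
    have h1 := hAmax hrS
    refine lt_of_lt_of_le ?_ h1
    rw [abs_pos]
    show LinearMap.det ((r • ContinuousLinearMap.id ℝ (E n) : E n →L[ℝ] E n) : E n →ₗ[ℝ] E n) ≠ 0
    have : ((r • ContinuousLinearMap.id ℝ (E n) : E n →L[ℝ] E n) : E n →ₗ[ℝ] E n)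
        = r • LinearMap.id := rfl
    rw [this, LinearMap.det_smul, LinearMap.det_id, mul_one]
    positivity
  have hdet0 : LinearMap.det (A : E n →ₗ[ℝ] E n) ≠ 0 := abs_pos.mp hdetpos
  set A' : E n ≃ₗ[ℝ] E n := LinearMap.equivOfDetNeZero (A : E n →ₗ[ℝ] E n) hdet0 with hA'
  have hA'A : ∀ x, A' x = A x := fun x => rfl
  refine ⟨A', fun x hx => by rw [hA'A]; exact hAS x hx, fun x hx => ?_⟩
  by_contra hcon
  push Not at hcon
  have hn1 : (1 : ℝ) ≤ n := by exact_mod_cast hn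
  set R := ‖x‖ with hR
  have hR0 : 0 < R := by
    rw [hR, norm_pos_iff]
    rintro rfl
    simp at hR
    rw [hR] at hcon
    norm_num at hcon
    linarith
  set w := R⁻¹ • x with hw
  have hw1 : ‖w‖ = 1 := by
    rw [hw, norm_smul, norm_inv, Real.norm_of_nonneg hR0.le, ← hR]
    field_simp
  have hxw : R • w = x := by
    rw [hw, smul_smul, mul_inv_cancel₀ hR0.ne', one_smul]
  set ε := (R ^ 2 - n) / (n * R ^ 2) with hε
  have hε0 : 0 ≤ ε := div_nonneg (by linarith) (by positivity)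
  have hε1 : ε < 1 := by
    rw [hε, div_lt_one (by positivity)]
    nlinarith [sq_nonneg R]
  set B := stretch (√(1 - ε)) (√(1 + (R ^ 2 - 1) * ε)) w with hB
  have hdetB := one_lt_det_stretch hn hcon hε hw1
  have hAB : A.comp B.toContinuousLinearMap ∈ S := by
    intro z hz
    show A (B z) ∈ K
    have hcl : IsClosed (A ⁻¹' K) := hK.isClosed.preimage A.continuous
    have hcv : Convex ℝ (A ⁻¹' K) := hconv.linear_preimage (A : E n →ₗ[ℝ] E n)
    refine stretch_mem (by linarith) hε0 hε1 hw1 hcl hcv (fun y hy => hAS y hy) ?_ ?_ hz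
    · rw [hxw]; exact hx
    · rw [hxw]
      show A (-x) ∈ K
      rw [map_neg]
      exact hsymm _ hx
  have h1 := hAmax hAB
  have h2 : |(A.comp B.toContinuousLinearMap).det| = |A.det| * |LinearMap.det B| := by
    rw [← abs_mul]
    congr 1
    show LinearMap.det ((A : E n →ₗ[ℝ] E n) ∘ₗ B) = _
    rw [LinearMap.det_comp]
  have h3 : |(A.comp B.toContinuousLinearMap).det| ≤ |A.det| := h1
  rw [h2] at h3
  nlinarith

end MeyerRatio
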