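import Mathlib
import Pool.Agent.Lib.MP_d5c16a_gt.Defs
import Pool.Agent.Lib.MP_d5c16a_gt.Product

/-!
Good bodies have large projection-to-section ratio in all directions.
-/

open MeasureTheory Set ENNReal Pointwise

namespace MeyerRatio

theorem volume_interval_diff {J : Set ℝ} (hJ : IsCompact J) (hJc : Convex ℝ J) (hJn : J.Nonempty)
    (c : ℝ) : volume {s | s ∈ J ∧ s - c ∉ J} ≤ ENNReal.ofReal |c| := by
  have hJ' : J = Set.Icc (sInf J) (sSup J) :=
    eq_Icc_of_connected_compact ⟨hJn, hJc.isPreconnected⟩ hJ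
  set α := sInf J
  set β := sSup J
  rw [hJ']
  rcases le_or_gt 0 c with hc | hc
  · have hsub : {s | s ∈ Set.Icc α β ∧ s - c ∉ Set.Icc α β} ⊆ Set.Icc α (α + c) := by
      rintro s ⟨⟨h1, h2⟩, h3⟩
      refine ⟨h1, ?_⟩
      by_contra h4
      push Not at h4
      exact h3 ⟨by linarith, by linarith⟩
    refine (measure_mono hsub).trans ?_
    rw [Real.volume_Icc, add_sub_cancel_left, abs_of_nonneg hc]
  · have hsub : {s | s ∈ Set.Icc α β ∧ s - c ∉ Set.Icc α β} ⊆ Set.Icc (β + c) β := by
      rintro s ⟨⟨h1, h2⟩, h3⟩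
      refine ⟨?_, h2⟩
      by_contra h4
      push Not at h4
      exact h3 ⟨by linarith, by linarith⟩
    refine (measure_mono hsub).trans ?_
    rw [Real.volume_Icc, abs_of_neg hc]
    apply ENNReal.ofReal_le_ofReal
    linarith

/-- Oblique coordinates. -/
theorem exists_oblique {k : ℕ} {u v : E (k + 1)} (huv : inner ℝ u v ≠ 0)
    {Γ : (ℝ × E k) ≃ₗ[ℝ] E (k + 1)} (hΓu : ∀ p, inner ℝ (Γ p) u = p.1)
    (hΓ : MeasurePreserving Γ volume volume) :
    MeasurePreserving (fun p : ℝ × E k => Γ (0, p.2) + (p.1 / inner ℝ v u) • v) volume volume := by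
  have hvu : inner ℝ v u ≠ 0 := by rwa [real_inner_comm]
  set a := inner ℝ v u with ha
  set w := (Γ.symm v).2 with hw
  have hv : v = Γ (a, w) := by
    have h1 : (Γ.symm v).1 = a := by
      have := hΓu (Γ.symm v)
      rw [Γ.apply_symm_apply] at this
      rw [ha, this]
    rw [← h1, hw, Prod.mk.eta, Γ.apply_symm_apply]
  have hsk : MeasurePreserving (fun p : ℝ × E k => (p.1, (p.1 / a) • w + p.2)) volume volume := by
    rw [Measure.volume_eq_prod]
    refine MeasurePreserving.skew_product (f := id) (g := fun s z => (s / a) • w + z)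
      (MeasurePreserving.id volume) ?_ ?_
    · have : Continuous fun p : ℝ × E k => (p.1 / a) • w + p.2 := by fun_prop
      exact this.measurable
    · refine Filter.Eventually.of_forall fun s => ?_
      exact map_add_left_eq_self volume _
  have hcomp := hΓ.comp hsk
  have heq : (fun p : ℝ × E k => Γ (0, p.2) + (p.1 / a) • v)
      = Γ ∘ (fun p : ℝ × E k => (p.1, (p.1 / a) • w + p.2)) := by
    funext p
    simp only [Function.comp_apply]
    rw [hv, ← map_smul, ← map_add]
    congr 1
    ext
    · simp only [Prod.smul_mk, Prod.mk_add_mk, smul_eq_mul]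
      field_simp
      simp
    · simp only [Prod.smul_mk, Prod.mk_add_mk]
      rw [add_comm]
  rw [heq]
  exact hcomp

theorem shadow_bound {k : ℕ} {K : Set (E (k + 1))} (hK : IsCompact K) (hconv : Convex ℝ K)
    {u v : E (k + 1)} (hu : ‖u‖ = 1) (huv : inner ℝ u v ≠ 0) (τ : ℝ) :
    volume {x | x ∈ K ∧ x - τ • v ∉ K}
      ≤ ENNReal.ofReal |inner ℝ v u * τ| * hypVol u (proj u v '' K) := by
  have hu0 : u ≠ 0 := by
    rintro rfl
    simp at hu
  have hv0 : v ≠ 0 := by
    rintro rfl
    simp at huv
  have hvu : inner ℝ v u ≠ 0 := by rwa [real_inner_comm]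
  obtain ⟨Γ, hΓu, hΓn, hΓ⟩ := exists_frame u hu
  have hT := exists_oblique huv hΓu hΓ
  rw [hypVol_eq_slice hu0 hΓu hΓn]
  set a := inner ℝ v u with ha
  set T : ℝ × E k → E (k + 1) := fun p => Γ (0, p.2) + (p.1 / a) • v with hTdef
  have hΓc := continuous_equiv_fun Γ
  have hTc : Continuous T := by
    have h0 : Continuous fun p : ℝ × E k => Γ (0, p.2) := hΓc.comp (by fun_prop)
    have h1 : Continuous fun p : ℝ × E k => (p.1 / a) • v := by fun_prop
    exact h0.add h1
  have hKm : MeasurableSet K := hK.isClosed.measurableSet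
  have hDm : MeasurableSet {x | x ∈ K ∧ x - τ • v ∉ K} := by
    refine hKm.inter ?_
    have : Measurable fun x : E (k + 1) => x - τ • v := by fun_prop
    exact (this hKm).compl
  have hprojc : Continuous (proj u v) := by
    unfold proj
    fun_prop
  have hPm : MeasurableSet (slice Γ (proj u v '' K) 0) :=
    measurableSet_slice Γ (hK.image hprojc).isClosed.measurableSet 0
  rw [← hT.measure_preimage hDm.nullMeasurableSet, Measure.volume_eq_prod,
    Measure.prod_apply_symm (hTc.measurable hDm)]
  calc ∫⁻ z, volume ((fun s => (s, z)) ⁻¹' (T ⁻¹' {x | x ∈ K ∧ x - τ • v ∉ K}))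
      ≤ ∫⁻ z, (slice Γ (proj u v '' K) 0).indicator (fun _ => ENNReal.ofReal |a * τ|) z := by
        refine lintegral_mono fun z => ?_
        by_cases hz : z ∈ slice Γ (proj u v '' K) 0
        · rw [Set.indicator_of_mem hz]
          have hz' : ∃ t : ℝ, Γ (0, z) + t • v ∈ K :=
            (mem_proj_image_iff huv (hΓu (0, z))).mp hz
          set J : Set ℝ := {s | T (s, z) ∈ K} with hJ
          have hJclosed : IsClosed J := hK.isClosed.preimage (hTc.comp (by fun_prop))
          have hJbdd : Bornology.IsBounded J := by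
            obtain ⟨R, hR⟩ := hK.isBounded.exists_norm_le
            rw [Metric.isBounded_iff_subset_closedBall 0]
            refine ⟨(R + ‖Γ (0, z)‖) * |a| / ‖v‖, fun s hs => ?_⟩
            have h1 : ‖T (s, z)‖ ≤ R := hR _ hs
            rw [mem_closedBall_zero_iff, Real.norm_eq_abs]
            have hvpos : 0 < ‖v‖ := norm_pos_iff.mpr hv0
            have hapos : 0 < |a| := abs_pos.mpr hvu
            rw [le_div_iff₀ hvpos]
            have h2 : ‖(s / a) • v‖ ≤ R + ‖Γ (0, z)‖ := by
              have : (s / a) • v = T (s, z) - Γ (0, z) := by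
                rw [hTdef]; simp
              rw [this]
              exact (norm_sub_le _ _).trans (by gcongr)
            rw [norm_smul, Real.norm_eq_abs, abs_div] at h2
            rw [div_mul_eq_mul_div, div_le_iff₀ hapos] at h2
            exact h2
          have hJcomp : IsCompact J := Metric.isCompact_of_isClosed_isBounded hJclosed hJbdd
          have hJconv : Convex ℝ J := by
            intro s hs s' hs' α β hα hβ hαβ
            have h1 := hconv hs hs' hα hβ hαβ
            show T (α • s + β • s', z) ∈ K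
            have h2 : T (α • s + β • s', z) = α • T (s, z) + β • T (s', z) := by
              simp only [hTdef, smul_add, smul_eq_mul]
              have h3 : Γ (0, z) = α • Γ (0, z) + β • Γ (0, z) := by
                rw [← add_smul, hαβ, one_smul]
              nth_rewrite 1 [h3]
              rw [smul_smul, smul_smul]
              have h4 : (α * s + β * s') / a = α * (s / a) + β * (s' / a) := by ring
              rw [h4, add_smul]
              abel
            rw [h2]
            exact h1
          have hJne : J.Nonempty := by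
            obtain ⟨t, ht⟩ := hz'
            refine ⟨a * t, ?_⟩
            show Γ (0, z) + ((a * t) / a) • v ∈ K
            rw [mul_div_cancel_left₀ _ hvu]
            exact ht
          have hset : (fun s => (s, z)) ⁻¹' (T ⁻¹' {x | x ∈ K ∧ x - τ • v ∉ K})
              = {s | s ∈ J ∧ s - a * τ ∉ J} := by
            ext s
            have h5 : T (s, z) - τ • v = T (s - a * τ, z) := by
              simp only [hTdef]
              have : (s - a * τ) / a = s / a - τ := by
                field_simp
              rw [this, sub_smul]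
              abel
            show (T (s, z) ∈ K ∧ T (s, z) - τ • v ∉ K) ↔ (T (s, z) ∈ K ∧ T (s - a * τ, z) ∉ K)
            rw [h5]
          rw [hset]
          exact volume_interval_diff hJcomp hJconv hJne _
        · rw [Set.indicator_of_notMem hz]
          have : (fun s => (s, z)) ⁻¹' (T ⁻¹' {x | x ∈ K ∧ x - τ • v ∉ K}) = ∅ := by
            ext s
            simp only [Set.mem_preimage, Set.mem_empty_iff_false, iff_false]
            rintro ⟨h1, -⟩
            apply hz
            exact (mem_proj_image_iff huv (hΓu (0, z))).mpr ⟨s / a, h1⟩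
          rw [this]
          simp
    _ = _ := by
        rw [lintegral_indicator hPm, setLIntegral_const]

theorem section_bound {k : ℕ} {r₀ ρ A : ℝ} {K : Set (E (k + 1))} (h : GoodBody (k + 1) r₀ ρ A K)
    {u : E (k + 1)} (hu : ‖u‖ = 1) :
    hypVol u K ≤ ENNReal.ofReal (2 * A) * volume K := by
  have hu0 : u ≠ 0 := by
    rintro rfl
    simp at hu
  obtain ⟨Γ, hΓu, hΓn, hΓ⟩ := exists_frame u hu
  rw [hypVol_eq_slice hu0 hΓu hΓn]
  obtain ⟨r', hr', hball'⟩ := Metric.isOpen_iff.mp isOpen_interior 0 h.zero_mem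
  set r := r' / 2 with hr
  have hr0 : 0 < r := by positivity
  have hball : ∀ x : E (k + 1), ‖x‖ ≤ r → x ∈ K := by
    intro x hx
    apply interior_subset
    apply hball'
    rw [mem_ball_zero_iff]
    linarith
  set θ : ℝ := 1 / (2 * (k + 1)) with hθ
  have hk0 : (0 : ℝ) ≤ k := by positivity
  have hθ0 : 0 < θ := by positivity
  have hθk : k * θ ≤ 1 / 2 := by
    rw [hθ, mul_one_div, div_le_div_iff₀ (by positivity) (by norm_num)]
    linarith
  have hθ1 : θ ≤ 1 / 2 := by
    rw [hθ, div_le_div_iff₀ (by positivity) (by norm_num)]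
    linarith
  have hKm : MeasurableSet K := h.isCompact.isClosed.measurableSet
  have hslab := h.slab u hu 0 (θ * r)
  have hm : MeasurableSet {x : E (k + 1) | |inner ℝ x u - 0| ≤ θ * r} := by
    apply IsClosed.measurableSet
    exact isClosed_le (by fun_prop) continuous_const
  rw [volume_eq_lintegral_slice hΓ (hKm.inter hm)] at hslab
  have hpow : (1 / 2 : ℝ) ≤ (1 - θ) ^ k := by
    have := one_add_mul_le_pow (a := -θ) (by linarith) k
    rw [← sub_eq_add_neg] at this
    refine le_trans ?_ this
    linarith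
  have hlow : ∀ t : ℝ, (Set.Icc (-(θ * r)) (θ * r)).indicator
      (fun _ => ENNReal.ofReal (1 / 2) * volume (slice Γ K 0)) t
      ≤ volume (slice Γ (K ∩ {x | |inner ℝ x u - 0| ≤ θ * r}) t) := by
    intro t
    by_cases ht : t ∈ Set.Icc (-(θ * r)) (θ * r)
    · rw [Set.indicator_of_mem ht]
      have ht' : |t| ≤ θ * r := abs_le.mpr ht
      have hsub : (1 - θ) • slice Γ K 0 ⊆ slice Γ (K ∩ {x | |inner ℝ x u - 0| ≤ θ * r}) t := by
        rintro _ ⟨y, hy, rfl⟩
        refine ⟨?_, ?_⟩
        · have h1 : Γ (t, (1 - θ) • y) = (1 - θ) • Γ (0, y) + θ • Γ (t / θ, 0) := by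
            rw [← map_smul, ← map_smul, ← map_add]
            congr 1
            ext
            · simp only [Prod.smul_mk, Prod.mk_add_mk, smul_eq_mul, mul_zero, zero_add]
              field_simp
            · simp
          show Γ (t, (1 - θ) • y) ∈ K
          rw [h1]
          refine h.convex hy (hball _ ?_) (by linarith) hθ0.le (by ring)
          have h2 := hΓn (t / θ, 0)
          simp only [norm_zero, ne_eq, OfNat.ofNat_ne_zero, not_false_eq_true, zero_pow,
            add_zero] at h2
          rw [← sq_abs (t / θ)] at h2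
          have h3 := (sq_eq_sq₀ (norm_nonneg _) (abs_nonneg _)).mp h2
          rw [h3, abs_div, abs_of_pos hθ0, div_le_iff₀ hθ0]
          linarith
        · show |inner ℝ (Γ (t, (1 - θ) • y)) u - 0| ≤ θ * r
          rw [hΓu, sub_zero]
          exact ht'
      refine le_trans ?_ (measure_mono hsub)
      rw [Measure.addHaar_smul, finrank_euclideanSpace_fin, abs_of_nonneg (by
        have : 0 ≤ 1 - θ := by linarith
        positivity)]
      gcongr
    · rw [Set.indicator_of_notMem ht]
      exact zero_le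
  have h1 := (lintegral_mono hlow).trans hslab
  rw [lintegral_indicator measurableSet_Icc, setLIntegral_const, Real.volume_Icc] at h1
  have h2 : θ * r - -(θ * r) = 2 * (θ * r) := by ring
  rw [h2] at h1
  have hθr : 0 < θ * r := by positivity
  have h3 : ENNReal.ofReal (1 / 2) * volume (slice Γ K 0) * ENNReal.ofReal (2 * (θ * r))
      = ENNReal.ofReal (θ * r) * volume (slice Γ K 0) := by
    rw [mul_right_comm, ← ENNReal.ofReal_mul (by norm_num)]
    congr 2
    ring
  have h4 : ENNReal.ofReal (2 * (θ * r) * A) = ENNReal.ofReal (θ * r) * ENNReal.ofReal (2 * A) := by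
    rw [← ENNReal.ofReal_mul hθr.le]
    congr 1
    ring
  rw [h3, h4, mul_assoc] at h1
  exact (ENNReal.mul_le_mul_iff_right (ENNReal.ofReal_pos.mpr hθr).ne' ENNReal.ofReal_ne_top).mp h1

theorem shadow_lower {k : ℕ} {r₀ ρ A : ℝ} {K : Set (E (k + 1))} (h : GoodBody (k + 1) r₀ ρ A K)
    (hr₀ : 0 ≤ r₀) (hρ : 0 ≤ ρ) (hρ1 : ρ ≤ 1)
    {u v : E (k + 1)} (hu : ‖u‖ = 1) (hv : ‖v‖ = 1) (huv : inner ℝ u v ≠ 0) :
    ENNReal.ofReal (1 - ρ) * volume K ≤ ENNReal.ofReal r₀ * hypVol u (proj u v '' K) := by
  have hKm : MeasurableSet K := h.isCompact.isClosed.measurableSet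
  have h1 := h.overlap (r₀ • v) (by rw [norm_smul, hv, mul_one, Real.norm_of_nonneg hr₀])
  have h2 := shadow_bound h.isCompact h.convex hu huv r₀
  have h3 : volume K ≤ volume (K ∩ (fun x => x - r₀ • v) ⁻¹' K) + volume {x | x ∈ K ∧ x - r₀ • v ∉ K} := by
    refine le_trans (measure_mono ?_) (measure_union_le _ _)
    intro x hx
    by_cases hx' : x - r₀ • v ∈ K
    · exact Or.inl ⟨hx, hx'⟩
    · exact Or.inr ⟨hx, hx'⟩
  have h4 : ENNReal.ofReal |inner ℝ v u * r₀| ≤ ENNReal.ofReal r₀ := by
    apply ENNReal.ofReal_le_ofReal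
    rw [abs_mul, abs_of_nonneg hr₀]
    have : |inner ℝ v u| ≤ ‖v‖ * ‖u‖ := abs_real_inner_le_norm v u
    rw [hu, hv, mul_one] at this
    calc |inner ℝ v u| * r₀ ≤ 1 * r₀ := by gcongr
      _ = r₀ := one_mul _
  have h5 : volume K ≤ ENNReal.ofReal ρ * volume K
      + ENNReal.ofReal r₀ * hypVol u (proj u v '' K) := by
    refine h3.trans (add_le_add h1 (h2.trans ?_))
    gcongr
  have h6 : volume K = ENNReal.ofReal ρ * volume K + ENNReal.ofReal (1 - ρ) * volume K := by
    rw [← add_mul, ← ENNReal.ofReal_add hρ (by linarith)]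
    simp
  nth_rewrite 1 [h6] at h5
  exact (ENNReal.add_le_add_iff_left (ENNReal.mul_ne_top ENNReal.ofReal_ne_top h.volume_ne_top)).mp h5

theorem lower_ratio {k : ℕ} {r₀ ρ A : ℝ} {K : Set (E (k + 1))} (h : GoodBody (k + 1) r₀ ρ A K)
    (hr₀ : 0 < r₀) (hρ : 0 ≤ ρ) (hρ1 : ρ ≤ 1) (hA : 0 < A)
    {u v : E (k + 1)} (hu : ‖u‖ = 1) (hv : ‖v‖ = 1) (huv : inner ℝ u v ≠ 0) :
    ENNReal.ofReal ((1 - ρ) / (2 * A * r₀)) * hypVol u K ≤ hypVol u (proj u v '' K) := by
  have h1 := shadow_lower h hr₀.le hρ hρ1 hu hv huv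
  have h2 := section_bound h hu
  have hr : ENNReal.ofReal r₀ ≠ 0 := (ENNReal.ofReal_pos.mpr hr₀).ne'
  rw [← ENNReal.mul_le_mul_iff_right hr ENNReal.ofReal_ne_top]
  refine le_trans ?_ h1
  calc ENNReal.ofReal r₀ * (ENNReal.ofReal ((1 - ρ) / (2 * A * r₀)) * hypVol u K)
      ≤ ENNReal.ofReal r₀ * (ENNReal.ofReal ((1 - ρ) / (2 * A * r₀)) *
          (ENNReal.ofReal (2 * A) * volume K)) := by gcongr
    _ = ENNReal.ofReal (1 - ρ) * volume K := by
        have h0 : 0 ≤ (1 - ρ) / (2 * A * r₀) := div_nonneg (by linarith) (by positivity)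
        rw [← mul_assoc, ← mul_assoc, ← ENNReal.ofReal_mul hr₀.le,
          ← ENNReal.ofReal_mul (mul_nonneg hr₀.le h0)]
        congr 2
        field_simp

end MeyerRatio
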