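import Mathlib
import Pool.Agent.Lib.MP_d5c16a_gt.Defs
import Pool.Agent.Lib.MP_d5c16a_gt.John

/-!
The upper bound: in the position of the maximal volume ellipsoid some coordinate direction has
small projection-to-section ratio.
-/

open MeasureTheory Set ENNReal Pointwise

namespace MeyerRatio

/-- The shadow of `S` in the frame `Γ`. -/
def shadow {k : ℕ} (Γ : (ℝ × E k) ≃ₗ[ℝ] E (k + 1)) (S : Set (E (k + 1))) : Set (E k) :=
  {y | ∃ t : ℝ, Γ (t, y) ∈ S}

theorem volume_interval_add {J J' : Set ℝ} (hJ : IsCompact J) (hJc : Convex ℝ J) (hJn : J.Nonempty)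
    {ε : ℝ} (hε : 0 ≤ ε) (hadd : ∀ x ∈ J, ∀ s : ℝ, |s| ≤ ε → s + x ∈ J') :
    volume J + ENNReal.ofReal (2 * ε) ≤ volume J' := by
  have hJ' : J = Set.Icc (sInf J) (sSup J) :=
    eq_Icc_of_connected_compact ⟨hJn, hJc.isPreconnected⟩ hJ
  have hle : sInf J ≤ sSup J := by
    have := hJ.sInf_mem hJn
    rw [hJ'] at this
    exact this.1.trans this.2
  set α := sInf J
  set β := sSup J
  have hsub : Set.Icc (α - ε) (β + ε) ⊆ J' := by
    rintro t ⟨h1, h2⟩
    have h3 : max α (min β t) ∈ J := by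
      rw [hJ']
      exact ⟨le_max_left _ _, max_le hle (min_le_left _ _)⟩
    have h4 := hadd _ h3 (t - max α (min β t)) (by
      rw [abs_le]
      rcases le_total β t with h | h
      · rw [min_eq_left h, max_eq_right hle]; constructor <;> linarith
      · rw [min_eq_right h]
        rcases le_total α t with h' | h'
        · rw [max_eq_right h']; constructor <;> linarith
        · rw [max_eq_left h']; constructor <;> linarith)
    rwa [sub_add_cancel] at h4
  refine le_trans ?_ (measure_mono hsub)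
  rw [hJ', Real.volume_Icc, Real.volume_Icc, ← ENNReal.ofReal_add (by linarith) (by linarith)]
  apply ENNReal.ofReal_le_ofReal
  linarith

theorem isCompact_shadow {k : ℕ} (Γ : (ℝ × E k) ≃ₗ[ℝ] E (k + 1)) {L : Set (E (k + 1))}
    (hL : IsCompact L) : IsCompact (shadow Γ L) := by
  have h1 : shadow Γ L = (fun x => (Γ.symm x).2) '' L := by
    ext y
    constructor
    · rintro ⟨t, ht⟩
      exact ⟨_, ht, by simp⟩
    · rintro ⟨x, hx, rfl⟩
      exact ⟨(Γ.symm x).1, by simpa using hx⟩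
  rw [h1]
  have h2 : Continuous Γ.symm := LinearMap.continuous_of_finiteDimensional Γ.symm.toLinearMap
  exact hL.image (continuous_snd.comp h2)

theorem volume_add_segment {k : ℕ} {Γ : (ℝ × E k) ≃ₗ[ℝ] E (k + 1)}
    (hΓ : MeasurePreserving Γ volume volume) {L L' : Set (E (k + 1))} (hL : IsCompact L)
    (hconv : Convex ℝ L) (hL' : MeasurableSet L') {ε : ℝ} (hε : 0 ≤ ε)
    (hadd : ∀ x ∈ L, ∀ s : ℝ, |s| ≤ ε → x + Γ (s, 0) ∈ L') :
    volume L + ENNReal.ofReal (2 * ε) * volume (shadow Γ L) ≤ volume L' := by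
  have hLm : MeasurableSet L := hL.isClosed.measurableSet
  have hSm : MeasurableSet (shadow Γ L) := (isCompact_shadow Γ hL).isClosed.measurableSet
  have hΓc := continuous_equiv_fun Γ
  have hslice : ∀ S : Set (E (k + 1)), MeasurableSet S →
      volume S = ∫⁻ y, volume ((fun s => (s, y)) ⁻¹' (Γ ⁻¹' S)) := by
    intro S hS
    rw [← hΓ.measure_preimage hS.nullMeasurableSet, Measure.volume_eq_prod,
      Measure.prod_apply_symm (measurable_equiv_fun Γ hS)]
  rw [hslice L hLm, hslice L' hL', ← setLIntegral_const, ← lintegral_indicator hSm,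
    ← lintegral_add_left (measurable_measure_prodMk_right (measurable_equiv_fun Γ hLm))]
  refine lintegral_mono fun y => ?_
  by_cases hy : y ∈ shadow Γ L
  · rw [Set.indicator_of_mem hy]
    have hc1 : Continuous fun s : ℝ => Γ (s, y) := hΓc.comp (by fun_prop)
    have hJ : (fun s => (s, y)) ⁻¹' (Γ ⁻¹' L) = {s | Γ (s, y) ∈ L} := rfl
    have hJ' : (fun s => (s, y)) ⁻¹' (Γ ⁻¹' L') = {s | Γ (s, y) ∈ L'} := rfl
    rw [hJ, hJ']
    refine volume_interval_add (J := {s | Γ (s, y) ∈ L}) (J' := {s | Γ (s, y) ∈ L'}) ?_ ?_ hy hε ?_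
    · have h1 : {s | Γ (s, y) ∈ L} = (fun x => (Γ.symm x).1) '' (L ∩ {x | (Γ.symm x).2 = y}) := by
        ext s
        constructor
        · intro hs
          exact ⟨Γ (s, y), ⟨hs, by simp⟩, by simp⟩
        · rintro ⟨x, ⟨hx, hxy⟩, rfl⟩
          have hxy' : (Γ.symm x).2 = y := hxy
          show Γ ((Γ.symm x).1, y) ∈ L
          rw [← hxy', Prod.mk.eta, Γ.apply_symm_apply]
          exact hx
      rw [h1]
      have h2 : Continuous Γ.symm := LinearMap.continuous_of_finiteDimensional Γ.symm.toLinearMap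
      refine IsCompact.image ?_ (continuous_fst.comp h2)
      refine hL.inter_right ?_
      exact isClosed_eq (continuous_snd.comp h2) continuous_const
    · intro s hs s' hs' α β hα hβ hαβ
      have h1 := hconv hs hs' hα hβ hαβ
      show Γ (α • s + β • s', y) ∈ L
      have h2 : Γ (α • s + β • s', y) = α • Γ (s, y) + β • Γ (s', y) := by
        rw [← map_smul, ← map_smul, ← map_add]
        congr 1
        ext
        · simp
        · simp only [Prod.smul_mk, Prod.mk_add_mk]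
          rw [← add_smul, hαβ, one_smul]
      rw [h2]
      exact h1
    · intro x hx s hs
      have h1 := hadd _ hx s hs
      show Γ (s + x, y) ∈ L'
      have h2 : Γ (s + x, y) = Γ (x, y) + Γ (s, 0) := by
        rw [← map_add]
        congr 1
        ext
        · simp [add_comm]
        · simp
      rw [h2]
      exact h1
  · rw [Set.indicator_of_notMem hy, add_zero]
    have : (fun s => (s, y)) ⁻¹' (Γ ⁻¹' L) = ∅ := by
      ext s
      simp only [Set.mem_preimage, Set.mem_empty_iff_false, iff_false]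
      intro hs
      exact hy ⟨s, hs⟩
    rw [this]
    simp

/-- Coordinate boxes. -/
def cbox {n : ℕ} (ε : ℝ) (s : Finset (Fin n)) : Set (E n) :=
  {y | ∀ i, |y i| ≤ if i ∈ s then ε else 0}

theorem norm_cbox_le {n : ℕ} {ε : ℝ} (hε : 0 ≤ ε) {s : Finset (Fin n)} {y : E n}
    (hy : y ∈ cbox ε s) : ‖y‖ ≤ √n * ε := by
  rw [EuclideanSpace.norm_eq]
  have h1 : ∑ i, ‖y i‖ ^ 2 ≤ n * ε ^ 2 := by
    calc ∑ i, ‖y i‖ ^ 2 ≤ ∑ _i : Fin n, ε ^ 2 := by
          refine Finset.sum_le_sum fun i _ => ?_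
          have h2 : |y i| ≤ ε := (hy i).trans (by split_ifs <;> linarith)
          rw [Real.norm_eq_abs]
          exact pow_le_pow_left₀ (abs_nonneg _) h2 2
      _ = n * ε ^ 2 := by simp
  calc √(∑ i, ‖y i‖ ^ 2) ≤ √(n * ε ^ 2) := Real.sqrt_le_sqrt h1
    _ = √n * ε := by rw [Real.sqrt_mul (by positivity), Real.sqrt_sq hε]

theorem isCompact_cbox {n : ℕ} {ε : ℝ} (hε : 0 ≤ ε) (s : Finset (Fin n)) :
    IsCompact (cbox ε s : Set (E n)) := by
  refine Metric.isCompact_of_isClosed_isBounded ?_ ?_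
  · have : (cbox ε s : Set (E n)) = ⋂ i, {y | |y i| ≤ if i ∈ s then ε else 0} := by
      ext y; simp [cbox]
    rw [this]
    refine isClosed_iInter fun i => ?_
    exact isClosed_le (by fun_prop) continuous_const
  · rw [Metric.isBounded_iff_subset_closedBall 0]
    refine ⟨√n * ε, fun y hy => ?_⟩
    rw [mem_closedBall_zero_iff]
    exact norm_cbox_le hε hy

theorem convex_cbox {n : ℕ} (ε : ℝ) (s : Finset (Fin n)) : Convex ℝ (cbox ε s : Set (E n)) := by
  intro x hx y hy a b ha hb hab i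
  have h1 := hx i
  have h2 := hy i
  set c : ℝ := if i ∈ s then ε else 0
  have h3 : (a • x + b • y) i = a * x i + b * y i := by simp
  rw [h3]
  calc |a * x i + b * y i| ≤ |a * x i| + |b * y i| := abs_add_le _ _
    _ = a * |x i| + b * |y i| := by rw [abs_mul, abs_mul, abs_of_nonneg ha, abs_of_nonneg hb]
    _ ≤ a * c + b * c := by gcongr
    _ = c := by rw [← add_mul, hab, one_mul]

/-- Frames at the coordinate vectors. -/
theorem exists_coord_frames (k : ℕ) :
    ∃ Γ : Fin (k + 1) → ((ℝ × E k) ≃ₗ[ℝ] E (k + 1)),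
      (∀ i p, inner ℝ (Γ i p) (EuclideanSpace.single i (1 : ℝ)) = p.1) ∧
      (∀ i p, ‖Γ i p‖ ^ 2 = p.1 ^ 2 + ‖p.2‖ ^ 2) ∧
      (∀ i, MeasurePreserving (Γ i) volume volume) := by
  have h : ∀ i : Fin (k + 1), ∃ Γ : (ℝ × E k) ≃ₗ[ℝ] E (k + 1),
      (∀ p, inner ℝ (Γ p) (EuclideanSpace.single i (1 : ℝ)) = p.1) ∧
      (∀ p, ‖Γ p‖ ^ 2 = p.1 ^ 2 + ‖p.2‖ ^ 2) ∧ MeasurePreserving Γ volume volume :=
    fun i => exists_frame _ (by simp)
  choose Γ h1 h2 h3 using h
  exact ⟨Γ, h1, h2, h3⟩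

theorem frame_axis {k : ℕ} {u : E (k + 1)} (hu : ‖u‖ = 1)
    {Γ : (ℝ × E k) ≃ₗ[ℝ] E (k + 1)} (hΓu : ∀ p, inner ℝ (Γ p) u = p.1)
    (hΓn : ∀ p, ‖Γ p‖ ^ 2 = p.1 ^ 2 + ‖p.2‖ ^ 2) (s : ℝ) : Γ (s, 0) = s • u := by
  have h1 : ‖Γ (s, 0) - s • u‖ ^ 2 = 0 := by
    rw [norm_sub_sq_real, hΓn, real_inner_smul_right, hΓu, norm_smul, hu, mul_one,
      Real.norm_eq_abs, sq_abs]
    simp only [norm_zero]
    ring
  have h2 : ‖Γ (s, 0) - s • u‖ = 0 := by
    exact pow_eq_zero_iff (two_ne_zero) |>.mp h1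
  exact sub_eq_zero.mp (norm_eq_zero.mp h2)

theorem volume_add_cbox {k : ℕ} {Γ : Fin (k + 1) → ((ℝ × E k) ≃ₗ[ℝ] E (k + 1))}
    (hΓu : ∀ i p, inner ℝ (Γ i p) (EuclideanSpace.single i (1 : ℝ)) = p.1)
    (hΓn : ∀ i p, ‖Γ i p‖ ^ 2 = p.1 ^ 2 + ‖p.2‖ ^ 2)
    (hΓ : ∀ i, MeasurePreserving (Γ i) volume volume)
    {K : Set (E (k + 1))} (hK : IsCompact K) (hconv : Convex ℝ K) {ε : ℝ} (hε : 0 ≤ ε)
    (s : Finset (Fin (k + 1))) :
    volume K + ∑ i ∈ s, ENNReal.ofReal (2 * ε) * volume (shadow (Γ i) K)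
      ≤ volume (K + cbox ε s) := by
  classical
  induction s using Finset.induction_on with
  | empty =>
    rw [Finset.sum_empty, add_zero]
    refine measure_mono fun x hx => ?_
    exact ⟨x, hx, 0, fun i => by simp, by simp⟩
  | insert j s hj ih =>
    rw [Finset.sum_insert hj, add_comm (ENNReal.ofReal (2 * ε) * _), ← add_assoc]
    have hLc : IsCompact (K + cbox ε s) := hK.add (isCompact_cbox hε s)
    have hLconv : Convex ℝ (K + cbox ε s) := hconv.add (convex_cbox ε s)
    have hL'c : IsCompact (K + cbox ε (insert j s)) := hK.add (isCompact_cbox hε _)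
    have h1 := volume_add_segment (hΓ j) hLc hLconv (L' := K + cbox ε (insert j s))
      hL'c.isClosed.measurableSet hε (by
        rintro x ⟨a, ha, y, hy, rfl⟩ t ht
        refine ⟨a, ha, y + Γ j (t, 0), ?_, by simp [add_assoc]⟩
        rw [frame_axis (by simp) (hΓu j) (hΓn j)]
        intro i
        have hyi := hy i
        by_cases hij : i = j
        · subst hij
          simp only [hj, if_false] at hyi
          have hy0 : y i = 0 := abs_nonpos_iff.mp hyi
          simp [hy0, ht]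
        · have : (y + t • EuclideanSpace.single j (1 : ℝ) : E (k + 1)) i = y i := by
            simp [hij]
          rw [this]
          simp only [Finset.mem_insert, hij, false_or]
          exact hyi)
    refine le_trans (add_le_add ih ?_) h1
    refine mul_le_mul' le_rfl (measure_mono ?_)
    rintro y ⟨t, ht⟩
    exact ⟨t, _, ht, 0, fun i => by
      have : (0 : E (k + 1)) i = 0 := rfl
      rw [this, abs_zero]
      split_ifs
      · exact hε
      · exact le_rfl, by simp⟩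

theorem add_cbox_subset {n : ℕ} (hn : 0 < n) {K : Set (E n)} (hconv : Convex ℝ K)
    (hball : ∀ x, ‖x‖ ≤ 1 → x ∈ K) {ε : ℝ} (hε : 0 < ε) (s : Finset (Fin n)) :
    K + cbox ε s ⊆ (1 + √n * ε) • K := by
  have hn0 : 0 < √(n : ℝ) := Real.sqrt_pos.mpr (by exact_mod_cast hn)
  set c := √n * ε with hc
  have hc0 : 0 < c := by positivity
  rintro _ ⟨x, hx, y, hy, rfl⟩
  have h1 := norm_cbox_le hε.le hy
  have hz : c⁻¹ • y ∈ K := by
    apply hball
    rw [norm_smul, norm_inv, Real.norm_of_nonneg hc0.le, inv_mul_le_iff₀ hc0, mul_one]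
    exact h1
  have hpos : 0 < 1 + c := by positivity
  refine ⟨(1 / (1 + c)) • x + (c / (1 + c)) • (c⁻¹ • y), ?_, ?_⟩
  · exact hconv hx hz (by positivity) (by positivity) (by field_simp)
  · show (1 + c) • ((1 / (1 + c)) • x + (c / (1 + c)) • (c⁻¹ • y)) = x + y
    rw [smul_add, smul_smul, smul_smul, smul_smul]
    have h2 : (1 + c) * (1 / (1 + c)) = 1 := by field_simp
    have h3 : (1 + c) * (c / (1 + c)) * c⁻¹ = 1 := by field_simp
    rw [h2, h3, one_smul, one_smul]

theorem sum_shadow_le {k : ℕ} {Γ : Fin (k + 1) → ((ℝ × E k) ≃ₗ[ℝ] E (k + 1))}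
    (hΓu : ∀ i p, inner ℝ (Γ i p) (EuclideanSpace.single i (1 : ℝ)) = p.1)
    (hΓn : ∀ i p, ‖Γ i p‖ ^ 2 = p.1 ^ 2 + ‖p.2‖ ^ 2)
    (hΓ : ∀ i, MeasurePreserving (Γ i) volume volume)
    {K : Set (E (k + 1))} (hK : IsCompact K) (hconv : Convex ℝ K)
    (hball : ∀ x, ‖x‖ ≤ 1 → x ∈ K) :
    ∑ i, (volume (shadow (Γ i) K)).toReal ≤ (k + 1) * √(k + 1) * (volume K).toReal := by
  set n : ℝ := (k : ℝ) + 1 with hn
  have hn0 : 0 < n := by positivity
  have hsn : 0 < √n := Real.sqrt_pos.mpr hn0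
  set ε : ℝ := 1 / (n * √n) with hε
  have hε0 : 0 < ε := by positivity
  have h1 := volume_add_cbox hΓu hΓn hΓ hK hconv hε0.le Finset.univ
  have h2 := add_cbox_subset (Nat.succ_pos k) hconv hball hε0 Finset.univ
  have h3 := h1.trans (measure_mono h2)
  have hcast : ((k + 1 : ℕ) : ℝ) = n := by push_cast; rfl
  rw [hcast, Measure.addHaar_smul, finrank_euclideanSpace_fin] at h3
  have hKfin : volume K ≠ ∞ := hK.measure_lt_top.ne
  have hPfin : ∀ i, volume (shadow (Γ i) K) ≠ ∞ := fun i =>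
    (isCompact_shadow (Γ i) hK).measure_lt_top.ne
  have hne : √n * ε = 1 / n := by
    rw [hε]; field_simp
  rw [hne, ← Finset.mul_sum] at h3
  have h4 := ENNReal.toReal_mono (ENNReal.mul_ne_top ENNReal.ofReal_ne_top hKfin) h3
  rw [ENNReal.toReal_add hKfin (ENNReal.mul_ne_top ENNReal.ofReal_ne_top
    (ENNReal.sum_ne_top.mpr fun i _ => hPfin i)), ENNReal.toReal_mul, ENNReal.toReal_mul,
    ENNReal.toReal_ofReal (by positivity), ENNReal.toReal_ofReal (by positivity),
    ENNReal.toReal_sum (fun i _ => hPfin i)] at h4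
  set V := (volume K).toReal with hV
  have hV0 : 0 ≤ V := ENNReal.toReal_nonneg
  set P := ∑ i, (volume (shadow (Γ i) K)).toReal with hP
  have h5 : |(1 + 1 / n) ^ (k + 1)| ≤ 3 := by
    rw [abs_of_nonneg (by positivity)]
    have h6 : (1 + 1 / n) ≤ Real.exp (1 / n) := by
      linarith [Real.add_one_le_exp (1 / n)]
    calc (1 + 1 / n) ^ (k + 1) ≤ (Real.exp (1 / n)) ^ (k + 1) := by gcongr
      _ = Real.exp 1 := by
          rw [← Real.exp_nat_mul, hcast]
          congr 1
          field_simp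
      _ ≤ 3 := by
          have := Real.exp_one_lt_d9
          linarith
  have h7 : V + 2 * ε * P ≤ 3 * V := h4.trans (by gcongr)
  have h8 : ε * P ≤ V := by linarith
  rw [hε] at h8
  rw [one_div, inv_mul_le_iff₀ (by positivity)] at h8
  exact h8

theorem sum_moment_le {k : ℕ} {K : Set (E (k + 1))} (hKm : MeasurableSet K)
    (hout : ∀ x ∈ K, ‖x‖ ^ 2 ≤ ((k + 1 : ℕ) : ℝ)) :
    ∑ i : Fin (k + 1), ∫⁻ x in K, ENNReal.ofReal ((inner ℝ x (EuclideanSpace.single i (1 : ℝ))) ^ 2)
      ≤ ENNReal.ofReal (k + 1) * volume K := by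
  have hmeas : ∀ i : Fin (k + 1), Measurable fun x : E (k + 1) =>
      ENNReal.ofReal ((inner ℝ x (EuclideanSpace.single i (1 : ℝ))) ^ 2) := by
    intro i
    have : Continuous fun x : E (k + 1) => inner ℝ x (EuclideanSpace.single i (1 : ℝ)) := by
      fun_prop
    exact ENNReal.measurable_ofReal.comp (this.pow 2).measurable
  rw [← lintegral_finsetSum _ fun i _ => hmeas i]
  calc ∫⁻ x in K, ∑ i : Fin (k + 1),
        ENNReal.ofReal ((inner ℝ x (EuclideanSpace.single i (1 : ℝ))) ^ 2)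
      ≤ ∫⁻ _x in K, ENNReal.ofReal (k + 1) := by
        refine setLIntegral_mono' hKm fun x hx => ?_
        rw [← ENNReal.ofReal_sum_of_nonneg (fun i _ => sq_nonneg _)]
        apply ENNReal.ofReal_le_ofReal
        have h1 : ∑ i : Fin (k + 1), (inner ℝ x (EuclideanSpace.single i (1 : ℝ))) ^ 2
            = ‖x‖ ^ 2 := by
          rw [EuclideanSpace.norm_sq_eq]
          refine Finset.sum_congr rfl fun i _ => ?_
          rw [EuclideanSpace.inner_single_right]
          simp
        rw [h1]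
        have := hout x hx
        push_cast at this
        exact this
    _ = _ := by rw [setLIntegral_const]

theorem exists_direction {k : ℕ} {K : Set (E (k + 1))} (hK : IsCompact K) (hconv : Convex ℝ K)
    (hsymm : ∀ x ∈ K, -x ∈ K) (hball : ∀ x, ‖x‖ ≤ 1 → x ∈ K)
    (hout : ∀ x ∈ K, ‖x‖ ^ 2 ≤ ((k + 1 : ℕ) : ℝ)) :
    ∃ Γ : (ℝ × E k) ≃ₗ[ℝ] E (k + 1),
      volume (shadow Γ K) ≤ ENNReal.ofReal (17 * √(k + 1)) * volume (slice Γ K 0) := by
  obtain ⟨Γ, hΓu, hΓn, hΓ⟩ := exists_coord_frames k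
  have hKm : MeasurableSet K := hK.isClosed.measurableSet
  have hKfin : volume K ≠ ∞ := hK.measure_lt_top.ne
  have h1 := sum_shadow_le hΓu hΓn hΓ hK hconv hball
  have h2 := sum_moment_le hKm hout
  set V := (volume K).toReal with hV
  have hV0 : 0 ≤ V := ENNReal.toReal_nonneg
  set q : Fin (k + 1) → ℝ≥0∞ := fun i =>
    ∫⁻ x in K, ENNReal.ofReal ((inner ℝ x (EuclideanSpace.single i (1 : ℝ))) ^ 2) with hq
  have hrhs : ENNReal.ofReal (k + 1) * volume K ≠ ∞ :=
    ENNReal.mul_ne_top ENNReal.ofReal_ne_top hKfin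
  have hqfin : ∀ i, q i ≠ ∞ := by
    intro i
    refine ne_top_of_le_ne_top hrhs (le_trans ?_ h2)
    exact Finset.single_le_sum (f := q) (fun _ _ => zero_le) (Finset.mem_univ i)
  have h3 : ∑ i, (q i).toReal ≤ (k + 1) * V := by
    have := ENNReal.toReal_mono hrhs h2
    rw [ENNReal.toReal_mul, ENNReal.toReal_ofReal (by positivity),
      ENNReal.toReal_sum (fun i _ => hqfin i)] at this
    exact this
  set n : ℝ := (k : ℝ) + 1 with hn
  have hn0 : 0 < n := by positivity
  have hsn : 0 < √n := Real.sqrt_pos.mpr hn0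
  have h4 : ∑ i, ((volume (shadow (Γ i) K)).toReal / √n + (q i).toReal)
      ≤ ∑ _i : Fin (k + 1), 2 * V := by
    rw [Finset.sum_add_distrib, ← Finset.sum_div, Finset.sum_const, Finset.card_univ,
      Fintype.card_fin, nsmul_eq_mul]
    have h5 : (∑ i, (volume (shadow (Γ i) K)).toReal) / √n ≤ n * V := by
      rw [div_le_iff₀ hsn]
      calc _ ≤ n * √n * V := h1
        _ = n * V * √n := by ring
    have hcast : ((k + 1 : ℕ) : ℝ) = n := by push_cast; rfl
    rw [hcast]
    linarith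
  obtain ⟨i, -, hi⟩ := Finset.exists_le_of_sum_le Finset.univ_nonempty h4
  refine ⟨Γ i, ?_⟩
  have hp0 : 0 ≤ (volume (shadow (Γ i) K)).toReal := ENNReal.toReal_nonneg
  have hq0 : 0 ≤ (q i).toReal := ENNReal.toReal_nonneg
  have hPi : (volume (shadow (Γ i) K)).toReal ≤ 2 * √n * V := by
    have h5 : (volume (shadow (Γ i) K)).toReal / √n ≤ 2 * V := by linarith
    rw [div_le_iff₀ hsn] at h5
    linarith
  have hqi : (q i).toReal ≤ 2 * V := by
    have : 0 ≤ (volume (shadow (Γ i) K)).toReal / √n := by positivity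
    linarith
  have hmom : q i ≤ ENNReal.ofReal (√2 ^ 2) * volume K := by
    rw [← ENNReal.ofReal_toReal (hqfin i), ← ENNReal.ofReal_toReal hKfin,
      ← ENNReal.ofReal_mul (by positivity), Real.sq_sqrt (by norm_num)]
    exact ENNReal.ofReal_le_ofReal hqi
  have h6 := volume_le_of_second_moment (hΓu i) (hΓ i) hKm hconv hsymm hKfin
    (σ := √2) (by positivity) hmom
  have h7 : volume (shadow (Γ i) K) ≤ ENNReal.ofReal (2 * √n) * volume K := by
    rw [← ENNReal.ofReal_toReal (isCompact_shadow (Γ i) hK).measure_lt_top.ne]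
    rw [← ENNReal.ofReal_toReal hKfin, ← ENNReal.ofReal_mul (by positivity)]
    exact ENNReal.ofReal_le_ofReal hPi
  calc volume (shadow (Γ i) K) ≤ ENNReal.ofReal (2 * √n) * volume K := h7
    _ ≤ ENNReal.ofReal (2 * √n) * (ENNReal.ofReal (6 * √2) * volume (slice (Γ i) K 0)) := by
        gcongr
    _ ≤ ENNReal.ofReal (17 * √n) * volume (slice (Γ i) K 0) := by
        rw [← mul_assoc, ← ENNReal.ofReal_mul (by positivity)]
        refine mul_le_mul' (ENNReal.ofReal_le_ofReal ?_) le_rfl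
        have h8 : √2 ≤ 17 / 12 := by
          rw [Real.sqrt_le_left (by norm_num)]
          norm_num
        nlinarith

end MeyerRatio
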