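import Mathlib
import Pool.Agent.Lib.MP_d5c16a_gt.Exists
import Pool.Agent.Lib.MP_d5c16a_gt.Lower
import Pool.Agent.Lib.MP_d5c16a_gt.Upper

/-!
Linear transport and the two bounds.
-/

open MeasureTheory Set ENNReal Pointwise

namespace MeyerRatio

theorem zero_mem_interior {n : ℕ} {K : Set (E n)} (h : IsSymmBody K) : (0 : E n) ∈ interior K := by
  obtain ⟨x, hx⟩ := h.nonempty_interior
  have hneg : -x ∈ K := h.symm x (interior_subset hx)
  have h1 := h.convex.combo_interior_self_mem_interior hx hneg (a := 1 / 2) (b := 1 / 2)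
    (by norm_num) (by norm_num) (by norm_num)
  have h2 : (1 / 2 : ℝ) • x + (1 / 2 : ℝ) • -x = 0 := by
    rw [smul_neg, add_neg_cancel]
  rwa [h2] at h1

/-- The measure on the hyperplane in arbitrary linear coordinates. -/
theorem exists_hyperplane_coords {k : ℕ} (Λ : (ℝ × E k) ≃ₗ[ℝ] E (k + 1)) :
    ∃ u v : E (k + 1), ‖u‖ = 1 ∧ ‖v‖ = 1 ∧ inner ℝ u v ≠ 0 ∧ ∃ c : ℝ≥0∞,
      (∀ X : Set (E (k + 1)), MeasurableSet X → hypVol u X = c * volume (slice Λ X 0)) ∧
      (∀ K : Set (E (k + 1)), slice Λ (proj u v '' K) 0 = shadow Λ K) := by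
  set b := Λ (1, 0) with hb
  have hb0 : b ≠ 0 := by
    intro h
    have : ((1 : ℝ), (0 : E k)) = 0 := Λ.injective (by rw [map_zero]; exact h)
    have h1 := congrArg Prod.fst this
    simp at h1
  have hbpos : 0 < ‖b‖ := norm_pos_iff.mpr hb0
  let φ : E (k + 1) →ₗ[ℝ] ℝ := LinearMap.fst ℝ ℝ (E k) ∘ₗ Λ.symm.toLinearMap
  set η := (InnerProductSpace.toDual ℝ (E (k + 1))).symm φ.toContinuousLinearMap with hη
  have hηφ : ∀ y, inner ℝ η y = (Λ.symm y).1 := by
    intro y
    rw [hη, InnerProductSpace.toDual_symm_apply]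
    rfl
  have hηb : inner ℝ η b = 1 := by rw [hηφ, hb]; simp
  have hη0 : η ≠ 0 := by
    intro h
    rw [h, inner_zero_left] at hηb
    norm_num at hηb
  have hηpos : 0 < ‖η‖ := norm_pos_iff.mpr hη0
  set u := ‖η‖⁻¹ • η with hu
  set v := ‖b‖⁻¹ • b with hv
  have hu1 : ‖u‖ = 1 := by
    rw [hu, norm_smul, norm_inv, norm_norm]
    field_simp
  have hv1 : ‖v‖ = 1 := by
    rw [hv, norm_smul, norm_inv, norm_norm]
    field_simp
  have hu0 : u ≠ 0 := by
    rintro h
    rw [h, norm_zero] at hu1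
    norm_num at hu1
  have huv : inner ℝ u v ≠ 0 := by
    rw [hu, hv, real_inner_smul_left, real_inner_smul_right, hηb]
    positivity
  have horth : ∀ x, inner ℝ x u = 0 ↔ (Λ.symm x).1 = 0 := by
    intro x
    rw [real_inner_comm, hu, real_inner_smul_left, hηφ]
    constructor
    · intro h
      rcases mul_eq_zero.mp h with h | h
      · exact absurd h (by positivity)
      · exact h
    · intro h
      rw [h, mul_zero]
  have hmemΛ : ∀ y : E k, inner ℝ (Λ (0, y)) u = 0 := by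
    intro y
    rw [horth]
    simp
  let f : E k →ₗ[ℝ] ((ℝ ∙ u)ᗮ : Submodule ℝ (E (k + 1))) :=
    LinearMap.codRestrict _ (Λ.toLinearMap ∘ₗ LinearMap.inr ℝ ℝ (E k)) (fun y => by
      rw [mem_orthogonal_iff]
      exact hmemΛ y)
  have hf : ∀ y, (f y : E (k + 1)) = Λ (0, y) := fun y => rfl
  have hfinj : Function.Injective f := by
    intro y y' h
    have h1 : Λ (0, y) = Λ (0, y') := by
      rw [← hf, ← hf, h]
    have h2 := congrArg Prod.snd (Λ.injective h1)
    exact h2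
  let ψ : E k ≃ₗ[ℝ] ((ℝ ∙ u)ᗮ : Submodule ℝ (E (k + 1))) :=
    LinearMap.linearEquivOfInjective f hfinj (by
      rw [finrank_orthogonal hu0, finrank_euclideanSpace_fin])
  have hψ : ∀ y, (ψ y : E (k + 1)) = Λ (0, y) := fun y => hf y
  have hψc : Continuous ψ := LinearMap.continuous_of_finiteDimensional ψ.toLinearMap
  have hHaar : (Measure.map ψ (volume : Measure (E k))).IsAddHaarMeasure :=
    ψ.toContinuousLinearEquiv.isAddHaarMeasure_map volume
  obtain ⟨c, h1⟩ : ∃ c : NNReal, (volume : Measure ((ℝ ∙ u)ᗮ : Submodule ℝ (E (k + 1))))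
      = c • (Measure.map ψ (volume : Measure (E k))) :=
    ⟨_, Measure.isAddLeftInvariant_eq_smul _ _⟩
  refine ⟨u, v, hu1, hv1, huv, (c : ℝ≥0∞), ?_, ?_⟩
  · intro X hX
    rw [hypVol_eq]
    have h2 : MeasurableSet ((fun z : ((ℝ ∙ u)ᗮ : Submodule ℝ (E (k + 1))) => (z : E (k + 1))) ⁻¹' X) :=
      measurable_subtype_coe hX
    rw [h1, Measure.smul_apply, Measure.map_apply hψc.measurable h2]
    have h3 : ψ ⁻¹' ((fun z : ((ℝ ∙ u)ᗮ : Submodule ℝ (E (k + 1))) => (z : E (k + 1))) ⁻¹' X)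
        = slice Λ X 0 := by
      ext y
      show (ψ y : E (k + 1)) ∈ X ↔ Λ (0, y) ∈ X
      rw [hψ]
    rw [h3]
    rfl
  · intro K
    ext y
    show Λ (0, y) ∈ proj u v '' K ↔ ∃ t : ℝ, Λ (t, y) ∈ K
    rw [mem_proj_image_iff huv (hmemΛ y)]
    have h4 : ∀ t : ℝ, Λ (t, y) = Λ (0, y) + (t * ‖b‖) • v := by
      intro t
      have h5 : (t * ‖b‖) • v = Λ (t, 0) := by
        rw [hv, smul_smul, mul_assoc, mul_inv_cancel₀ hbpos.ne', mul_one, hb, ← map_smul]
        congr 1
        ext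
        · simp
        · simp
      rw [h5, ← map_add]
      congr 1
      ext
      · simp
      · simp
    constructor
    · rintro ⟨t, ht⟩
      refine ⟨t / ‖b‖, ?_⟩
      rw [h4, div_mul_cancel₀ _ hbpos.ne']
      exact ht
    · rintro ⟨t, ht⟩
      rw [h4] at ht
      exact ⟨_, ht⟩

/-- The upper bound for one body. -/
theorem exists_small_ratio {k : ℕ} {K : Set (E (k + 1))} (h : IsSymmBody K) :
    ∃ u v : E (k + 1), ‖u‖ = 1 ∧ ‖v‖ = 1 ∧ inner ℝ u v ≠ 0 ∧
      hypVol u (proj u v '' K) / hypVol u K ≤ ENNReal.ofReal (17 * √(k + 1)) := by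
  obtain ⟨A, hA1, hA2⟩ := john (Nat.succ_pos k) h.isCompact h.convex h.symm (zero_mem_interior h)
  have hAc : Continuous A := LinearMap.continuous_of_finiteDimensional A.toLinearMap
  have hAsc : Continuous A.symm := LinearMap.continuous_of_finiteDimensional A.symm.toLinearMap
  have hK'comp : IsCompact (A ⁻¹' K) := by
    have : A ⁻¹' K = A.symm '' K := by
      ext x
      constructor
      · intro hx
        exact ⟨A x, hx, by simp⟩
      · rintro ⟨y, hy, rfl⟩
        show A (A.symm y) ∈ K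
        rwa [A.apply_symm_apply]
    rw [this]
    exact h.isCompact.image hAsc
  have hK'conv : Convex ℝ (A ⁻¹' K) := h.convex.linear_preimage A.toLinearMap
  have hK'symm : ∀ x ∈ A ⁻¹' K, -x ∈ A ⁻¹' K := by
    intro x hx
    show A (-x) ∈ K
    rw [map_neg]
    exact h.symm _ hx
  obtain ⟨Γ, hΓ⟩ := exists_direction hK'comp hK'conv hK'symm hA1 hA2
  obtain ⟨u, v, hu, hv, huv, c, hc1, hc2⟩ := exists_hyperplane_coords (Γ.trans A)
  refine ⟨u, v, hu, hv, huv, ?_⟩
  apply ENNReal.div_le_of_le_mul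
  have hprojc : Continuous (proj u v) := by
    unfold proj
    fun_prop
  rw [hc1 _ (h.isCompact.image hprojc).isClosed.measurableSet,
    hc1 _ h.isCompact.isClosed.measurableSet, hc2]
  have h1 : shadow (Γ.trans A) K = shadow Γ (A ⁻¹' K) := rfl
  have h2 : slice (Γ.trans A) K 0 = slice Γ (A ⁻¹' K) 0 := rfl
  rw [h1, h2]
  calc c * volume (shadow Γ (A ⁻¹' K))
      ≤ c * (ENNReal.ofReal (17 * √(k + 1)) * volume (slice Γ (A ⁻¹' K) 0)) := by gcongr
    _ = _ := by ring

end MeyerRatio
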